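import Pool.Agent.Lib.MP_09cbbd_sw.BoxDef

/-!
# Hard spheres with a pair attraction: definitions
-/

set_option autoImplicit false

namespace Pool.Agent.KacGas

open MeasureTheory Filter Topology Pool.Agent.SquareWellGas

/-- Canonical partition function of `N` hard spheres of radius `a` with centres in the box
`[0, ℓ)^d` and the pair energy `-u (x - y)`:
`(1 / N!) ∫ exp (∑_{i < j} u (x_i - x_j)) dx` over the configurations `x` with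
`|x_i - x_j| ≥ 2 a` for `i ≠ j`. -/
noncomputable def Z (d : ℕ) (a : ℝ) (u : (Fin d → ℝ) → ℝ) (ℓ : ℝ) (N : ℕ) : ℝ :=
  ((N.factorial : ℝ))⁻¹ *
    ∫ x in {x : Fin N → Fin d → ℝ | (∀ i, x i ∈ Box d ℓ) ∧
      ∀ i j, i ≠ j → (2 * a) ^ 2 ≤ ∑ k, (x i k - x j k) ^ 2},
        Real.exp (∑ i, ∑ j ∈ Finset.Ioi i, u (x i - x j))

/-- First-order phase transition strictly below the maximal density `ρ₀`. For cubes
`[0, ℓ)^d` and particle numbers `N` with `ℓ → ∞` and `N / ℓ^d → ρ`, the partition function is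
eventually positive with `log Z / ℓ^d → f ρ` if `0 < ρ < ρ₀`, and eventually zero if `ρ > ρ₀`. On
`(0, ρ₀)` the function `f` is at most an affine function, with equality exactly on an interval
`[ρ₁, ρ₂]` with `0 < ρ₁ < ρ₂ < ρ₀`, and `f` is not real-analytic at `ρ₁` and at `ρ₂`. -/
def Transition (d : ℕ) (a : ℝ) (u : (Fin d → ℝ) → ℝ) : Prop :=
  ∃ (f : ℝ → ℝ) (ρ₀ ρ₁ ρ₂ c b : ℝ), 0 < ρ₁ ∧ ρ₁ < ρ₂ ∧ ρ₂ < ρ₀ ∧
    (∀ (ℓ : ℕ → ℝ) (N : ℕ → ℕ) (ρ : ℝ), Tendsto ℓ atTop atTop →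
      Tendsto (fun j => (N j : ℝ) / ℓ j ^ d) atTop (𝓝 ρ) →
      (ρ ∈ Set.Ioo 0 ρ₀ → (∀ᶠ j in atTop, 0 < Z d a u (ℓ j) (N j)) ∧
        Tendsto (fun j => Real.log (Z d a u (ℓ j) (N j)) / ℓ j ^ d) atTop (𝓝 (f ρ))) ∧
      (ρ₀ < ρ → ∀ᶠ j in atTop, Z d a u (ℓ j) (N j) = 0)) ∧
    (∀ ρ ∈ Set.Ioo 0 ρ₀, f ρ ≤ c * ρ + b ∧ (f ρ = c * ρ + b ↔ ρ ∈ Set.Icc ρ₁ ρ₂)) ∧
    ¬ AnalyticAt ℝ f ρ₁ ∧ ¬ AnalyticAt ℝ f ρ₂

end Pool.Agent.KacGas
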