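import Pool.Agent.Lib.MP_09cbbd_kc.Defs

/-!
# The weights of a pair interaction: definitions
-/

set_option autoImplicit false

namespace Pool.Agent.Kac

open MeasureTheory Finset Pool.Agent.StableGas Pool.Agent.SquareWell

variable {d : ℕ}

/-- Assumptions on the shape of the interaction. -/
structure Ad (J : (Fin d → ℝ) → ℝ) : Prop where
  meas : Measurable J
  nonneg : ∀ x, 0 ≤ J x
  le_one : ∀ x, J x ≤ 1
  even : ∀ x, J (-x) = J x
  supp : ∀ x, J x ≠ 0 → ∀ k, |x k| ≤ 1

/-- The cube `{-B, …, B}^d`. -/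
noncomputable def SB (d B : ℕ) : Finset (Zd d) := Fintype.piFinset fun _ => Finset.Icc (-(B : ℤ)) B

/-- The differences of the points of the cells at `0` and at `v` (cells of side `1 / B`). -/
def Dif (B : ℕ) (v : Zd d) : Set (Fin d → ℝ) := {x | ∀ k, |(B : ℝ) * x k - v k| < 1}

/-- Upper weights. -/
noncomputable def JU (J : (Fin d → ℝ) → ℝ) (B : ℕ) (v : Zd d) : ℝ := sSup (J '' Dif B v)

/-- Lower weights. -/
noncomputable def JL (J : (Fin d → ℝ) → ℝ) (B : ℕ) (v : Zd d) : ℝ := by
  classical exact if v = 0 then 0 else sInf (J '' Dif B v)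

/-- The pair interaction. -/
noncomputable def uu (J : (Fin d → ℝ) → ℝ) (K R : ℝ) (x : Fin d → ℝ) : ℝ := K * J (R⁻¹ • x)

end Pool.Agent.Kac
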