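import Pool.Agent.Lib.MP_09cbbd_sw.Defs

/-!
# Hard spheres with a pair attraction as a gas on cells: the abstract lattice model
-/

set_option autoImplicit false

namespace Pool.Agent.Kac

open MeasureTheory Finset Filter Topology Pool.Agent.StableGas Pool.Agent.SquareWell

variable {d : ℕ}

/-- The data of a gas on cells. `E` are the contents of a cell, `π` the a priori measure, `e0` the
empty content, `n` the number of particles, `c` removes the particles near the faces of the cell,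
`h` is the weight of the interaction inside a cell and `g v` the square root of the weight of the
interaction between two cells at lattice distance `v`. `S` is the range of the interaction, the
energy of a pair of particles in two cells at lattice distance `v` is between `- K J v` and
`- K Jm v`. -/
structure Md (d : ℕ) (E : Type) [MeasurableSpace E] where
  π : Measure E
  e0 : E
  n : E → ℕ
  c : E → E
  h : E → ENNReal
  g : Zd d → E → E → ENNReal
  S : Finset (Zd d)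
  J : Zd d → ℝ
  Jm : Zd d → ℝ
  r : ℕ
  N : ℕ
  Ns : ℕ
  K : ℝ
  b : ℝ
  measurable_n : Measurable n
  measurable_c : Measurable c
  measurable_h : Measurable h
  measurable_g : ∀ v, Measurable fun p : E × E => g v p.1 p.2
  measurableSet_e0 : MeasurableSet ({e0} : Set E)
  measurableSet_core : MeasurableSet {x | c x = x}
  π_e0 : π {e0} = 1
  π_univ : π Set.univ ≤ ex b
  hK : 0 < K
  hN : 1 ≤ N
  hr : 1 ≤ r
  zero_S : (0 : Zd d) ∈ S
  Nb_S : Nb 0 ⊆ S
  S_neg : ∀ v ∈ S, -v ∈ S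
  S_r : ∀ v ∈ S, ∀ k, |v k| ≤ r
  Jm_nonneg : ∀ v, 0 ≤ Jm v
  Jm_le : ∀ v, Jm v ≤ J v
  J_le_one : ∀ v, J v ≤ 1
  J_neg : ∀ v, J (-v) = J v
  Jm_neg : ∀ v, Jm (-v) = Jm v
  Jm_zero : Jm 0 = 0
  one_le_tot : 1 ≤ ∑ v ∈ S, J v
  n_e0 : n e0 = 0
  n_le : ∀ x, n x ≤ N
  n_c : ∀ x, n (c x) ≤ n x
  n_le_c : ∀ x, n x ≤ n (c x) + Ns
  c_e0 : c e0 = e0
  c_c : ∀ x, c (c x) = c x
  c_push : ∀ F : E → ENNReal, Measurable F →
    ∫⁻ x, F (c x) ∂π ≤ ex b * ∫⁻ x in {x | c x = x}, F x ∂π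
  h_e0 : h e0 = 1
  one_le_h : ∀ x, 1 ≤ h x
  h_up : ∀ x, h x ≤ ex (K / 2 * J 0 * n x * n x)
  h_c : ∀ x, h x ≤ h (c x) * ex (K * J 0 * Ns * N)
  g_symm : ∀ v x y, g (-v) y x = g v x y
  g_e0 : ∀ v y, g v e0 y = 1
  g_up : ∀ v x y, g v x y ≤ ex (K / 2 * J v * n x * n y)
  g_lo : ∀ v x y, v ≠ 0 → (v ∉ Nb 0 ∨ c x = x ∨ c y = y) → ex (K / 2 * Jm v * n x * n y) ≤ g v x y
  g_c : ∀ v x y, g v x y ≤ g v (c x) y * ex (K / 2 * J v * Ns * N)

/-- Weighted number of the pairs `(i, i + v)`, `v ∈ S`, with `i ∈ Y` and `i + v ∉ Y`. -/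
noncomputable def cut (S : Finset (Zd d)) (J : Zd d → ℝ) (Y : Finset (Zd d)) : ℝ :=
  ∑ v ∈ S, J v * (Y.filter fun i => i + v ∉ Y).card

namespace Md

variable {E : Type} [MeasurableSpace E] (M : Md d E)

/-- Sums of the weights. -/
noncomputable def tot : ℝ := ∑ v ∈ M.S, M.J v

noncomputable def totm : ℝ := ∑ v ∈ M.S, M.Jm v

theorem J_nonneg (v : Zd d) : 0 ≤ M.J v := (M.Jm_nonneg v).trans (M.Jm_le v)

theorem tot_nonneg : 0 ≤ M.tot := sum_nonneg fun v _ => M.J_nonneg v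

theorem tot_ge_one : 1 ≤ M.tot := M.one_le_tot

theorem tot_le_card : M.tot ≤ M.S.card := by
  unfold tot
  calc ∑ v ∈ M.S, M.J v ≤ ∑ _v ∈ M.S, (1 : ℝ) := sum_le_sum fun v _ => M.J_le_one v
    _ = M.S.card := by simp

theorem totm_le_tot : M.totm ≤ M.tot := sum_le_sum fun v _ => M.Jm_le v

theorem totm_nonneg : 0 ≤ M.totm := sum_nonneg fun v _ => M.Jm_nonneg v

theorem one_le_g (v : Zd d) (x y : E) (hv : v ≠ 0) (h : v ∉ Nb 0 ∨ M.c x = x ∨ M.c y = y) :
    1 ≤ M.g v x y := by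
  refine le_trans ?_ (M.g_lo v x y hv h)
  rw [one_le_ex]
  have h1 := M.Jm_nonneg v
  have h2 := M.hK
  positivity

/-- Weight of a configuration in `A`, for an index group `Γ` with a map `φ` from the lattice. -/
noncomputable def wG {Γ : Type} [AddCommGroup Γ] [DecidableEq Γ] (φ : Zd d → Γ) (μ : ℝ)
    (A : Finset Γ) (ω : Γ → E) : ENNReal :=
  (∏ i ∈ A, ex (μ * M.n (ω i)) * M.h (ω i)) *
    ∏ v ∈ M.S.erase 0, ∏ i ∈ A.filter (fun i => i + φ v ∈ A), M.g v (ω i) (ω (i + φ v))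

/-- Weight of a configuration in `A`. -/
noncomputable def w (μ : ℝ) (A : Finset (Zd d)) (ω : Zd d → E) : ENNReal :=
  (∏ i ∈ A, ex (μ * M.n (ω i)) * M.h (ω i)) *
    ∏ v ∈ M.S.erase 0, ∏ i ∈ A.filter (fun i => i + v ∈ A), M.g v (ω i) (ω (i + v))

/-- Integral over the contents of the cells of `A` (the other cells are empty). -/
noncomputable def int (A : Finset (Zd d)) (f : (Zd d → E) → ENNReal) : ENNReal :=
  lmarginal (fun _ : Zd d => M.π) A f fun _ => M.e0

/-- Grand-canonical partition function. -/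
noncomputable def xi (μ : ℝ) (A : Finset (Zd d)) : ENNReal := M.int A (M.w μ A)

/-- `p` is the pressure. -/
def IsP (p : ℝ → ℝ) : Prop :=
  ∀ μ, Tendsto (fun L : ℕ => Real.log (M.xi μ (bx d L)).toReal / (L : ℝ) ^ d) atTop (𝓝 (p μ))

/-- Trimming: the particles near the faces are removed in the boundary cells of `Y`. -/
noncomputable def tr (Y : Finset (Zd d)) (ω : Zd d → E) : Zd d → E := by
  classical exact fun i => if i ∈ bd Y then M.c (ω i) else ω i

/-- Weighted number of the pairs (particle in `Y`, cell outside). -/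
noncomputable def ou (Y : Finset (Zd d)) (ω : Zd d → E) : ℝ :=
  ∑ v ∈ M.S, M.Jm v * ∑ i ∈ Y.filter (fun i => i + v ∉ Y), (M.n (ω i) : ℝ)

/-- The gluing inequality at the chemical potential `μ`, with density `ρ` and pressure `p`. -/
def Glue (μ ρ p : ℝ) : Prop :=
  ∀ Y : Finset (Zd d), M.int Y (fun ω => M.w μ Y (M.tr Y ω) * ex (ρ * M.K * M.ou Y (M.tr Y ω))) ≤
    ex (M.b * (bd Y).card + Y.card * p + ρ / 2 * M.K * M.N * cut M.S M.J Y)

/-- Dense contents. -/
def Dn (x : E) : Prop := 7 * M.N ≤ 8 * M.n (M.c x)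

/-- Almost empty contents. -/
def Vc (x : E) : Prop := 16 * M.n x ≤ M.N

end Md

end Pool.Agent.Kac
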