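import Pool.Agent.Lib.MP_09cbbd_kc.GeoB

/-!
# The weights of a pair interaction
-/

set_option autoImplicit false

namespace Pool.Agent.Kac

open MeasureTheory Finset Pool.Agent.StableGas Pool.Agent.SquareWell

variable {d : ℕ}

namespace Geo

/-- Number of the sites of `Y` which leave `Y` under the translation by `v`. -/
noncomputable def dd (Y : Finset (Zd d)) (v : Zd d) : ℕ := (Y.filter fun i => i + v ∉ Y).card

theorem cut_eq (S : Finset (Zd d)) (J : Zd d → ℝ) (Y : Finset (Zd d)) :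
    cut S J Y = ∑ v ∈ S, J v * dd Y v := rfl

theorem dd_zero (Y : Finset (Zd d)) : dd Y 0 = 0 := by
  unfold dd
  rw [card_eq_zero, filter_eq_empty_iff]
  intro i hi
  simpa using hi

theorem dd_add (Y : Finset (Zd d)) (u v : Zd d) : dd Y (u + v) ≤ dd Y u + dd Y v := by
  classical
  have h : (Y.filter fun i => i + (u + v) ∉ Y) ⊆
      (Y.filter fun i => i + u ∉ Y) ∪ ((Y.filter fun i => i + v ∉ Y).image fun i => i - u) := by
    intro i hi
    rw [mem_filter] at hi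
    rw [mem_union, mem_filter, mem_image]
    by_cases h1 : i + u ∈ Y
    · right
      refine ⟨i + u, ?_, by simp⟩
      rw [mem_filter]
      exact ⟨h1, by rw [add_assoc]; exact hi.2⟩
    · exact Or.inl ⟨hi.1, h1⟩
  unfold dd
  calc _ ≤ _ := card_le_card h
    _ ≤ _ := card_union_le _ _
    _ ≤ _ := Nat.add_le_add_left card_image_le _

theorem dd_neg (Y : Finset (Zd d)) (v : Zd d) : dd Y (-v) = dd Y v := by
  classical
  have h1 : (Y.filter fun i => i + v ∈ Y).card = (Y.filter fun i => i + -v ∈ Y).card := by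
    refine card_bij (fun i _ => i + v) ?_ ?_ ?_
    · intro i hi
      rw [mem_filter] at hi ⊢
      exact ⟨hi.2, by rw [add_neg_cancel_right]; exact hi.1⟩
    · intro i _ j _ h
      exact add_right_cancel h
    · intro j hj
      rw [mem_filter] at hj
      exact ⟨j + -v, by rw [mem_filter, neg_add_cancel_right]; exact ⟨hj.2, hj.1⟩,
        neg_add_cancel_right j v⟩
  have h2 := card_filter_add_card_filter_not (s := Y) (fun i => i + v ∈ Y)
  have h3 := card_filter_add_card_filter_not (s := Y) (fun i => i + -v ∈ Y)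
  unfold dd
  omega

theorem dd_iter (Y : Finset (Zd d)) (q : ℕ) (D : ℝ)
    (h : ∀ w : Zd d, (∀ k, |w k| ≤ q) → (dd Y w : ℝ) ≤ D) :
    ∀ (m : ℕ) (v : Zd d), (∀ k, |v k| ≤ m * q) → (dd Y v : ℝ) ≤ m * D := by
  intro m
  induction m with
  | zero =>
    intro v hv
    have : v = 0 := by
      funext k
      have := hv k
      simpa using this
    rw [this, dd_zero]
    simp
  | succ m ih =>
    intro v hv
    obtain ⟨w, hw⟩ : ∃ w : Zd d, w = fun k => max (-(q : ℤ)) (min (q : ℤ) (v k)) := ⟨_, rfl⟩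
    have h1 : ∀ k, |w k| ≤ q := by
      intro k
      rw [hw, abs_le]
      refine ⟨le_max_left _ _, max_le ?_ (min_le_left _ _)⟩
      have : (0 : ℤ) ≤ q := Int.natCast_nonneg q
      linarith
    have h2 : ∀ k, |(v - w) k| ≤ m * q := by
      intro k
      have h3 := hv k
      have hm : (0 : ℤ) ≤ m * q := by positivity
      have hq : (0 : ℤ) ≤ q := Int.natCast_nonneg q
      push_cast at h3
      rw [abs_le] at h3
      rw [Pi.sub_apply, hw, abs_le]
      have e1 : ((m : ℤ) + 1) * q = m * q + q := by ring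
      rw [e1] at h3
      generalize (m : ℤ) * q = a at *
      simp only
      rcases le_total (q : ℤ) (v k) with h4 | h4
      · rw [min_eq_left h4, max_eq_right (by linarith)]
        constructor <;> linarith [h3.1, h3.2]
      · rw [min_eq_right h4]
        rcases le_total (-(q : ℤ)) (v k) with h5 | h5
        · rw [max_eq_right h5]
          constructor <;> linarith
        · rw [max_eq_left h5]
          constructor <;> linarith [h3.1, h3.2]
    have h3 := dd_add Y w (v - w)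
    rw [add_sub_cancel] at h3
    have h4 : (dd Y v : ℝ) ≤ dd Y w + dd Y (v - w) := by exact_mod_cast h3
    have h5 := h w h1
    have h6 := ih (v - w) h2
    push_cast
    linarith

/-- The cube of the `v` with `|v - b| ≤ r`. -/
noncomputable def W (b : Fin d → ℝ) (r : ℝ) : Finset (Zd d) :=
  Fintype.piFinset fun k => Finset.Icc ⌈b k - r⌉ ⌊b k + r⌋

theorem mem_W {b : Fin d → ℝ} {r : ℝ} {v : Zd d} (h : v ∈ W b r) (k : Fin d) :
    |(v k : ℝ) - b k| ≤ r := by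
  unfold W at h
  rw [Fintype.mem_piFinset] at h
  have h1 := mem_Icc.1 (h k)
  have h2 := Int.ceil_le.1 h1.1
  have h3 := Int.le_floor.1 h1.2
  rw [abs_le]
  constructor <;> linarith

theorem card_W (b : Fin d → ℝ) {r : ℝ} (hr : 1 ≤ r) : r ^ d ≤ ((W b r).card : ℝ) := by
  unfold W
  rw [Fintype.card_piFinset]
  push_cast
  calc r ^ d = ∏ _k : Fin d, r := by simp
    _ ≤ _ := by
      refine prod_le_prod (fun _ _ => by linarith) fun k _ => ?_
      rw [Int.card_Icc]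
      have h1 : b k + r - 1 < ⌊b k + r⌋ := Int.sub_one_lt_floor _
      have h2 : (⌈b k - r⌉ : ℝ) < b k - r + 1 := Int.ceil_lt_add_one _
      have h3 : ((⌊b k + r⌋ + 1 - ⌈b k - r⌉ : ℤ) : ℝ) ≤
          (((⌊b k + r⌋ + 1 - ⌈b k - r⌉).toNat : ℕ) : ℝ) := by
        exact_mod_cast Int.self_le_toNat _
      push_cast at h3
      linarith

theorem dd_le (Y : Finset (Zd d)) {B : ℕ} {s θ : ℝ} (hθ : 0 < θ) (x0 : Fin d → ℝ)
    (hB : 2 ≤ s * B / 2) (Jm : Zd d → ℝ) (hJ : ∀ v, 0 ≤ Jm v)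
    (hm : ∀ v : Zd d, (∀ k, |(v k : ℝ) - B * x0 k| ≤ s * B) → v ∈ SB d B ∧ θ ≤ Jm v)
    (w : Zd d) (hw : ∀ k, |(w k : ℝ)| ≤ s * B / 2) :
    θ * (s * B / 2) ^ d * dd Y w ≤ 2 * cut (SB d B) Jm Y := by
  classical
  set b : Fin d → ℝ := fun k => B * x0 k with hb
  set r : ℝ := s * B / 2 with hr
  have hnear : ∀ u ∈ W b r, ∀ k, |((w + u) k : ℝ) - B * x0 k| ≤ s * B := by
    intro u hu k
    have h1 := abs_le.1 (mem_W hu k)
    have h2 := abs_le.1 (hw k)
    rw [Pi.add_apply, abs_le]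
    push_cast
    rw [hb] at h1
    simp only at h1
    rw [hr] at h1
    constructor <;> linarith [h1.1, h1.2, h2.1, h2.2]
  have hnear' : ∀ u ∈ W b r, ∀ k, |(u k : ℝ) - B * x0 k| ≤ s * B := by
    intro u hu k
    have h1 := mem_W hu k
    refine h1.trans ?_
    rw [hr]
    linarith
  have h1 : θ * ∑ u ∈ W b r, (dd Y (w + u) : ℝ) ≤ cut (SB d B) Jm Y := by
    rw [cut_eq, mul_sum]
    calc ∑ u ∈ W b r, θ * (dd Y (w + u) : ℝ)
        ≤ ∑ u ∈ W b r, Jm (w + u) * (dd Y (w + u) : ℝ) :=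
          sum_le_sum fun u hu => mul_le_mul_of_nonneg_right (hm _ (hnear u hu)).2
            (Nat.cast_nonneg _)
      _ = ∑ u ∈ (W b r).image fun u => w + u, Jm u * (dd Y u : ℝ) := by
          rw [sum_image fun u _ u' _ h => add_left_cancel h]
      _ ≤ _ := by
          refine sum_le_sum_of_subset_of_nonneg ?_ fun u _ _ =>
            mul_nonneg (hJ u) (Nat.cast_nonneg _)
          intro u hu
          obtain ⟨u', hu', rfl⟩ := mem_image.1 hu
          exact (hm _ (hnear u' hu')).1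
  have h2 : θ * ∑ u ∈ W b r, (dd Y u : ℝ) ≤ cut (SB d B) Jm Y := by
    rw [cut_eq, mul_sum]
    calc ∑ u ∈ W b r, θ * (dd Y u : ℝ)
        ≤ ∑ u ∈ W b r, Jm u * (dd Y u : ℝ) :=
          sum_le_sum fun u hu => mul_le_mul_of_nonneg_right (hm _ (hnear' u hu)).2
            (Nat.cast_nonneg _)
      _ ≤ _ := by
          refine sum_le_sum_of_subset_of_nonneg ?_ fun u _ _ =>
            mul_nonneg (hJ u) (Nat.cast_nonneg _)
          intro u hu
          exact (hm _ (hnear' u hu)).1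
  have h3 : ((W b r).card : ℝ) * dd Y w ≤
      ∑ u ∈ W b r, (dd Y (w + u) : ℝ) + ∑ u ∈ W b r, (dd Y u : ℝ) := by
    rw [← sum_add_distrib, ← nsmul_eq_mul, ← sum_const]
    refine sum_le_sum fun u _ => ?_
    have h4 := dd_add Y (w + u) (-u)
    rw [add_neg_cancel_right, dd_neg] at h4
    exact_mod_cast h4
  have h4 := card_W b (r := r) (by linarith)
  have h5 : (0 : ℝ) ≤ dd Y w := Nat.cast_nonneg _
  calc θ * r ^ d * dd Y w ≤ θ * ((W b r).card : ℝ) * dd Y w :=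
        mul_le_mul_of_nonneg_right (mul_le_mul_of_nonneg_left h4 hθ.le) h5
    _ = θ * (((W b r).card : ℝ) * dd Y w) := by ring
    _ ≤ θ * (∑ u ∈ W b r, (dd Y (w + u) : ℝ) + ∑ u ∈ W b r, (dd Y u : ℝ)) :=
        mul_le_mul_of_nonneg_left h3 hθ.le
    _ ≤ _ := by rw [mul_add]; linarith

theorem JU_nonneg {J : (Fin d → ℝ) → ℝ} (hJ : Ad J) (B : ℕ) (v : Zd d) : 0 ≤ JU J B v := by
  unfold JU
  refine Real.sSup_nonneg ?_
  rintro _ ⟨x, _, rfl⟩
  exact hJ.nonneg x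

theorem JL_le_JU {J : (Fin d → ℝ) → ℝ} (hJ : Ad J) {B : ℕ} (hB : 1 ≤ B) (v : Zd d) :
    JL J B v ≤ JU J B v := by
  by_cases hv : v = 0
  · have : JL J B v = 0 := by unfold JL; rw [if_pos hv]
    rw [this]
    exact JU_nonneg hJ B v
  · unfold JL JU
    rw [if_neg hv]
    obtain ⟨x, hx⟩ := GeoB.Dif_nonempty hB v
    have hm : J x ∈ J '' Dif B v := ⟨x, hx, rfl⟩
    refine le_trans (csInf_le ⟨0, ?_⟩ hm) (le_csSup ⟨1, ?_⟩ hm)
    · rintro _ ⟨y, _, rfl⟩
      exact hJ.nonneg y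
    · rintro _ ⟨y, _, rfl⟩
      exact hJ.le_one y

end Geo

open Geo

/-- Comparison of the cuts. -/
theorem cut_le (hd : 1 ≤ d) {s θ : ℝ} (hs : 0 < s) (hθ : 0 < θ) (x0 : Fin d → ℝ) :
    ∃ (C : ℝ) (B0 : ℕ), 0 < C ∧ ∀ B : ℕ, B0 ≤ B → ∀ Jm : Zd d → ℝ, (∀ v, 0 ≤ Jm v) →
      (∀ v : Zd d, (∀ k, |(v k : ℝ) - B * x0 k| ≤ s * B) → v ∈ SB d B ∧ θ ≤ Jm v) →
      ∀ (Y : Finset (Zd d)) (v : Zd d), v ∈ SB d B →
        ((Y.filter fun i => i + v ∉ Y).card : ℝ) * B ^ d ≤ C * cut (SB d B) Jm Y := by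
  obtain ⟨m, hm⟩ : ∃ m : ℕ, m = ⌈4 / s⌉₊ := ⟨_, rfl⟩
  have hm1 : 4 / s ≤ m := by rw [hm]; exact Nat.le_ceil _
  have hm0 : (0 : ℝ) < m := lt_of_lt_of_le (by positivity) hm1
  have hms : 4 ≤ m * s := by rwa [div_le_iff₀ hs] at hm1
  refine ⟨m * (2 / (θ * (s / 2) ^ d)), m, by positivity, ?_⟩
  intro B hB Jm hJ hJm Y v hv
  have hBm : (m : ℝ) ≤ B := by exact_mod_cast hB
  have hB0 : (0 : ℝ) < B := lt_of_lt_of_le hm0 hBm
  have hsB : 4 ≤ s * B := by nlinarith
  obtain ⟨q, hq⟩ : ∃ q : ℕ, q = ⌊s * B / 2⌋₊ := ⟨_, rfl⟩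
  have hq1 : (q : ℝ) ≤ s * B / 2 := by rw [hq]; exact Nat.floor_le (by positivity)
  have hq2 : s * B / 2 < q + 1 := by rw [hq]; exact Nat.lt_floor_add_one _
  have hq3 : s * B / 4 ≤ q := by linarith
  have hmq : (B : ℝ) ≤ m * q := by
    have h1 : (m : ℝ) * (s * B / 4) ≤ m * q := mul_le_mul_of_nonneg_left hq3 hm0.le
    nlinarith
  have hc : 0 ≤ cut (SB d B) Jm Y :=
    sum_nonneg fun u _ => mul_nonneg (hJ u) (Nat.cast_nonneg _)
  have hden : 0 < θ * (s / 2) ^ d * B ^ d := by positivity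
  have h1 := dd_iter Y q (2 * cut (SB d B) Jm Y / (θ * (s / 2) ^ d * B ^ d)) (fun w hw => by
    rw [le_div_iff₀ hden]
    have h2 := dd_le Y hθ x0 (by linarith) Jm hJ hJm w (fun k => by
      have h3 : |(w k : ℝ)| ≤ q := by exact_mod_cast hw k
      linarith)
    have e : (s * B / 2) ^ d = (s / 2) ^ d * (B : ℝ) ^ d := by rw [← mul_pow]; ring
    rw [e] at h2
    linarith) m v (fun k => by
      unfold SB at hv
      rw [Fintype.mem_piFinset] at hv
      have h3 := mem_Icc.1 (hv k)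
      have h4 : |v k| ≤ (B : ℤ) := abs_le.2 h3
      have h5 : (B : ℤ) ≤ m * q := by exact_mod_cast hmq
      linarith)
  have h2 : ((Y.filter fun i => i + v ∉ Y).card : ℝ) = dd Y v := rfl
  rw [h2]
  calc (dd Y v : ℝ) * B ^ d ≤
        m * (2 * cut (SB d B) Jm Y / (θ * (s / 2) ^ d * B ^ d)) * B ^ d :=
        mul_le_mul_of_nonneg_right h1 (by positivity)
    _ = _ := by field_simp

theorem exists_B (hd : 1 ≤ d) {J : (Fin d → ℝ) → ℝ} (hJ : Ad J) (hc : ∀ᵐ x, ContinuousAt J x)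
    (hp : 0 < ∫ x, J x) : ∃ B : ℕ, 1 ≤ B ∧
      (∀ Y : Finset (Zd d), 511 * cut (SB d B) (JU J B) Y ≤ 512 * cut (SB d B) (JL J B) Y) ∧
      (∀ Y : Finset (Zd d), ∑ e ∈ Nb 0, ((Y.filter fun i => i + e ∉ Y).card : ℝ) ≤
        cut (SB d B) (JU J B) Y) ∧
      (1 - 1 / 2 ^ 32 : ℝ) * ∑ v ∈ SB d B, JU J B v ≤ ∑ v ∈ SB d B, JL J B v ∧
      1 ≤ ∑ v ∈ SB d B, JU J B v := by
  classical
  obtain ⟨θ, s, x0, B1, hθ, hs, hlow⟩ := low_large hd hJ hc hp
  obtain ⟨C, B2, hC, hcut⟩ := cut_le (d := d) hd hs hθ x0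
  set c0 : ℝ := θ * (s / 2) ^ d with hc0
  have hc0pos : 0 < c0 := by positivity
  obtain ⟨ε, hε, hε1, hε2⟩ : ∃ ε : ℝ, 0 < ε ∧ ε * C ≤ 1 / 511 ∧ ε ≤ c0 / 2 ^ 32 := by
    refine ⟨min (1 / 511 / C) (c0 / 2 ^ 32), by positivity, ?_, min_le_right _ _⟩
    calc min (1 / 511 / C) (c0 / 2 ^ 32) * C ≤ 1 / 511 / C * C :=
          mul_le_mul_of_nonneg_right (min_le_left _ _) hC.le
      _ = 1 / 511 := by field_simp
  obtain ⟨B3, hosc⟩ := osc_small hd hJ hc hε
  obtain ⟨B4, hB4⟩ := exists_nat_gt ((Nb (0 : Zd d)).card * C)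
  obtain ⟨B5, hB5⟩ := exists_nat_gt (1 / c0)
  obtain ⟨B6, hB6⟩ := exists_nat_gt (2 / s)
  obtain ⟨B, hB⟩ : ∃ B : ℕ, B = 1 + B1 + B2 + B3 + B4 + B5 + B6 := ⟨_, rfl⟩
  have hB1 : 1 ≤ B := by omega
  have hBr : (1 : ℝ) ≤ B := by exact_mod_cast hB1
  have hBpow : (B : ℝ) ≤ (B : ℝ) ^ d := le_self_pow₀ hBr (by omega)
  have hBpos : (0 : ℝ) < (B : ℝ) ^ d := by positivity
  have hosc' := hosc B (by omega)
  have hlow' := hlow B (by omega)
  have hJL0 := GeoB.JL_nonneg hJ hB1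
  have hJLU := JL_le_JU hJ hB1
  have hcut' := hcut B (by omega) (JL J B) hJL0 hlow'
  have hsum : c0 * (B : ℝ) ^ d ≤ ∑ v ∈ SB d B, JL J B v := by
    have h6 : (B6 : ℝ) ≤ B := by exact_mod_cast (by omega : B6 ≤ B)
    have h7 : 1 ≤ s * B / 2 := by
      rw [div_lt_iff₀ hs] at hB6
      nlinarith
    have h8 := card_W (d := d) (fun k => B * x0 k) (r := s * B / 2) h7
    have h9 : ∀ u ∈ W (d := d) (fun k => B * x0 k) (s * B / 2),
        u ∈ SB d B ∧ θ ≤ JL J B u := by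
      intro u hu
      refine hlow' u fun k => (mem_W hu k).trans ?_
      linarith
    calc c0 * (B : ℝ) ^ d = θ * (s * B / 2) ^ d := by
          rw [hc0, mul_assoc, ← mul_pow]; congr 2; ring
      _ ≤ θ * ((W (d := d) (fun k => B * x0 k) (s * B / 2)).card : ℝ) :=
          mul_le_mul_of_nonneg_left h8 hθ.le
      _ = ∑ _u ∈ W (d := d) (fun k => B * x0 k) (s * B / 2), θ := by
          rw [sum_const, nsmul_eq_mul, mul_comm]
      _ ≤ ∑ u ∈ W (d := d) (fun k => B * x0 k) (s * B / 2), JL J B u :=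
          sum_le_sum fun u hu => (h9 u hu).2
      _ ≤ _ := sum_le_sum_of_subset_of_nonneg (fun u hu => (h9 u hu).1) fun u _ _ => hJL0 u
  have hsumU : ∑ v ∈ SB d B, JL J B v ≤ ∑ v ∈ SB d B, JU J B v := sum_le_sum fun v _ => hJLU v
  have hcLU : ∀ Y : Finset (Zd d), cut (SB d B) (JL J B) Y ≤ cut (SB d B) (JU J B) Y := fun Y =>
    sum_le_sum fun v _ => mul_le_mul_of_nonneg_right (hJLU v) (Nat.cast_nonneg _)
  have hc0' : ∀ Y : Finset (Zd d), 0 ≤ cut (SB d B) (JL J B) Y := fun Y =>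
    sum_nonneg fun v _ => mul_nonneg (hJL0 v) (Nat.cast_nonneg _)
  have hSdd : ∀ (Y : Finset (Zd d)) (v : Zd d), v ∈ SB d B →
      (dd Y v : ℝ) ≤ C * cut (SB d B) (JL J B) Y / (B : ℝ) ^ d := fun Y v hv => by
    rw [le_div_iff₀ hBpos]
    exact hcut' Y v hv
  refine ⟨B, hB1, ?_, ?_, ?_, ?_⟩
  · intro Y
    have h1 : cut (SB d B) (JU J B) Y - cut (SB d B) (JL J B) Y ≤
        ε * C * cut (SB d B) (JL J B) Y := by
      rw [cut_eq, cut_eq, ← sum_sub_distrib]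
      calc ∑ v ∈ SB d B, (JU J B v * dd Y v - JL J B v * dd Y v)
          = ∑ v ∈ SB d B, (JU J B v - JL J B v) * dd Y v :=
            sum_congr rfl fun v _ => by ring
        _ ≤ ∑ v ∈ SB d B, (JU J B v - JL J B v) *
              (C * cut (SB d B) (JL J B) Y / (B : ℝ) ^ d) :=
            sum_le_sum fun v hv => mul_le_mul_of_nonneg_left (hSdd Y v hv)
              (sub_nonneg.2 (hJLU v))
        _ = (∑ v ∈ SB d B, (JU J B v - JL J B v)) *
              (C * cut (SB d B) (JL J B) Y / (B : ℝ) ^ d) := by rw [sum_mul]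
        _ ≤ (ε * B ^ d) * (C * cut (SB d B) (JL J B) Y / (B : ℝ) ^ d) :=
            mul_le_mul_of_nonneg_right hosc' (div_nonneg (mul_nonneg hC.le (hc0' Y)) hBpos.le)
        _ = ε * C * cut (SB d B) (JL J B) Y := by field_simp
        _ = _ := by rw [cut_eq]
    have h2 : ε * C * cut (SB d B) (JL J B) Y ≤ 1 / 511 * cut (SB d B) (JL J B) Y :=
      mul_le_mul_of_nonneg_right hε1 (hc0' Y)
    linarith
  · intro Y
    have h1 : ∀ e ∈ Nb (0 : Zd d), e ∈ SB d B := by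
      intro e he
      unfold Nb at he
      rw [Fintype.mem_piFinset] at he
      unfold SB
      rw [Fintype.mem_piFinset]
      intro k
      have h2 := mem_Icc.1 (he k)
      rw [Pi.zero_apply] at h2
      rw [mem_Icc]
      omega
    calc ∑ e ∈ Nb 0, ((Y.filter fun i => i + e ∉ Y).card : ℝ)
        ≤ ∑ _e ∈ Nb (0 : Zd d), C * cut (SB d B) (JL J B) Y / (B : ℝ) ^ d :=
          sum_le_sum fun e he => hSdd Y e (h1 e he)
      _ = (Nb (0 : Zd d)).card * C / (B : ℝ) ^ d * cut (SB d B) (JL J B) Y := by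
          rw [sum_const, nsmul_eq_mul]; ring
      _ ≤ 1 * cut (SB d B) (JL J B) Y := by
          refine mul_le_mul_of_nonneg_right ?_ (hc0' Y)
          rw [div_le_one hBpos]
          have h4 : (B4 : ℝ) ≤ B := by exact_mod_cast (by omega : B4 ≤ B)
          linarith
      _ ≤ _ := by rw [one_mul]; exact hcLU Y
  · rw [sum_sub_distrib] at hosc'
    have h1 : ε * (B : ℝ) ^ d ≤ c0 / 2 ^ 32 * (B : ℝ) ^ d :=
      mul_le_mul_of_nonneg_right hε2 hBpos.le
    have h2 : c0 / 2 ^ 32 * (B : ℝ) ^ d = 1 / 2 ^ 32 * (c0 * (B : ℝ) ^ d) := by ring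
    have h3 : 1 / 2 ^ 32 * (c0 * (B : ℝ) ^ d) ≤ 1 / 2 ^ 32 * ∑ v ∈ SB d B, JU J B v :=
      mul_le_mul_of_nonneg_left (hsum.trans hsumU) (by positivity)
    rw [sub_mul, one_mul]
    linarith
  · refine le_trans ?_ (hsum.trans hsumU)
    have h5 : (B5 : ℝ) ≤ B := by exact_mod_cast (by omega : B5 ≤ B)
    rw [div_lt_iff₀ hc0pos] at hB5
    nlinarith

end Pool.Agent.Kac
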