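import Pool.Agent.Lib.MP_09cbbd_kc.Defs
import Pool.Agent.Lib.MP_09cbbd_mp_h27.CgThermo

/-!
# The pressure
-/

set_option autoImplicit false

namespace Pool.Agent.Kac

open MeasureTheory Finset Filter Topology Pool.Agent.StableGas Pool.Agent.SquareWell

variable {d : ℕ} {E : Type} [MeasurableSpace E] (M : Md d E)

namespace Pres

/-! ### Products in the extended nonnegative reals -/

theorem one_le_prod {ι : Type} {s : Finset ι} {f : ι → ENNReal} (h : ∀ i ∈ s, 1 ≤ f i) :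
    1 ≤ ∏ i ∈ s, f i := by
  classical
  induction s using Finset.induction_on with
  | empty => simp
  | insert a s ha ih =>
    rw [prod_insert ha]
    calc (1 : ENNReal) = 1 * 1 := (one_mul 1).symm
      _ ≤ f a * ∏ i ∈ s, f i := mul_le_mul' (h a (mem_insert_self a s))
          (ih fun i hi => h i (mem_insert_of_mem hi))

theorem prod_le_of_subset {ι : Type} {s t : Finset ι} (hst : s ⊆ t) {f : ι → ENNReal}
    (h : ∀ i ∈ t, i ∉ s → 1 ≤ f i) : ∏ i ∈ s, f i ≤ ∏ i ∈ t, f i := by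
  classical
  rw [← prod_sdiff hst]
  calc ∏ i ∈ s, f i = 1 * ∏ i ∈ s, f i := (one_mul _).symm
    _ ≤ (∏ i ∈ t \ s, f i) * ∏ i ∈ s, f i :=
      mul_le_mul' (one_le_prod fun i hi => h i (mem_sdiff.1 hi).1 (mem_sdiff.1 hi).2) le_rfl

theorem prod_mono {ι : Type} {s : Finset ι} {f g : ι → ENNReal} (h : ∀ i ∈ s, f i ≤ g i) :
    ∏ i ∈ s, f i ≤ ∏ i ∈ s, g i := Finset.prod_le_prod (fun _ _ => zero_le) h

/-! ### Elementary facts on the model -/

theorem fin_π : IsFiniteMeasure M.π :=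
  ⟨lt_of_le_of_lt M.π_univ (lt_top_iff_ne_top.2 (ex_ne_top _))⟩

theorem g_e0_right (v : Zd d) (x : E) : M.g v x M.e0 = 1 := by
  have h := M.g_symm (-v) M.e0 x
  rw [neg_neg] at h
  rw [h, M.g_e0]

theorem measurable_exn (μ : ℝ) : Measurable fun x : E => ex (μ * M.n x) :=
  (measurable_from_top (f := fun k : ℕ => ex (μ * k))).comp M.measurable_n

theorem Nb_neg {v : Zd d} : -v ∈ Nb 0 ↔ v ∈ Nb 0 := by
  rw [mem_Nb, mem_Nb]
  constructor
  · intro h k
    have := h k
    simp only [Pi.zero_apply, Pi.neg_apply] at this ⊢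
    constructor <;> omega
  · intro h k
    have := h k
    simp only [Pi.zero_apply, Pi.neg_apply] at this ⊢
    constructor <;> omega

theorem mem_bx {n : ℕ} {i : Zd d} : i ∈ bx d n ↔ ∀ k, 0 ≤ i k ∧ i k < n := by
  simp [bx]

theorem card_bx (n : ℕ) : (bx d n).card = n ^ d := by
  simp [bx]

end Pres

open Pres

theorem b_nonneg : 0 ≤ M.b := by
  rw [← one_le_ex, ← M.π_e0]
  exact (measure_mono (Set.subset_univ _)).trans M.π_univ

theorem measurable_w (μ : ℝ) (A : Finset (Zd d)) : Measurable (M.w μ A) := by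
  unfold Md.w
  refine Measurable.mul ?_ ?_
  · refine Finset.measurable_prod _ fun i _ => ?_
    exact ((measurable_exn M μ).comp (measurable_pi_apply i)).mul
      (M.measurable_h.comp (measurable_pi_apply i))
  · refine Finset.measurable_prod _ fun v _ => Finset.measurable_prod _ fun i _ => ?_
    exact (M.measurable_g v).comp (f := fun ω : Zd d → E => (ω i, ω (i + v)))
      ((measurable_pi_apply i).prodMk (measurable_pi_apply (i + v)))

/-- Energy bound. -/
theorem w_upper (μ : ℝ) (A : Finset (Zd d)) (ω : Zd d → E) :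
    M.w μ A ω ≤ ex (∑ i ∈ A, (μ * M.n (ω i) + M.K / 2 * M.tot * (M.n (ω i) : ℝ) ^ 2)) := by
  classical
  have hK := M.hK.le
  obtain ⟨a, ha⟩ : ∃ a : Zd d → ℝ, a = fun i => (M.n (ω i) : ℝ) := ⟨_, rfl⟩
  have h1 : ∏ i ∈ A, ex (μ * M.n (ω i)) * M.h (ω i) ≤
      ex (∑ i ∈ A, (μ * a i + M.K / 2 * M.J 0 * a i * a i)) := by
    rw [← prod_ex]
    refine prod_mono fun i _ => ?_
    rw [ex_add, ha]
    exact mul_le_mul' le_rfl (M.h_up (ω i))
  have h2 : ∏ v ∈ M.S.erase 0, ∏ i ∈ A.filter (fun i => i + v ∈ A), M.g v (ω i) (ω (i + v)) ≤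
      ex (∑ v ∈ M.S.erase 0, ∑ i ∈ A.filter (fun i => i + v ∈ A),
        M.K / 2 * M.J v * a i * a (i + v)) := by
    rw [← prod_ex]
    refine prod_mono fun v _ => ?_
    rw [← prod_ex]
    refine prod_mono fun i _ => ?_
    rw [ha]
    exact M.g_up v _ _
  unfold Md.w
  refine (mul_le_mul' h1 h2).trans ?_
  rw [← ex_add, ex_le_ex]
  have h3 : ∀ v : Zd d, ∑ i ∈ A.filter (fun i => i + v ∈ A), M.K / 2 * M.J v * a i * a (i + v) ≤
      M.J v * (M.K / 2 * ∑ i ∈ A, a i ^ 2) := by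
    intro v
    have hJ := M.J_nonneg v
    have h4 : ∑ i ∈ A.filter (fun i => i + v ∈ A), a i ^ 2 ≤ ∑ i ∈ A, a i ^ 2 :=
      sum_le_sum_of_subset_of_nonneg (filter_subset _ _) fun _ _ _ => sq_nonneg _
    have h5 : ∑ i ∈ A.filter (fun i => i + v ∈ A), a (i + v) ^ 2 ≤ ∑ i ∈ A, a i ^ 2 := by
      have h6 : ∑ i ∈ A.filter (fun i => i + v ∈ A), a (i + v) ^ 2 =
          ∑ j ∈ (A.filter (fun i => i + v ∈ A)).image (fun i => i + v), a j ^ 2 := by
        rw [sum_image fun i _ j _ h => add_right_cancel h]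
      rw [h6]
      refine sum_le_sum_of_subset_of_nonneg ?_ fun _ _ _ => sq_nonneg _
      intro j hj
      obtain ⟨i, hi, rfl⟩ := mem_image.1 hj
      exact (mem_filter.1 hi).2
    calc ∑ i ∈ A.filter (fun i => i + v ∈ A), M.K / 2 * M.J v * a i * a (i + v)
        ≤ ∑ i ∈ A.filter (fun i => i + v ∈ A),
          M.K / 2 * M.J v * ((a i ^ 2 + a (i + v) ^ 2) / 2) := by
          refine sum_le_sum fun i _ => ?_
          rw [mul_assoc (M.K / 2 * M.J v)]
          refine mul_le_mul_of_nonneg_left ?_ (by positivity)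
          nlinarith [sq_nonneg (a i - a (i + v))]
      _ = M.K / 2 * M.J v * ((∑ i ∈ A.filter (fun i => i + v ∈ A), a i ^ 2 +
            ∑ i ∈ A.filter (fun i => i + v ∈ A), a (i + v) ^ 2) / 2) := by
          rw [← mul_sum, ← sum_div, sum_add_distrib]
      _ ≤ M.K / 2 * M.J v * ∑ i ∈ A, a i ^ 2 := by
          refine mul_le_mul_of_nonneg_left ?_ (by positivity)
          linarith
      _ = _ := by ring
  have h7 : ∑ v ∈ M.S.erase 0, ∑ i ∈ A.filter (fun i => i + v ∈ A),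
      M.K / 2 * M.J v * a i * a (i + v) ≤ (M.tot - M.J 0) * (M.K / 2 * ∑ i ∈ A, a i ^ 2) := by
    refine (sum_le_sum fun v _ => h3 v).trans (le_of_eq ?_)
    rw [← sum_mul]
    congr 1
    have h8 := add_sum_erase M.S M.J M.zero_S
    unfold Md.tot
    linarith
  have h8 : ∑ i ∈ A, (μ * a i + M.K / 2 * M.J 0 * a i * a i) = μ * ∑ i ∈ A, a i +
      M.J 0 * (M.K / 2 * ∑ i ∈ A, a i ^ 2) := by
    rw [sum_add_distrib, mul_sum, mul_sum, mul_sum]
    congr 1
    exact sum_congr rfl fun i _ => by ring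
  have h9 : ∑ i ∈ A, (μ * M.n (ω i) + M.K / 2 * M.tot * (M.n (ω i) : ℝ) ^ 2) =
      μ * ∑ i ∈ A, a i + M.K / 2 * M.tot * ∑ i ∈ A, a i ^ 2 := by
    rw [ha, sum_add_distrib, mul_sum, mul_sum]
  rw [h8, h9]
  calc _ ≤ μ * ∑ i ∈ A, a i + M.J 0 * (M.K / 2 * ∑ i ∈ A, a i ^ 2) +
        (M.tot - M.J 0) * (M.K / 2 * ∑ i ∈ A, a i ^ 2) := by linarith
    _ = _ := by ring

theorem int_one_le (A : Finset (Zd d)) : M.int A (fun _ => 1) ≤ ex (M.b * A.card) := by
  classical
  have := fin_π M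
  unfold Md.int lmarginal
  rw [lintegral_const, one_mul, Measure.pi_univ, prod_const, card_univ, Fintype.card_coe]
  calc M.π Set.univ ^ A.card ≤ ex M.b ^ A.card := pow_le_pow_left' M.π_univ _
    _ = _ := by rw [ex_pow, mul_comm]

namespace Pres

/-! ### Marginals -/

theorem int_mono (A : Finset (Zd d)) {f g : (Zd d → E) → ENNReal} (h : ∀ x, f x ≤ g x) :
    M.int A f ≤ M.int A g :=
  lintegral_mono fun _ => h _

theorem int_const_mul (A : Finset (Zd d)) {f : (Zd d → E) → ENNReal}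
    (hf : Measurable f) (C : ENNReal) : M.int A (fun ω => C * f ω) = C * M.int A f :=
  lintegral_const_mul C (hf.comp measurable_updateFinset)

/-- Lower bound of a marginal by the empty contents. -/
theorem le_lm (s : Finset (Zd d)) {f : (Zd d → E) → ENNReal}
    (hf : Measurable f) (x : Zd d → E) :
    f (fun i => if i ∈ s then M.e0 else x i) ≤ lmarginal (fun _ : Zd d => M.π) s f x := by
  have := fin_π M
  have h := mul_meas_ge_le_lintegral (μ := Measure.pi fun _ : s => M.π)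
    (hf.comp (measurable_updateFinset (x := x) (s := s)))
    (f (fun i => if i ∈ s then M.e0 else x i))
  refine le_trans ?_ h
  have h1 : ({fun _ => M.e0} : Set (s → E)) ⊆ {y | f (fun i => if i ∈ s then M.e0 else x i) ≤
      (f ∘ Function.updateFinset x s) y} := by
    intro y hy
    rw [Set.mem_singleton_iff] at hy
    subst hy
    show f _ ≤ f _
    refine le_of_eq ?_
    congr 1
  have h2 : (1 : ENNReal) ≤ (Measure.pi fun _ : s => M.π)
      {y | f (fun i => if i ∈ s then M.e0 else x i) ≤ (f ∘ Function.updateFinset x s) y} := by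
    refine le_trans ?_ (measure_mono h1)
    rw [← Set.univ_pi_singleton, Measure.pi_pi]
    simp [M.π_e0]
  calc _ = f (fun i => if i ∈ s then M.e0 else x i) * 1 := (mul_one _).symm
    _ ≤ _ := mul_le_mul' le_rfl h2

theorem w_dep (μ : ℝ) (B : Finset (Zd d)) (x y : Zd d → E) (h : ∀ i ∈ B, x i = y i) :
    M.w μ B x = M.w μ B y := by
  unfold Md.w
  congr 1
  · exact prod_congr rfl fun i hi => by rw [h i hi]
  · refine prod_congr rfl fun v _ => prod_congr rfl fun i hi => ?_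
    rw [mem_filter] at hi
    rw [h i hi.1, h _ hi.2]

theorem lm_const {f : (Zd d → E) → ENNReal} {J : Finset (Zd d)}
    (hf : ∀ x y : Zd d → E, (∀ i ∈ J, x i = y i) → f x = f y) (x y : Zd d → E) :
    lmarginal (fun _ : Zd d => M.π) J f x = lmarginal (fun _ : Zd d => M.π) J f y := by
  unfold lmarginal
  refine lintegral_congr fun z => hf _ _ fun i hi => ?_
  rw [Function.updateFinset_def, Function.updateFinset_def]
  simp [hi]

/-- Factorisation. -/
theorem int_mul {A B : Finset (Zd d)} (hAB : Disjoint A B) {f g : (Zd d → E) → ENNReal}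
    (hf : Measurable f) (hg : Measurable g) (df : ∀ x y, (∀ i ∈ A, x i = y i) → f x = f y)
    (dg : ∀ x y, (∀ i ∈ B, x i = y i) → g x = g y) :
    M.int (A ∪ B) (fun ω => f ω * g ω) = M.int A f * M.int B g := by
  classical
  have := fin_π M
  unfold Md.int
  rw [lmarginal_union _ (fun ω => f ω * g ω) (hf.mul hg) hAB]
  have e1 : lmarginal (fun _ : Zd d => M.π) B (fun ω => f ω * g ω) = fun x =>
      lmarginal (fun _ : Zd d => M.π) B g (fun _ => M.e0) * f x := by
    funext x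
    rw [← lm_const M dg x (fun _ => M.e0), mul_comm]
    refine Eq.trans ?_ (lintegral_const_mul (f x)
      (hg.comp (measurable_updateFinset (x := x) (s := B))))
    refine lintegral_congr fun z => ?_
    show f _ * g _ = f x * g _
    congr 1
    refine df _ _ fun i hi => ?_
    rw [Function.updateFinset_def]
    simp [disjoint_left.1 hAB hi]
  rw [e1]
  have h := int_const_mul M A hf (lmarginal (fun _ : Zd d => M.π) B g (fun _ => M.e0))
  unfold Md.int at h
  rw [h, mul_comm]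

end Pres

theorem one_le_xi (μ : ℝ) (A : Finset (Zd d)) : 1 ≤ M.xi μ A := by
  refine le_trans ?_ (le_lm M A (measurable_w M μ A) _)
  unfold Md.w
  simp [M.n_e0, M.h_e0, M.g_e0, ex_zero]

namespace Pres

theorem xi_le_of (μ : ℝ) (A : Finset (Zd d)) (c : ℝ) (h : ∀ ω, M.w μ A ω ≤ ex c) :
    M.xi μ A ≤ ex (c + M.b * A.card) := by
  rw [ex_add]
  calc M.xi μ A ≤ M.int A (fun _ => ex c * 1) := int_mono M A fun ω => by rw [mul_one]; exact h ω
    _ = ex c * M.int A (fun _ => 1) := int_const_mul M A measurable_const _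
    _ ≤ _ := mul_le_mul' le_rfl (int_one_le M A)

theorem xi_le (μ : ℝ) (A : Finset (Zd d)) :
    M.xi μ A ≤ ex ((|μ| * M.N + M.K / 2 * M.tot * (M.N : ℝ) ^ 2 + M.b) * A.card) := by
  have h := xi_le_of M μ A ((|μ| * M.N + M.K / 2 * M.tot * (M.N : ℝ) ^ 2) * A.card) fun ω => by
    refine (w_upper M μ A ω).trans (ex_le_ex.2 ?_)
    have hK := M.hK.le
    have htot := M.tot_nonneg
    calc _ ≤ ∑ _i ∈ A, (|μ| * M.N + M.K / 2 * M.tot * (M.N : ℝ) ^ 2) := by
          refine sum_le_sum fun i _ => ?_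
          have h1 : (M.n (ω i) : ℝ) ≤ M.N := by exact_mod_cast M.n_le (ω i)
          have h0 : (0 : ℝ) ≤ M.n (ω i) := Nat.cast_nonneg _
          refine add_le_add ?_ (mul_le_mul_of_nonneg_left (pow_le_pow_left₀ h0 h1 2)
            (by positivity))
          calc μ * M.n (ω i) ≤ |μ| * M.n (ω i) := mul_le_mul_of_nonneg_right (le_abs_self μ) h0
            _ ≤ |μ| * M.N := mul_le_mul_of_nonneg_left h1 (abs_nonneg μ)
      _ = _ := by rw [sum_const, nsmul_eq_mul, mul_comm]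
  refine h.trans (le_of_eq ?_)
  congr 1
  ring

end Pres

theorem xi_ne_top (μ : ℝ) (A : Finset (Zd d)) : M.xi μ A ≠ ⊤ :=
  ne_top_of_le_ne_top (ex_ne_top _) (xi_le M μ A)

namespace Pres

/-! ### Monotonicity, superadditivity, translations -/

theorem xi_mono (μ : ℝ) {A B : Finset (Zd d)} (h : A ⊆ B) : M.xi μ A ≤ M.xi μ B := by
  classical
  have := fin_π M
  have e1 : M.xi μ B = lmarginal (fun _ : Zd d => M.π) A
      (lmarginal (fun _ : Zd d => M.π) (B \ A) (M.w μ B)) (fun _ => M.e0) := by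
    unfold Md.xi Md.int
    rw [← lmarginal_union _ _ (measurable_w M μ B) disjoint_sdiff, union_sdiff_of_subset h]
  rw [e1]
  refine int_mono M A fun ω => ?_
  refine le_trans ?_ (le_lm M (B \ A) (measurable_w M μ B) ω)
  set ω' : Zd d → E := fun i => if i ∈ B \ A then M.e0 else ω i with hω'
  have hω1 : ∀ i ∈ A, ω' i = ω i := fun i hi => by simp [hω', hi]
  have hω2 : ∀ i ∈ B, i ∉ A → ω' i = M.e0 := fun i hi hA => by simp [hω', hi, hA]
  rw [← w_dep M μ A _ _ hω1]
  unfold Md.w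
  refine mul_le_mul' (prod_le_of_subset h fun i hi hA => ?_)
    (prod_mono fun v hv => prod_le_of_subset (fun i hi => ?_) fun i hi hA => ?_)
  · rw [hω2 i hi hA, M.n_e0, M.h_e0]
    simp [ex_zero]
  · rw [mem_filter] at hi ⊢
    exact ⟨h hi.1, h hi.2⟩
  · rw [mem_filter] at hi hA
    by_cases h1 : i ∈ A
    · have h2 : i + v ∉ A := fun h3 => hA ⟨h1, h3⟩
      rw [hω2 _ hi.2 h2, g_e0_right]
    · rw [hω2 _ hi.1 h1, M.g_e0]

theorem xi_union (μ : ℝ) {A B : Finset (Zd d)} (hAB : Disjoint A B)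
    (hs : ∀ i ∈ A, ∀ j ∈ B, j - i ∉ Nb 0) : M.xi μ A * M.xi μ B ≤ M.xi μ (A ∪ B) := by
  classical
  unfold Md.xi
  rw [← int_mul M hAB (measurable_w M μ A) (measurable_w M μ B) (w_dep M μ A) (w_dep M μ B)]
  refine int_mono M _ fun ω => ?_
  unfold Md.w
  rw [prod_union hAB]
  have h1 : (∏ v ∈ M.S.erase 0, ∏ i ∈ A.filter (fun i => i + v ∈ A), M.g v (ω i) (ω (i + v))) *
      (∏ v ∈ M.S.erase 0, ∏ i ∈ B.filter (fun i => i + v ∈ B), M.g v (ω i) (ω (i + v))) ≤
      ∏ v ∈ M.S.erase 0, ∏ i ∈ (A ∪ B).filter (fun i => i + v ∈ A ∪ B),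
        M.g v (ω i) (ω (i + v)) := by
    rw [← prod_mul_distrib]
    refine prod_mono fun v hv => ?_
    have hv0 := (mem_erase.1 hv).1
    have hd : Disjoint (A.filter fun i => i + v ∈ A) (B.filter fun i => i + v ∈ B) :=
      disjoint_filter_filter hAB
    rw [← prod_union hd]
    refine prod_le_of_subset (fun i hi => ?_) fun i hi hn => ?_
    · rw [mem_union, mem_filter, mem_filter] at hi
      rw [mem_filter, mem_union, mem_union]
      rcases hi with hi | hi
      · exact ⟨Or.inl hi.1, Or.inl hi.2⟩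
      · exact ⟨Or.inr hi.1, Or.inr hi.2⟩
    · rw [mem_union, mem_filter, mem_filter] at hn
      rw [mem_filter, mem_union, mem_union] at hi
      refine M.one_le_g v _ _ hv0 (Or.inl ?_)
      rcases hi with ⟨hi | hi, hj | hj⟩
      · exact absurd (Or.inl ⟨hi, hj⟩) hn
      · have := hs i hi _ hj
        rwa [add_sub_cancel_left] at this
      · have := hs _ hj i hi
        rw [sub_add_cancel_left, Nb_neg] at this
        exact this
      · exact absurd (Or.inr ⟨hi, hj⟩) hn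
  calc _ = ((∏ i ∈ A, ex (μ * M.n (ω i)) * M.h (ω i)) *
        ∏ i ∈ B, ex (μ * M.n (ω i)) * M.h (ω i)) *
        ((∏ v ∈ M.S.erase 0, ∏ i ∈ A.filter (fun i => i + v ∈ A), M.g v (ω i) (ω (i + v))) *
        ∏ v ∈ M.S.erase 0, ∏ i ∈ B.filter (fun i => i + v ∈ B), M.g v (ω i) (ω (i + v))) := by
        ring
    _ ≤ _ := mul_le_mul' le_rfl h1

theorem w_shift (μ : ℝ) (A : Finset (Zd d)) (t : Zd d) (ω : Zd d → E) :
    M.w μ (A.image fun i => i + t) ω = M.w μ A fun i => ω (i + t) := by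
  classical
  have hinj : Function.Injective fun i : Zd d => i + t := add_left_injective t
  unfold Md.w
  congr 1
  · rw [prod_image fun i _ j _ h => hinj h]
  · refine prod_congr rfl fun v _ => ?_
    have e1 : (A.image fun i => i + t).filter (fun i => i + v ∈ A.image fun i => i + t) =
        (A.filter fun i => i + v ∈ A).image fun i => i + t := by
      ext j
      simp only [mem_filter, mem_image]
      constructor
      · rintro ⟨⟨i, hi, rfl⟩, k, hk, h⟩
        refine ⟨i, ⟨hi, ?_⟩, rfl⟩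
        have : k = i + v := by
          have h1 : k + t = (i + v) + t := by rw [h]; abel
          exact add_right_cancel h1
        rwa [← this]
      · rintro ⟨i, ⟨hi, hv⟩, rfl⟩
        exact ⟨⟨i, hi, rfl⟩, i + v, hv, by abel⟩
    rw [e1, prod_image fun i _ j _ h => hinj h]
    refine prod_congr rfl fun i _ => ?_
    have : i + t + v = i + v + t := by abel
    rw [this]

theorem xi_shift (μ : ℝ) (A : Finset (Zd d)) (t : Zd d) :
    M.xi μ (A.image fun i => i + t) = M.xi μ A := by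
  classical
  have := fin_π M
  have hinj : Function.Injective fun i : Zd d => i + t := add_left_injective t
  have h := lmarginal_image (μ := fun _ : Zd d => M.π) (X := fun _ => E) hinj A
    (measurable_w M μ A) (fun _ => M.e0)
  unfold Md.xi Md.int
  refine Eq.trans ?_ h
  congr 1
  funext ω
  exact w_shift M μ A t ω

theorem xi_biUnion (μ : ℝ) {ι : Type} [DecidableEq ι] (T : Finset ι) (B : ι → Finset (Zd d))
    (hs : ∀ u ∈ T, ∀ u' ∈ T, u ≠ u' → ∀ i ∈ B u, ∀ j ∈ B u', j - i ∉ Nb 0) :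
    ∏ u ∈ T, M.xi μ (B u) ≤ M.xi μ (T.biUnion B) := by
  classical
  induction T using Finset.induction_on with
  | empty => rw [prod_empty]; exact one_le_xi M μ _
  | insert a T ha ih =>
    rw [prod_insert ha, biUnion_insert]
    refine (mul_le_mul' le_rfl (ih fun u hu u' hu' => hs u (mem_insert_of_mem hu) u'
      (mem_insert_of_mem hu'))).trans ?_
    have hsep : ∀ i ∈ B a, ∀ j ∈ T.biUnion B, j - i ∉ Nb 0 := by
      intro i hi j hj
      obtain ⟨u, hu, hju⟩ := mem_biUnion.1 hj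
      exact hs a (mem_insert_self a T) u (mem_insert_of_mem hu) (fun h => ha (h ▸ hu)) i hi j hju
    refine xi_union M μ ?_ hsep
    rw [disjoint_left]
    intro i hi hj
    refine hsep i hi i hj ?_
    rw [sub_self, mem_Nb]
    intro k
    simp

theorem xi_box (μ : ℝ) (k L : ℕ) :
    M.xi μ (bx d L) ^ (k ^ d) ≤ M.xi μ (bx d (k * (L + 1))) := by
  classical
  set B : Zd d → Finset (Zd d) := fun u => (bx d L).image fun i => i + ((L : ℤ) + 1) • u with hB
  have hmem : ∀ u i, i ∈ B u → ∀ q, (L + 1) * u q ≤ i q ∧ i q < (L + 1) * u q + L := by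
    intro u i hi q
    obtain ⟨j, hj, rfl⟩ := mem_image.1 hi
    have := mem_bx.1 hj q
    simp only [Pi.add_apply, Pi.smul_apply, smul_eq_mul]
    constructor <;> linarith [this.1, this.2]
  have h1 := xi_biUnion M μ (bx d k) B (by
    intro u _ u' _ huu i hi j hj hij
    apply huu
    funext q
    have h2 := hmem u i hi q
    have h3 := hmem u' j hj q
    have h4 := mem_Nb.1 hij q
    simp only [Pi.zero_apply, Pi.sub_apply] at h4
    rcases lt_trichotomy (u q) (u' q) with h | h | h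
    · exfalso
      nlinarith
    · exact h
    · exfalso
      nlinarith)
  have h2 : ∏ u ∈ bx d k, M.xi μ (B u) = M.xi μ (bx d L) ^ (k ^ d) := by
    rw [prod_congr rfl fun u _ => xi_shift M μ (bx d L) (((L : ℤ) + 1) • u), prod_const, card_bx]
  rw [← h2]
  refine h1.trans (xi_mono M μ ?_)
  intro i hi
  obtain ⟨u, hu, hiu⟩ := mem_biUnion.1 hi
  rw [mem_bx] at hu ⊢
  intro q
  have h3 := hmem u i hiu q
  have h4 := hu q
  push_cast
  constructor
  · nlinarith
  · nlinarith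

/-! ### The logarithm -/

theorem xi_pos (μ : ℝ) (A : Finset (Zd d)) : 0 < (M.xi μ A).toReal :=
  ENNReal.toReal_pos (lt_of_lt_of_le one_pos (one_le_xi M μ A)).ne' (xi_ne_top M μ A)

theorem log_xi_nonneg (μ : ℝ) (A : Finset (Zd d)) : 0 ≤ Real.log (M.xi μ A).toReal := by
  refine Real.log_nonneg ?_
  have h := ENNReal.toReal_mono (xi_ne_top M μ A) (one_le_xi M μ A)
  simpa using h

theorem log_xi_le (μ : ℝ) (A : Finset (Zd d)) {c : ℝ} (h : M.xi μ A ≤ ex c) :
    Real.log (M.xi μ A).toReal ≤ c := by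
  have h1 := ENNReal.toReal_mono (ex_ne_top c) h
  rw [ex_toReal] at h1
  have h2 := Real.log_le_log (xi_pos M μ A) h1
  rwa [Real.log_exp] at h2

theorem le_log_xi (μ : ℝ) (A : Finset (Zd d)) {c : ℝ} (h : ex c ≤ M.xi μ A) :
    c ≤ Real.log (M.xi μ A).toReal := by
  have h1 := ENNReal.toReal_mono (xi_ne_top M μ A) h
  rw [ex_toReal] at h1
  have h2 := Real.log_le_log (Real.exp_pos c) h1
  rwa [Real.log_exp] at h2

/-- Existence of the limit. -/
theorem lim_exists (hd : 1 ≤ d) (a : ℕ → ℝ) (h0 : ∀ L, 0 ≤ a L) (hm : ∀ L L', L ≤ L' → a L ≤ a L')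
    (hs : ∀ k L : ℕ, (k : ℝ) ^ d * a L ≤ a (k * (L + 1))) (C : ℝ)
    (hC : ∀ L : ℕ, a L ≤ C * (L : ℝ) ^ d) :
    ∃ s, Tendsto (fun L : ℕ => a L / (L : ℝ) ^ d) atTop (𝓝 s) := by
  have hC0 : 0 ≤ C := by
    have h1 := (h0 1).trans (hC 1)
    simpa using h1
  have hbd : BddAbove (Set.range fun L : ℕ => a L / ((L : ℝ) + 1) ^ d) := by
    refine ⟨C, ?_⟩
    rintro _ ⟨L, rfl⟩
    show a L / ((L : ℝ) + 1) ^ d ≤ C
    rw [div_le_iff₀ (by positivity)]
    refine (hC L).trans (mul_le_mul_of_nonneg_left ?_ hC0)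
    exact pow_le_pow_left₀ (Nat.cast_nonneg L) (by linarith) d
  refine ⟨⨆ L : ℕ, a L / ((L : ℝ) + 1) ^ d, ?_⟩
  obtain ⟨s, hs'⟩ : ∃ s, s = ⨆ L : ℕ, a L / ((L : ℝ) + 1) ^ d := ⟨_, rfl⟩
  rw [← hs']
  rw [Metric.tendsto_nhds]
  intro ε hε
  have hup : ∀ᶠ L : ℕ in atTop, a L / (L : ℝ) ^ d < s + ε := by
    have h1 := (ConfinedGas.tendsto_succ d).const_mul s
    rw [mul_one] at h1
    filter_upwards [h1.eventually (gt_mem_nhds (show s < s + ε by linarith)),
      eventually_ge_atTop 1] with L hL hL1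
    have hL' : (0 : ℝ) < L := by exact_mod_cast hL1
    refine lt_of_le_of_lt ?_ hL
    have h2 : a L / ((L : ℝ) + 1) ^ d ≤ s := by rw [hs']; exact le_ciSup hbd L
    rw [← mul_div_assoc]
    refine div_le_div_of_nonneg_right ?_ (by positivity)
    rwa [div_le_iff₀ (by positivity)] at h2
  have hlow : ∀ᶠ L : ℕ in atTop, s - ε < a L / (L : ℝ) ^ d := by
    obtain ⟨L0, hL0⟩ : ∃ L0 : ℕ, s - ε < a L0 / ((L0 : ℝ) + 1) ^ d := by
      rw [hs']
      exact exists_lt_of_lt_ciSup (by rw [← hs']; linarith)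
    have h1 := (ConfinedGas.tendsto_cells hd (L0 + 1) (by omega)).mul_const
      (a L0 / ((L0 : ℝ) + 1) ^ d)
    rw [one_mul] at h1
    filter_upwards [h1.eventually (lt_mem_nhds hL0), eventually_ge_atTop 1] with L hL hL1
    have hL' : (0 : ℝ) < L := by exact_mod_cast hL1
    refine lt_of_lt_of_le hL ?_
    have h2 : ((L / (L0 + 1) : ℕ) : ℝ) ^ d * a L0 ≤ a L :=
      (hs (L / (L0 + 1)) L0).trans (hm _ _ (Nat.div_mul_le_self L (L0 + 1)))
    have h3 : ((((L / (L0 + 1) : ℕ) : ℝ) ^ d - 1) * ((L0 + 1 : ℕ) : ℝ) ^ d) / (L : ℝ) ^ d *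
        (a L0 / ((L0 : ℝ) + 1) ^ d) = (((L / (L0 + 1) : ℕ) : ℝ) ^ d - 1) * a L0 / (L : ℝ) ^ d := by
      push_cast
      have : ((L0 : ℝ) + 1) ^ d ≠ 0 := by positivity
      field_simp
    rw [h3]
    refine div_le_div_of_nonneg_right ?_ (by positivity)
    have := h0 L0
    linarith
  filter_upwards [hup, hlow] with L h1 h2
  rw [Real.dist_eq, abs_lt]
  constructor <;> linarith

end Pres

theorem exists_p (hd : 1 ≤ d) : ∃ p, M.IsP p := by
  have h : ∀ μ : ℝ, ∃ s, Tendsto (fun L : ℕ => Real.log (M.xi μ (bx d L)).toReal / (L : ℝ) ^ d)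
      atTop (𝓝 s) := by
    intro μ
    refine lim_exists hd _ (fun L => log_xi_nonneg M μ _) (fun L L' hL => ?_) (fun k L => ?_)
      (|μ| * M.N + M.K / 2 * M.tot * (M.N : ℝ) ^ 2 + M.b) (fun L => ?_)
    · refine Real.log_le_log (xi_pos M μ _) (ENNReal.toReal_mono (xi_ne_top M μ _)
        (xi_mono M μ fun i hi => ?_))
      rw [mem_bx] at hi ⊢
      intro k
      have := hi k
      constructor <;> omega
    · have h1 := ENNReal.toReal_mono (xi_ne_top M μ _) (xi_box M μ k L)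
      rw [ENNReal.toReal_pow] at h1
      have h2 := Real.log_le_log (pow_pos (xi_pos M μ _) _) h1
      rw [Real.log_pow] at h2
      push_cast at h2
      exact h2
    · have h1 := log_xi_le M μ _ (xi_le M μ (bx d L))
      rw [card_bx] at h1
      push_cast at h1
      exact h1
  choose p hp using h
  exact ⟨p, hp⟩

namespace Pres

theorem w_eq (μ : ℝ) (A : Finset (Zd d)) (ω : Zd d → E) :
    M.w μ A ω = ex (μ * ∑ i ∈ A, (M.n (ω i) : ℝ)) * M.w 0 A ω := by
  unfold Md.w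
  rw [prod_mul_distrib, prod_mul_distrib, prod_ex, prod_ex, ← mul_sum]
  simp only [zero_mul, sum_const_zero, ex_zero, one_mul]
  rw [mul_assoc]

theorem xi_convex (A : Finset (Zd d)) :
    ConvexOn ℝ Set.univ fun μ => Real.log (M.xi μ A).toReal := by
  refine ⟨convex_univ, fun x _ y _ a b ha hb hab => ?_⟩
  simp only [smul_eq_mul]
  have hm := fun μ => (measurable_w M μ A).comp
    (measurable_updateFinset (x := fun _ => M.e0) (s := A))
  have key : M.xi (a * x + b * y) A ≤ M.xi x A ^ a * M.xi y A ^ b := by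
    have h := ENNReal.lintegral_mul_norm_pow_le (μ := Measure.pi fun _ : A => M.π)
      (hm x).aemeasurable (hm y).aemeasurable ha hb hab
    refine le_trans (le_of_eq ?_) h
    unfold Md.xi Md.int lmarginal
    refine lintegral_congr fun z => ?_
    show M.w (a * x + b * y) A _ = M.w x A _ ^ a * M.w y A _ ^ b
    rw [w_eq M (a * x + b * y), w_eq M x, w_eq M y, ENNReal.mul_rpow_of_nonneg _ _ ha,
      ENNReal.mul_rpow_of_nonneg _ _ hb, ex_rpow, ex_rpow]
    have h3 : ∀ c : ENNReal, c ^ a * c ^ b = c := fun c => by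
      rw [← ENNReal.rpow_add_of_nonneg _ _ ha hb, hab, ENNReal.rpow_one]
    rw [mul_mul_mul_comm, h3, ← ex_add]
    congr 2
    ring
  have hx0 := xi_pos M x A
  have hy0 := xi_pos M y A
  have h1 : (M.xi (a * x + b * y) A).toReal ≤ (M.xi x A).toReal ^ a * (M.xi y A).toReal ^ b := by
    have h2 := ENNReal.toReal_mono (ENNReal.mul_ne_top
      (ENNReal.rpow_ne_top_of_nonneg ha (xi_ne_top M x A))
      (ENNReal.rpow_ne_top_of_nonneg hb (xi_ne_top M y A))) key
    rwa [ENNReal.toReal_mul, ← ENNReal.toReal_rpow, ← ENNReal.toReal_rpow] at h2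
  calc Real.log (M.xi (a * x + b * y) A).toReal
      ≤ Real.log ((M.xi x A).toReal ^ a * (M.xi y A).toReal ^ b) :=
        Real.log_le_log (xi_pos M _ A) h1
    _ = _ := by
      rw [Real.log_mul (Real.rpow_pos_of_pos hx0 a).ne' (Real.rpow_pos_of_pos hy0 b).ne',
        Real.log_rpow hx0, Real.log_rpow hy0]

/-- The boundary of a large box is small. -/
theorem cut_bx (n : ℕ) (hn : 2 * M.r ≤ n) :
    cut M.S M.J (bx d n) ≤ M.S.card * ((n : ℝ) ^ d - ((n : ℝ) - 2 * M.r) ^ d) := by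
  classical
  have h1 : ∀ v ∈ M.S, (((bx d n).filter fun i => i + v ∉ bx d n).card : ℝ) ≤
      (n : ℝ) ^ d - ((n : ℝ) - 2 * M.r) ^ d := by
    intro v hv
    set C : Finset (Zd d) := Fintype.piFinset fun _ => Finset.Ico (M.r : ℤ) ((n : ℤ) - M.r) with hC
    have hCB : C ⊆ bx d n := by
      intro i hi
      rw [hC, Fintype.mem_piFinset] at hi
      rw [mem_bx]
      intro k
      have := Finset.mem_Ico.1 (hi k)
      constructor <;> omega
    have hsub : (bx d n).filter (fun i => i + v ∉ bx d n) ⊆ bx d n \ C := by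
      intro i hi
      rw [mem_filter] at hi
      refine Finset.mem_sdiff.2 ⟨hi.1, fun hiC => hi.2 ?_⟩
      rw [mem_bx]
      intro k
      rw [hC, Fintype.mem_piFinset] at hiC
      have h2 := Finset.mem_Ico.1 (hiC k)
      have h3 := abs_le.1 (M.S_r v hv k)
      simp only [Pi.add_apply]
      constructor <;> omega
    have hcard : (C.card : ℝ) = ((n : ℝ) - 2 * M.r) ^ d := by
      rw [hC, Fintype.card_piFinset]
      simp only [Int.card_Ico, prod_const, card_univ, Fintype.card_fin]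
      push_cast
      congr 1
      have h4 : ((((n : ℤ) - M.r - M.r).toNat : ℤ) : ℝ) = (((n : ℤ) - M.r - M.r : ℤ) : ℝ) := by
        rw [Int.toNat_of_nonneg (by omega)]
      rw [Int.cast_natCast] at h4
      rw [h4]
      push_cast
      ring
    calc (((bx d n).filter fun i => i + v ∉ bx d n).card : ℝ) ≤ ((bx d n \ C).card : ℝ) := by
          exact_mod_cast card_le_card hsub
      _ = (bx d n).card - C.card := by
          rw [card_sdiff_of_subset hCB, Nat.cast_sub (card_le_card hCB)]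
      _ = _ := by rw [hcard, card_bx]; push_cast; ring
  unfold cut
  calc _ ≤ ∑ v ∈ M.S, ((n : ℝ) ^ d - ((n : ℝ) - 2 * M.r) ^ d) := sum_le_sum fun v hv => by
        calc M.J v * (((bx d n).filter fun i => i + v ∉ bx d n).card : ℝ)
            ≤ 1 * (((bx d n).filter fun i => i + v ∉ bx d n).card : ℝ) :=
              mul_le_mul_of_nonneg_right (M.J_le_one v) (Nat.cast_nonneg _)
          _ ≤ _ := by rw [one_mul]; exact h1 v hv
    _ = _ := by rw [sum_const, nsmul_eq_mul]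

/-- Lower bound of the weight of a configuration with good contents. -/
theorem le_w (μ : ℝ) (A : Finset (Zd d)) (ω : Zd d → E) (Nst : ℕ)
    (h : ∀ i ∈ A, M.c (ω i) = ω i ∧ M.n (ω i) = Nst) :
    ex (A.card * (μ * Nst + M.K / 2 * M.totm * (Nst : ℝ) ^ 2) -
      M.K / 2 * (Nst : ℝ) ^ 2 * cut M.S M.J A) ≤ M.w μ A ω := by
  classical
  have hK := M.hK.le
  have h1 : ex (∑ _i ∈ A, μ * Nst) ≤ ∏ i ∈ A, ex (μ * M.n (ω i)) * M.h (ω i) := by
    rw [← prod_ex]
    refine prod_mono fun i hi => ?_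
    rw [(h i hi).2]
    calc ex (μ * Nst) = ex (μ * Nst) * 1 := (mul_one _).symm
      _ ≤ _ := mul_le_mul' le_rfl (M.one_le_h _)
  have h2 : ex (∑ v ∈ M.S.erase 0, ∑ _i ∈ A.filter (fun i => i + v ∈ A),
      M.K / 2 * M.Jm v * Nst * Nst) ≤
      ∏ v ∈ M.S.erase 0, ∏ i ∈ A.filter (fun i => i + v ∈ A), M.g v (ω i) (ω (i + v)) := by
    rw [← prod_ex]
    refine prod_mono fun v hv => ?_
    rw [← prod_ex]
    refine prod_mono fun i hi => ?_
    rw [mem_filter] at hi
    have h3 := M.g_lo v (ω i) (ω (i + v)) (mem_erase.1 hv).1 (Or.inr (Or.inl (h i hi.1).1))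
    rwa [(h i hi.1).2, (h _ hi.2).2] at h3
  unfold Md.w
  refine le_trans ?_ (mul_le_mul' h1 h2)
  rw [← ex_add, ex_le_ex]
  have h4 : ∀ v : Zd d, ((A.filter fun i => i + v ∈ A).card : ℝ) =
      A.card - ((A.filter fun i => i + v ∉ A).card : ℝ) := by
    intro v
    have := card_filter_add_card_filter_not (s := A) (fun i => i + v ∈ A)
    have h5 : ((A.filter fun i => i + v ∈ A).card : ℝ) + ((A.filter fun i => i + v ∉ A).card : ℝ) =
        A.card := by exact_mod_cast this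
    linarith
  have h6 : ∑ v ∈ M.S.erase 0, ∑ _i ∈ A.filter (fun i => i + v ∈ A),
      M.K / 2 * M.Jm v * (Nst : ℝ) * Nst =
      M.K / 2 * (Nst : ℝ) ^ 2 * (M.totm * A.card -
        ∑ v ∈ M.S, M.Jm v * ((A.filter fun i => i + v ∉ A).card : ℝ)) := by
    have h7 : ∀ v ∈ M.S, ∑ _i ∈ A.filter (fun i => i + v ∈ A), M.K / 2 * M.Jm v * (Nst : ℝ) * Nst =
        M.K / 2 * (Nst : ℝ) ^ 2 * (M.Jm v * A.card -
          M.Jm v * ((A.filter fun i => i + v ∉ A).card : ℝ)) := by
      intro v _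
      rw [sum_const, nsmul_eq_mul, h4]
      ring
    have h7' : ∑ v ∈ M.S.erase 0, ∑ _i ∈ A.filter (fun i => i + v ∈ A),
        M.K / 2 * M.Jm v * (Nst : ℝ) * Nst = ∑ v ∈ M.S, ∑ _i ∈ A.filter (fun i => i + v ∈ A),
        M.K / 2 * M.Jm v * (Nst : ℝ) * Nst := by
      refine sum_subset (erase_subset _ _) fun v hv hv0 => ?_
      have : v = 0 := by
        by_contra h0
        exact hv0 (mem_erase.2 ⟨h0, hv⟩)
      rw [this, M.Jm_zero]
      simp
    rw [h7', sum_congr rfl h7, ← mul_sum, sum_sub_distrib, ← sum_mul]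
    rfl
  have h8 : ∑ v ∈ M.S, M.Jm v * ((A.filter fun i => i + v ∉ A).card : ℝ) ≤ cut M.S M.J A := by
    unfold cut
    exact sum_le_sum fun v _ => mul_le_mul_of_nonneg_right (M.Jm_le v) (Nat.cast_nonneg _)
  rw [h6, sum_const, nsmul_eq_mul]
  have h9 : M.K / 2 * (Nst : ℝ) ^ 2 * ∑ v ∈ M.S,
      M.Jm v * ((A.filter fun i => i + v ∉ A).card : ℝ) ≤
      M.K / 2 * (Nst : ℝ) ^ 2 * cut M.S M.J A := mul_le_mul_of_nonneg_left h8 (by positivity)
  calc _ = A.card * (μ * Nst) + M.K / 2 * (Nst : ℝ) ^ 2 * (M.totm * A.card) -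
        M.K / 2 * (Nst : ℝ) ^ 2 * cut M.S M.J A := by ring
    _ ≤ _ := by
      rw [mul_sub]
      linarith

theorem le_xi (μ : ℝ) (A : Finset (Zd d)) (Est : Set E) (Nst : ℕ)
    (Cst : ℝ) (h1 : ∀ x ∈ Est, M.c x = x ∧ M.n x = Nst) (h2 : ex (-Cst) ≤ M.π Est) :
    ex (A.card * (μ * Nst + M.K / 2 * M.totm * (Nst : ℝ) ^ 2 - Cst) -
      M.K / 2 * (Nst : ℝ) ^ 2 * cut M.S M.J A) ≤ M.xi μ A := by
  classical
  have := fin_π M
  obtain ⟨t, ht⟩ : ∃ t, t = A.card * (μ * Nst + M.K / 2 * M.totm * (Nst : ℝ) ^ 2) -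
      M.K / 2 * (Nst : ℝ) ^ 2 * cut M.S M.J A := ⟨_, rfl⟩
  have h := mul_meas_ge_le_lintegral (μ := Measure.pi fun _ : A => M.π)
    ((measurable_w M μ A).comp (measurable_updateFinset (x := fun _ => M.e0) (s := A))) (ex t)
  refine le_trans ?_ h
  have h3 : (Set.univ.pi fun _ : A => Est) ⊆ {y | ex t ≤
      (M.w μ A ∘ Function.updateFinset (fun _ => M.e0) A) y} := by
    intro y hy
    show ex t ≤ M.w μ A (Function.updateFinset (fun _ => M.e0) A y)
    rw [ht]
    refine le_w M μ A _ Nst fun i hi => ?_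
    have h4 : Function.updateFinset (fun _ => M.e0) A y i = y ⟨i, hi⟩ := by
      rw [Function.updateFinset_def]
      simp [hi]
    rw [h4]
    exact h1 _ (hy ⟨i, hi⟩ (Set.mem_univ _))
  have h5 : ex (-Cst) ^ A.card ≤ (Measure.pi fun _ : A => M.π) {y | ex t ≤
      (M.w μ A ∘ Function.updateFinset (fun _ => M.e0) A) y} := by
    refine le_trans ?_ (measure_mono h3)
    rw [Measure.pi_pi, prod_const, card_univ, Fintype.card_coe]
    exact pow_le_pow_left' h2 _
  calc _ = ex t * ex (-Cst) ^ A.card := by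
        rw [ex_pow, ← ex_add, ht]
        congr 1
        ring
    _ ≤ _ := mul_le_mul' le_rfl h5

end Pres

variable {M} {p : ℝ → ℝ}

theorem Md.IsP.convex (hd : 1 ≤ d) (hp : M.IsP p) : ConvexOn ℝ Set.univ p := by
  refine ⟨convex_univ, fun x _ y _ a b ha hb hab => ?_⟩
  have h1 := ((hp x).const_mul a).add ((hp y).const_mul b)
  refine le_of_tendsto_of_tendsto (hp (a • x + b • y)) h1 ?_
  filter_upwards [eventually_ge_atTop 1] with L hL
  have hL' : (0 : ℝ) < L := by exact_mod_cast hL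
  have h2 := (xi_convex M (bx d L)).2 (Set.mem_univ x) (Set.mem_univ y) ha hb hab
  simp only [smul_eq_mul] at h2 ⊢
  have h3 : (0 : ℝ) < (L : ℝ) ^ d := by positivity
  rw [← mul_div_assoc, ← mul_div_assoc, ← add_div]
  exact div_le_div_of_nonneg_right h2 h3.le

theorem Md.IsP.nonneg (hd : 1 ≤ d) (hp : M.IsP p) (μ : ℝ) : 0 ≤ p μ :=
  ge_of_tendsto' (hp μ) fun L => div_nonneg (log_xi_nonneg M μ _) (by positivity)

/-- The pressure at small chemical potential. -/
theorem Md.IsP.le_b (hd : 1 ≤ d) (hp : M.IsP p) {μ : ℝ} (hμ : μ ≤ -(M.K / 2 * M.tot * M.N)) :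
    p μ ≤ M.b := by
  refine le_of_tendsto (hp μ) ?_
  filter_upwards [eventually_ge_atTop 1] with L hL
  have hL' : (0 : ℝ) < L := by exact_mod_cast hL
  have hK := M.hK.le
  have htot := M.tot_nonneg
  rw [div_le_iff₀ (by positivity)]
  have h1 := xi_le_of M μ (bx d L) 0 fun ω => by
    refine (w_upper M μ _ ω).trans (ex_le_ex.2 (sum_nonpos fun i _ => ?_))
    have h2 : (M.n (ω i) : ℝ) ≤ M.N := by exact_mod_cast M.n_le (ω i)
    have h0 : (0 : ℝ) ≤ M.n (ω i) := Nat.cast_nonneg _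
    have h3 : M.K / 2 * M.tot * M.n (ω i) ≤ M.K / 2 * M.tot * M.N :=
      mul_le_mul_of_nonneg_left h2 (by positivity)
    have h4 : μ * M.n (ω i) + M.K / 2 * M.tot * (M.n (ω i) : ℝ) ^ 2 =
        (μ + M.K / 2 * M.tot * M.n (ω i)) * M.n (ω i) := by ring
    rw [h4]
    exact mul_nonpos_of_nonpos_of_nonneg (by linarith) h0
  rw [zero_add, card_bx] at h1
  have h5 := log_xi_le M μ _ h1
  push_cast at h5
  exact h5

/-- Lower bound by a set of good contents. -/
theorem Md.IsP.ge (hd : 1 ≤ d) (hp : M.IsP p) (Est : Set E) (hE : MeasurableSet Est) (Nst : ℕ)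
    (Cst : ℝ) (h1 : ∀ x ∈ Est, M.c x = x ∧ M.n x = Nst) (h2 : ex (-Cst) ≤ M.π Est) (μ : ℝ) :
    μ * Nst + M.K / 2 * M.totm * (Nst : ℝ) ^ 2 - Cst ≤ p μ := by
  have hK := M.hK.le
  have hc : Tendsto (fun L : ℕ => (1 - 2 * M.r / (L : ℝ)) ^ d) atTop (𝓝 1) := by
    have h1 := (tendsto_const_nhds (x := (1 : ℝ))).sub
      ((tendsto_const_nhds (x := (2 * M.r : ℝ))).div_atTop (tendsto_natCast_atTop_atTop (R := ℝ)))
    have h2 := h1.pow d
    simpa using h2
  have hlow : Tendsto (fun L : ℕ => μ * Nst + M.K / 2 * M.totm * (Nst : ℝ) ^ 2 - Cst -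
      M.K / 2 * (Nst : ℝ) ^ 2 * M.S.card * (1 - (1 - 2 * M.r / (L : ℝ)) ^ d)) atTop
      (𝓝 (μ * Nst + M.K / 2 * M.totm * (Nst : ℝ) ^ 2 - Cst)) := by
    have h3 := (((tendsto_const_nhds (x := (1 : ℝ))).sub hc).const_mul
      (M.K / 2 * (Nst : ℝ) ^ 2 * M.S.card)).const_sub
      (μ * Nst + M.K / 2 * M.totm * (Nst : ℝ) ^ 2 - Cst)
    rw [sub_self, mul_zero, sub_zero] at h3
    exact h3
  refine le_of_tendsto_of_tendsto hlow (hp μ) ?_
  filter_upwards [eventually_ge_atTop (2 * M.r), eventually_ge_atTop 1] with L hL hL1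
  have hL' : (0 : ℝ) < L := by exact_mod_cast hL1
  have h3 := le_log_xi M μ _ (le_xi M μ (bx d L) Est Nst Cst h1 h2)
  rw [card_bx] at h3
  push_cast at h3
  have h4 := cut_bx M L hL
  have h5 : M.K / 2 * (Nst : ℝ) ^ 2 * cut M.S M.J (bx d L) ≤ M.K / 2 * (Nst : ℝ) ^ 2 *
      (M.S.card * ((L : ℝ) ^ d - ((L : ℝ) - 2 * M.r) ^ d)) :=
    mul_le_mul_of_nonneg_left h4 (by positivity)
  rw [le_div_iff₀ (by positivity)]
  have e1 : (1 - 2 * M.r / (L : ℝ)) = ((L : ℝ) - 2 * M.r) / L := by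
    field_simp
  rw [e1, div_pow]
  have h6 : (μ * Nst + M.K / 2 * M.totm * (Nst : ℝ) ^ 2 - Cst -
      M.K / 2 * (Nst : ℝ) ^ 2 * M.S.card * (1 - ((L : ℝ) - 2 * M.r) ^ d / (L : ℝ) ^ d)) *
      (L : ℝ) ^ d = (L : ℝ) ^ d * (μ * Nst + M.K / 2 * M.totm * (Nst : ℝ) ^ 2 - Cst) -
      M.K / 2 * (Nst : ℝ) ^ 2 * (M.S.card * ((L : ℝ) ^ d - ((L : ℝ) - 2 * M.r) ^ d)) := by
    field_simp
  rw [h6]
  linarith

end Pool.Agent.Kac
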