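import Pool.Agent.Lib.MP_09cbbd_kc.Can
import Pool.Agent.Lib.MP_09cbbd_kc.Pres
import Pool.Agent.Lib.MP_09cbbd_mp_h27.PsAff

/-!
# From a kink of the pressure to the transition
-/

set_option autoImplicit false

namespace Pool.Agent.Kac

open MeasureTheory Finset Filter Topology Pool.Agent.StableGas Pool.Agent.SquareWellGas
  Pool.Agent.SquareWell Pool.Agent.KacGas

namespace Kink

section Coexist

open Set Pool.Agent.ConfinedGas Pool.Agent.StableGas.Th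

variable {d : ℕ} {Z : ℕ → ℕ → ℝ} {C B : ℝ} (T : Th d Z C B)

include T

/-- One-sided bounds for the pressure give a coexistence interval. -/
theorem coexist' {v : ℝ} (hv : 0 < v)
    (hins : ∀ L N K : ℕ, 1 ≤ L → (∀ n, 0 < Z L n → n ≤ K) → N ≤ K →
      ((N : ℝ) + 1) * Z L (N + 1) ≤ v * ((K : ℝ) - N) * Z L N)
    (w n1 n2 : ℝ) (hn : n1 < n2)
    (hp : ∃ L N : ℕ, 1 ≤ L ∧ 0 < Z L N ∧ 0 < Real.log (Z L N) + w * N)
    (hplus : ∀ h : ℝ, 0 < h → h ≤ 1 → ∃ A : ℕ → ℝ, (∀ L, 0 < A L) ∧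
      Tendsto (fun L : ℕ => Real.log (A L) / (L : ℝ) ^ d) atTop (𝓝 0) ∧
      ∀ L : ℕ, 1 ≤ L → ∃ N' : ℕ, ∀ N : ℕ,
      Z L N * Real.exp (w * N) * Real.exp (h * n2 * ((L : ℝ) + 4) ^ d) ≤
        A L * (Z (L + 5) N' * Real.exp ((w + h) * N')))
    (hminus : ∀ h : ℝ, 0 < h → h ≤ 1 → ∃ A : ℕ → ℝ, (∀ L, 0 < A L) ∧
      Tendsto (fun L : ℕ => Real.log (A L) / (L : ℝ) ^ d) atTop (𝓝 0) ∧
      ∀ L : ℕ, 1 ≤ L → ∃ N' : ℕ, ∀ N : ℕ,
      Z L N * Real.exp (w * N) * Real.exp (-(h * n1) * ((L : ℝ) + 4) ^ d) ≤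
        A L * (Z (L + 5) N' * Real.exp ((w - h) * N'))) :
    ∃ ρ₁ ρ₂ c b : ℝ, 0 < ρ₁ ∧ ρ₁ < ρ₂ ∧ ρ₂ < rz d Z ∧
      (∀ ρ ∈ Ioo 0 (rz d Z), ff d Z ρ ≤ c * ρ + b ∧
        (ff d Z ρ = c * ρ + b ↔ ρ ∈ Icc ρ₁ ρ₂)) ∧
      ¬ AnalyticAt ℝ (ff d Z) ρ₁ ∧ ¬ AnalyticAt ℝ (ff d Z) ρ₂ := by
  have hC := T.hC
  have hub := T.ub
  obtain ⟨p, hp0, hpu, hpl⟩ := Pool.Agent.ConfinedGas.exists_p Z hC hub w hp
  obtain ⟨Mx, hMx⟩ : ∃ Mx : ℝ, Mx = C * Real.exp (w + 2) := ⟨_, rfl⟩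
  have hMx0 : 0 < Mx := by rw [hMx]; positivity
  have haff := Pool.Agent.StableGas.Th.affine_piece T w ((n2 - n1) / 2) p Mx (by linarith) hpu fun n => by
    obtain ⟨ε, hε⟩ : ∃ ε : ℝ, ε = p / (n + 2) := ⟨_, rfl⟩
    have hε0 : 0 < ε := by rw [hε]; positivity
    rw [← hε]
    obtain ⟨W, hW⟩ : ∃ W : ℝ, W = Mx + |n1| + |n2| + 1 := ⟨_, rfl⟩
    have hW1 : 1 ≤ W := by
      rw [hW]
      have := abs_nonneg n1
      have := abs_nonneg n2
      linarith
    obtain ⟨h, hh⟩ : ∃ h : ℝ, h = min (min 1 ((n2 - n1) / 4)) (min (ε / W) (p / (2 * W))) :=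
      ⟨_, rfl⟩
    have hh0 : 0 < h := by
      rw [hh]
      have : 0 < n2 - n1 := by linarith
      positivity
    have hh1 : h ≤ 1 := by rw [hh]; exact (min_le_left _ _).trans (min_le_left _ _)
    have hh2 : h ≤ (n2 - n1) / 4 := by rw [hh]; exact (min_le_left _ _).trans (min_le_right _ _)
    have hh3 : h * W ≤ ε := by
      have : h ≤ ε / W := by rw [hh]; exact (min_le_right _ _).trans (min_le_left _ _)
      rwa [le_div_iff₀ (by linarith)] at this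
    have hh4 : h * W ≤ p / 2 := by
      have : h ≤ p / (2 * W) := by rw [hh]; exact (min_le_right _ _).trans (min_le_right _ _)
      rw [le_div_iff₀ (by linarith)] at this
      linarith
    have hn2 : -(h * |n2|) ≤ h * n2 := by
      have := mul_le_mul_of_nonneg_left (neg_abs_le n2) hh0.le
      linarith
    have hn1 : h * n1 ≤ h * |n1| := mul_le_mul_of_nonneg_left (le_abs_self n1) hh0.le
    have hWe : h * W = h * Mx + h * |n1| + h * |n2| + h := by rw [hW]; ring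
    have p1 : 0 ≤ h * |n1| := by positivity
    have p2 : 0 ≤ h * |n2| := by positivity
    have p3 : 0 < h * Mx := by positivity
    have hhsq : h ^ 2 ≤ h := by nlinarith
    obtain ⟨A2, hA2, hA20, hA2H⟩ := hplus h hh0 hh1
    obtain ⟨A1, hA1, hA10, hA1H⟩ := hminus h hh0 hh1
    obtain ⟨L2, N2, hL2, hZ2, hN2⟩ := far_point Z T.hd T.sup w (w + h) p (h * n2) hp0 hpl A2 hA2
      hA20 hA2H (h ^ 2) (by positivity)
    obtain ⟨L1, N1, hL1, hZ1, hN1⟩ := far_point Z T.hd T.sup w (w - h) p (-(h * n1)) hp0 hpl A1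
      hA1 hA10 hA1H (h ^ 2) (by positivity)
    have hL1' : (0 : ℝ) < L1 := by exact_mod_cast hL1
    have hL2' : (0 : ℝ) < L2 := by exact_mod_cast hL2
    have hV1 : (0 : ℝ) < (L1 : ℝ) ^ d := by positivity
    have hV2 : (0 : ℝ) < (L2 : ℝ) ^ d := by positivity
    have hu1 := hpu L1 N1 hL1 hZ1
    have hu2 := hpu L2 N2 hL2 hZ2
    -- bound for the second density
    have hb : (N2 : ℝ) ≤ Mx * (L2 : ℝ) ^ d := by
      have g1 := log_add_le Z hC hub (w + h + 1) L2 N2 hZ2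
      have g2 : 0 ≤ (p + h * n2 - h ^ 2) * (L2 : ℝ) ^ d := by
        refine mul_nonneg ?_ hV2.le
        linarith
      have g3 : C * Real.exp (w + h + 1) * (L2 : ℝ) ^ d ≤ Mx * (L2 : ℝ) ^ d := by
        rw [hMx]
        have : Real.exp (w + h + 1) ≤ Real.exp (w + 2) := Real.exp_le_exp.2 (by linarith)
        gcongr
      have g4 : Real.log (Z L2 N2) + (w + h + 1) * N2 =
          (Real.log (Z L2 N2) + (w + h) * N2) + N2 := by ring
      linarith
    have hy2 : (n2 - h) * (L2 : ℝ) ^ d ≤ N2 := by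
      have g1 : h * ((n2 - h) * (L2 : ℝ) ^ d) ≤ h * N2 := by
        have : (p + h * n2 - h ^ 2) * (L2 : ℝ) ^ d ≤ p * (L2 : ℝ) ^ d + h * N2 := by linarith
        linarith
      exact le_of_mul_le_mul_left g1 hh0
    have hx1 : (N1 : ℝ) ≤ (n1 + h) * (L1 : ℝ) ^ d := by
      have g1 : h * N1 ≤ h * ((n1 + h) * (L1 : ℝ) ^ d) := by
        have : (p + -(h * n1) - h ^ 2) * (L1 : ℝ) ^ d ≤ p * (L1 : ℝ) ^ d - h * N1 := by linarith
        linarith
      exact le_of_mul_le_mul_left g1 hh0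
    have e2 : -w * N2 + (p - ε) * (L2 : ℝ) ^ d ≤ Real.log (Z L2 N2) := by
      have g1 : h * N2 ≤ h * (Mx * (L2 : ℝ) ^ d) := mul_le_mul_of_nonneg_left hb hh0.le
      have g2 : (p - ε) * (L2 : ℝ) ^ d ≤ (p + h * n2 - h ^ 2 - h * Mx) * (L2 : ℝ) ^ d := by
        refine mul_le_mul_of_nonneg_right ?_ hV2.le
        linarith
      linarith
    have e1 : -w * N1 + (p - ε) * (L1 : ℝ) ^ d ≤ Real.log (Z L1 N1) := by
      have g1 : 0 ≤ h * (N1 : ℝ) := by positivity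
      have g2 : (p - ε) * (L1 : ℝ) ^ d ≤ (p + -(h * n1) - h ^ 2) * (L1 : ℝ) ^ d := by
        refine mul_le_mul_of_nonneg_right ?_ hV1.le
        linarith
      linarith
    refine ⟨N1 / (L1 : ℝ) ^ d, N2 / (L2 : ℝ) ^ d, by positivity, ?_, ?_,
      ⟨L2, N2, hL2, hZ2, by rw [div_mul_cancel₀ _ hV2.ne']⟩, ?_⟩
    · have g1 : (N1 : ℝ) / (L1 : ℝ) ^ d ≤ n1 + h := by rwa [div_le_iff₀ hV1]
      have g2 : n2 - h ≤ (N2 : ℝ) / (L2 : ℝ) ^ d := by rwa [le_div_iff₀ hV2]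
      linarith
    · rwa [div_le_iff₀ hV2]
    · intro ρ h1 h2 ε' hε'
      refine lower_line2 Z T.hd T.sup T.her ρ (-w) (p - ε) L1 N1 L2 N2 hL1 hL2 hZ1 hZ2 e1 e2 ?_ ?_
        ε' hε'
      · rwa [div_le_iff₀ hV1] at h1
      · rwa [lt_div_iff₀ hV2] at h2
  obtain ⟨X, Y, hX, hXY, hY, hXYa⟩ := haff
  obtain ⟨ρ₁, ρ₂, h1, h2, h3, h4, h5, h6⟩ := Pool.Agent.StableGas.Th.contact T hv hins hp0 hpu hX hXY hY hXYa
  exact ⟨ρ₁, ρ₂, -w, p, h1, h2, h3, h4, h5, h6⟩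

end Coexist

variable {d : ℕ}

/-- The notion of a transition for a system of partition functions. -/
def Trans (d : ℕ) (Y : ℝ → ℕ → ℝ) : Prop :=
  ∃ (f : ℝ → ℝ) (ρ₀ ρ₁ ρ₂ c b : ℝ), 0 < ρ₁ ∧ ρ₁ < ρ₂ ∧ ρ₂ < ρ₀ ∧
    (∀ (ℓ : ℕ → ℝ) (N : ℕ → ℕ) (ρ : ℝ), Tendsto ℓ atTop atTop →
      Tendsto (fun j => (N j : ℝ) / ℓ j ^ d) atTop (𝓝 ρ) →
      (ρ ∈ Set.Ioo 0 ρ₀ → (∀ᶠ j in atTop, 0 < Y (ℓ j) (N j)) ∧
        Tendsto (fun j => Real.log (Y (ℓ j) (N j)) / ℓ j ^ d) atTop (𝓝 (f ρ))) ∧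
      (ρ₀ < ρ → ∀ᶠ j in atTop, Y (ℓ j) (N j) = 0)) ∧
    (∀ ρ ∈ Set.Ioo 0 ρ₀, f ρ ≤ c * ρ + b ∧ (f ρ = c * ρ + b ↔ ρ ∈ Set.Icc ρ₁ ρ₂)) ∧
    ¬ AnalyticAt ℝ f ρ₁ ∧ ¬ AnalyticAt ℝ f ρ₂

/-- Analyticity of the free energy at the other scale. -/
theorem analytic_scale {f : ℝ → ℝ} {V κ ρ : ℝ} (hV : 0 < V)
    (h : AnalyticAt ℝ (fun x => x * κ + f (x * V) / V) (ρ / V)) : AnalyticAt ℝ f ρ := by
  have g1 : AnalyticAt ℝ (fun x : ℝ => x / V) ρ := analyticAt_id.div_const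
  have g2 : AnalyticAt ℝ (fun x : ℝ => x / V * κ + f (x / V * V) / V) ρ :=
    AnalyticAt.fun_comp (f := fun x : ℝ => x / V) (g := fun x : ℝ => x * κ + f (x * V) / V) h g1
  have g3 : AnalyticAt ℝ (fun x : ℝ => V * ((x / V * κ + f (x / V * V) / V) - x / V * κ)) ρ :=
    analyticAt_const.mul (g2.sub (g1.mul analyticAt_const))
  refine g3.congr (Eventually.of_forall fun x => ?_)
  simp only
  rw [div_mul_cancel₀ _ hV.ne']
  field_simp
  ring

theorem Trans.scale {Ya Yb : ℝ → ℕ → ℝ} {c s : ℝ} (hc : 0 < c) (hs0 : 0 < s)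
    (hZ : ∀ (ℓ : ℝ) (N : ℕ), Ya ℓ N = c ^ (N * d) * Yb (ℓ / s) N)
    (h : Trans d Yb) : Trans d Ya := by
  obtain ⟨f, ρ₀, ρ₁, ρ₂, μ, b, h1, h2, h3, h4, h5, h6, h7⟩ := h
  have hsd : 0 < s ^ d := by positivity
  refine ⟨fun ρ => ρ * (d * Real.log c) + f (ρ * s ^ d) / s ^ d,
    ρ₀ / s ^ d, ρ₁ / s ^ d, ρ₂ / s ^ d, d * Real.log c + μ, b / s ^ d, by positivity, ?_, ?_, ?_,
    ?_, fun hh => h6 (analytic_scale hsd hh), fun hh => h7 (analytic_scale hsd hh)⟩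
  · gcongr
  · gcongr
  · intro ℓ N ρ hℓ hN
    have hu : Tendsto (fun j => ℓ j / s) atTop atTop := hℓ.atTop_div_const hs0
    have hNu : Tendsto (fun j => (N j : ℝ) / (ℓ j / s) ^ d) atTop (𝓝 (ρ * s ^ d)) := by
      refine (hN.mul_const (s ^ d)).congr fun j => ?_
      rw [div_pow, div_div_eq_mul_div]
      ring
    obtain ⟨g1, g2⟩ := h4 _ N _ hu hNu
    constructor
    · rintro ⟨hρ0, hρ1⟩
      rw [lt_div_iff₀ hsd] at hρ1
      obtain ⟨g3, g4⟩ := g1 ⟨mul_pos hρ0 hsd, hρ1⟩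
      constructor
      · filter_upwards [g3] with j hj
        rw [hZ]
        positivity
      · have g5 := (hN.mul_const (d * Real.log c)).add (g4.div_const (s ^ d))
        refine g5.congr' ?_
        filter_upwards [g3, hℓ.eventually_gt_atTop 0] with j hj hj0
        rw [hZ, Real.log_mul (by positivity) hj.ne', Real.log_pow, div_pow]
        push_cast
        field_simp
    · intro hρ
      rw [div_lt_iff₀ hsd] at hρ
      filter_upwards [g2 hρ] with j hj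
      rw [hZ, hj, mul_zero]
  · rintro ρ ⟨hρ0, hρ1⟩
    rw [lt_div_iff₀ hsd] at hρ1
    obtain ⟨g1, g2⟩ := h5 (ρ * s ^ d) ⟨mul_pos hρ0 hsd, hρ1⟩
    have e1 : (d * Real.log c + μ) * ρ + b / s ^ d =
        ρ * (d * Real.log c) + (μ * (ρ * s ^ d) + b) / s ^ d := by
      field_simp
      ring
    have e2 : ρ ∈ Set.Icc (ρ₁ / s ^ d) (ρ₂ / s ^ d) ↔ ρ * s ^ d ∈ Set.Icc ρ₁ ρ₂ := by
      rw [Set.mem_Icc, Set.mem_Icc, div_le_iff₀ hsd, le_div_iff₀ hsd]
    rw [e1, e2, ← g2]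
    simp only
    rw [add_le_add_iff_left, add_right_inj, div_le_div_iff_of_pos_right hsd,
      div_left_inj' hsd.ne']
    exact ⟨g1, Iff.rfl⟩

theorem Z_nonneg (d : ℕ) (a : ℝ) (u : (Fin d → ℝ) → ℝ) (ℓ : ℝ) (N : ℕ) : 0 ≤ Z d a u ℓ N := by
  unfold KacGas.Z
  refine mul_nonneg (by positivity) ?_
  exact integral_nonneg fun x => (Real.exp_pos _).le

open scoped Pointwise in
theorem conf_smul {N : ℕ} {a c ℓ : ℝ} (hc : 0 < c) :
    {x : Fin N → Fin d → ℝ | (∀ i, x i ∈ Box d ℓ) ∧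
      ∀ i j, i ≠ j → (2 * a) ^ 2 ≤ ∑ k, (x i k - x j k) ^ 2} =
    c • {x : Fin N → Fin d → ℝ | (∀ i, x i ∈ Box d (ℓ / c)) ∧
      ∀ i j, i ≠ j → (2 * (a / c)) ^ 2 ≤ ∑ k, (x i k - x j k) ^ 2} := by
  ext x
  rw [Set.mem_smul_set_iff_inv_smul_mem₀ hc.ne']
  simp only [Set.mem_ofPred_eq, Box, Pi.smul_apply, smul_eq_mul, Set.mem_Ico]
  have e1 : ∀ y : ℝ, (0 ≤ y ∧ y < ℓ) ↔ (0 ≤ c⁻¹ * y ∧ c⁻¹ * y < ℓ / c) := by
    intro y
    rw [inv_mul_eq_div, div_lt_div_iff_of_pos_right hc, le_div_iff₀ hc, zero_mul]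
  have e2 : ∀ i j, ((2 * a) ^ 2 ≤ ∑ k, (x i k - x j k) ^ 2 ↔
      (2 * (a / c)) ^ 2 ≤ ∑ k, (c⁻¹ * x i k - c⁻¹ * x j k) ^ 2) := by
    intro i j
    have e3 : ∑ k, (c⁻¹ * x i k - c⁻¹ * x j k) ^ 2 = (∑ k, (x i k - x j k) ^ 2) / c ^ 2 := by
      rw [Finset.sum_div]
      refine Finset.sum_congr rfl fun k _ => ?_
      field_simp
    have e4 : (2 * (a / c)) ^ 2 = (2 * a) ^ 2 / c ^ 2 := by
      field_simp
    rw [e3, e4, div_le_div_iff_of_pos_right (by positivity)]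
  simp only [e1, e2]

theorem Z_scale {a c ℓ : ℝ} {u : (Fin d → ℝ) → ℝ} (hc : 0 < c) (N : ℕ) :
    Z d a u ℓ N = c ^ (N * d) * Z d (a / c) (fun x => u (c • x)) (ℓ / c) N := by
  unfold KacGas.Z
  rw [conf_smul hc]
  have h := Measure.setIntegral_comp_smul_of_pos (volume : Measure (Fin N → Fin d → ℝ))
    (fun x : Fin N → Fin d → ℝ => Real.exp (∑ i, ∑ j ∈ Finset.Ioi i, u (x i - x j)))
    {x : Fin N → Fin d → ℝ | (∀ i, x i ∈ Box d (ℓ / c)) ∧
      ∀ i j, i ≠ j → (2 * (a / c)) ^ 2 ≤ ∑ k, (x i k - x j k) ^ 2} hc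
  have hfr : Module.finrank ℝ (Fin N → Fin d → ℝ) = N * d := by
    rw [Module.finrank_pi_fintype]
    simp
  rw [hfr] at h
  simp only [Pi.smul_apply, ← smul_sub, smul_eq_mul] at h
  rw [h]
  have hne : c ^ (N * d) ≠ 0 := (pow_pos hc _).ne'
  field_simp

/-- One particle. -/
theorem Z_one {a s : ℝ} {u : (Fin d → ℝ) → ℝ} (hs : 0 ≤ s) : Z d a u s 1 = s ^ d := by
  unfold KacGas.Z
  have h1 : {x : Fin 1 → Fin d → ℝ | (∀ i, x i ∈ Box d s) ∧
      ∀ i j, i ≠ j → (2 * a) ^ 2 ≤ ∑ k, (x i k - x j k) ^ 2} =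
      Set.pi Set.univ fun _ => Set.pi Set.univ fun _ => Set.Ico (0 : ℝ) s := by
    ext x
    simp only [Set.mem_ofPred_eq, Box, Set.mem_pi, Set.mem_univ, true_imp_iff]
    constructor
    · exact fun h => h.1
    · exact fun h => ⟨h, fun i j hij => absurd (Subsingleton.elim i j) hij⟩
  have h2 : ∀ x : Fin 1 → Fin d → ℝ, (∑ i, ∑ j ∈ Finset.Ioi i, u (x i - x j)) = 0 := by
    intro x
    refine Finset.sum_eq_zero fun i _ => Finset.sum_eq_zero fun j hj => ?_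
    rw [Finset.mem_Ioi] at hj
    exact absurd (Subsingleton.elim i j) (ne_of_lt hj)
  rw [h1]
  simp only [h2, Real.exp_zero]
  rw [setIntegral_const, smul_eq_mul, mul_one, Measure.real, volume_pi_pi]
  simp only [volume_pi_pi, Real.volume_Ico, sub_zero, Finset.prod_const, Finset.card_univ,
    Fintype.card_fin, pow_one]
  rw [ENNReal.toReal_pow, ENNReal.toReal_ofReal hs]
  simp

/-- A convex function which is not differentiable has a kink. -/
theorem exists_kink {p : ℝ → ℝ} (hp : ConvexOn ℝ Set.univ p) (hnd : ¬ Differentiable ℝ p) :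
    ∃ w n1 n2 : ℝ, n1 < n2 ∧ (∀ h : ℝ, 0 < h → p w + h * n2 ≤ p (w + h)) ∧
      ∀ h : ℝ, 0 < h → p w - h * n1 ≤ p (w - h) := by
  unfold Differentiable at hnd
  push Not at hnd
  obtain ⟨w, hw⟩ := hnd
  have hwi : w ∈ interior (Set.univ : Set ℝ) := by rw [interior_univ]; trivial
  have hle := hp.leftDeriv_le_rightDeriv_of_mem_interior hwi
  have hr := hp.hasDerivWithinAt_rightDeriv_of_mem_interior hwi
  have hl := hp.hasDerivWithinAt_leftDeriv_of_mem_interior hwi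
  have hne : derivWithin p (Set.Iio w) w ≠ derivWithin p (Set.Ioi w) w := by
    intro heq
    rw [heq] at hl
    have h3 : HasDerivAt p (derivWithin p (Set.Ioi w) w) w := by
      rw [hasDerivAt_iff_tendsto_slope_left_right]
      rw [hasDerivWithinAt_iff_tendsto_slope' (by simp)] at hl hr
      exact ⟨hl, hr⟩
    exact hw h3.differentiableAt
  refine ⟨w, _, _, lt_of_le_of_ne hle hne, fun h hh => ?_, fun h hh => ?_⟩
  · have h4 := hp.rightDeriv_le_slope (Set.mem_univ w) (Set.mem_univ (w + h)) (by linarith)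
      hr.differentiableWithinAt
    rw [slope_def_field, show w + h - w = h by ring, le_div_iff₀ hh] at h4
    linarith
  · have h4 := hp.slope_le_leftDeriv (Set.mem_univ (w - h)) (Set.mem_univ w) (by linarith)
      hl.differentiableWithinAt
    rw [slope_def_field, show w - (w - h) = h by ring, div_le_iff₀ hh] at h4
    linarith

theorem log_affine_div {d : ℕ} (hd : 1 ≤ d) (a b : ℝ) (ha : 0 < a) (hb : 0 < b) :
    Tendsto (fun L : ℕ => Real.log (a * (L : ℝ) ^ d + b) / (L : ℝ) ^ d) atTop (𝓝 0) := by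
  have hinf := Pool.Agent.ConfinedGas.tendsto_vol (d := d) hd
  have h1 : Tendsto (fun y : ℝ => Real.log y / y) atTop (𝓝 0) := by
    have := Real.isLittleO_log_id_atTop.tendsto_div_nhds_zero
    simpa using this
  have h2 : Tendsto (fun L : ℕ => a * (L : ℝ) ^ d + b) atTop atTop :=
    tendsto_atTop_add_const_right _ _ (hinf.const_mul_atTop ha)
  have h3 := h1.comp h2
  have h4 : Tendsto (fun L : ℕ => (a * (L : ℝ) ^ d + b) / (L : ℝ) ^ d) atTop (𝓝 a) := by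
    have h5 : Tendsto (fun L : ℕ => a + b / (L : ℝ) ^ d) atTop (𝓝 (a + 0)) :=
      (hinf.const_div_atTop b).const_add a
    rw [add_zero] at h5
    refine h5.congr' ?_
    filter_upwards [eventually_ge_atTop 1] with L hL
    have : (0 : ℝ) < L := by exact_mod_cast hL
    field_simp
  have h6 := h3.mul h4
  rw [zero_mul] at h6
  refine h6.congr' ?_
  filter_upwards [eventually_ge_atTop 1] with L hL
  have : (0 : ℝ) < L := by exact_mod_cast hL
  simp only [Function.comp]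
  have h7 : (0 : ℝ) < a * (L : ℝ) ^ d + b := by positivity
  field_simp

/-- The amplitude of the error. -/
theorem amp {d : ℕ} (hd : 1 ≤ d) {S : ℕ → ℝ} (hS : ∀ L, 0 < S L) {q p b B : ℝ} (hB : 0 ≤ B)
    (hlim : Tendsto (fun L : ℕ => Real.log (S L) / (L : ℝ) ^ d) atTop (𝓝 q)) (hpq : p + b ≤ q) :
    ∃ A : ℕ → ℝ, (∀ L, 0 < A L) ∧
      Tendsto (fun L : ℕ => Real.log (A L) / (L : ℝ) ^ d) atTop (𝓝 0) ∧
      ∀ L : ℕ, Real.exp (p * (L : ℝ) ^ d) * Real.exp (b * ((L : ℝ) + 4) ^ d) *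
        (B * ((L : ℝ)) ^ d + 1) ≤ A L * S (L + 4) := by
  obtain ⟨F, hF⟩ : ∃ F : ℕ → ℝ, F = fun L : ℕ => Real.exp (p * (L : ℝ) ^ d) *
    Real.exp (b * ((L : ℝ) + 4) ^ d) * (B * ((L : ℝ)) ^ d + 1) / S (L + 4) := ⟨_, rfl⟩
  have hFp : ∀ L, 0 < F L := by
    intro L
    rw [hF]
    have := hS (L + 4)
    positivity
  refine ⟨fun L => max 1 (F L), fun L => lt_max_of_lt_left one_pos, ?_, ?_⟩
  · have hlog : ∀ L, Real.log (max 1 (F L)) = max 0 (Real.log (F L)) := by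
      intro L
      rcases le_total 1 (F L) with h | h
      · rw [max_eq_right h, max_eq_right (Real.log_nonneg h)]
      · rw [max_eq_left h, Real.log_one, max_eq_left (Real.log_nonpos (hFp L).le h)]
    have hlim2 : Tendsto (fun L : ℕ => Real.log (F L) / (L : ℝ) ^ d) atTop (𝓝 (p + b - q)) := by
      have h4 := tendsto_shift d 4
      have h1 : Tendsto (fun L : ℕ => Real.log (S (L + 4)) / ((L + 4 : ℕ) : ℝ) ^ d) atTop
          (𝓝 q) := hlim.comp (tendsto_add_atTop_nat 4)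
      have h2 := h1.mul h4
      rw [mul_one] at h2
      have h3 : Tendsto (fun L : ℕ => Real.log (B * (L : ℝ) ^ d + 1) / (L : ℝ) ^ d) atTop
          (𝓝 0) := by
        have h5 := log_affine_div hd (B + 1) 1 (by linarith) one_pos
        refine squeeze_zero' ?_ ?_ h5
        · filter_upwards with L
          have : 0 ≤ Real.log (B * (L : ℝ) ^ d + 1) := by
            refine Real.log_nonneg ?_
            have : 0 ≤ B * (L : ℝ) ^ d := by positivity
            linarith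
          positivity
        · filter_upwards with L
          have h6 : (0 : ℝ) ≤ (L : ℝ) ^ d := by positivity
          refine div_le_div_of_nonneg_right (Real.log_le_log (by positivity) ?_) h6
          have : B * (L : ℝ) ^ d ≤ (B + 1) * (L : ℝ) ^ d :=
            mul_le_mul_of_nonneg_right (by linarith) h6
          linarith
      have h5 := ((h4.const_mul b).const_add p).add h3 |>.sub h2
      rw [mul_one, add_zero] at h5
      refine h5.congr' ?_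
      filter_upwards [eventually_ge_atTop 1] with L hL
      have hL' : (0 : ℝ) < L := by exact_mod_cast hL
      have hSL := hS (L + 4)
      rw [hF]
      simp only
      rw [Real.log_div (by positivity) hSL.ne', Real.log_mul (by positivity) (by positivity),
        Real.log_mul (by positivity) (by positivity), Real.log_exp, Real.log_exp]
      push_cast
      field_simp
    have h5 : Tendsto (fun L : ℕ => max 0 (Real.log (F L) / (L : ℝ) ^ d)) atTop
        (𝓝 (max 0 (p + b - q))) := tendsto_const_nhds.max hlim2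
    rw [max_eq_left (by linarith)] at h5
    refine h5.congr fun L => ?_
    rw [hlog]
    rcases le_total 0 (Real.log (F L)) with h | h
    · rw [max_eq_right h, max_eq_right (by positivity)]
    · rw [max_eq_left h, zero_div, max_eq_left]
      exact div_nonpos_of_nonpos_of_nonneg h (by positivity)
  · intro L
    have hSL := hS (L + 4)
    have h1 : F L ≤ max 1 (F L) := le_max_right _ _
    calc Real.exp (p * (L : ℝ) ^ d) * Real.exp (b * ((L : ℝ) + 4) ^ d) *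
        (B * ((L : ℝ)) ^ d + 1) = F L * S (L + 4) := by
          rw [hF]; simp only; field_simp
      _ ≤ _ := mul_le_mul_of_nonneg_right h1 hSL.le

/-- The limit along real side lengths. -/
theorem trans_of {J : (Fin d → ℝ) → ℝ} (hJ : Ad J) {C B ℓ R K : ℝ} (hK : 0 ≤ K) (hℓ : 1 < ℓ)
    (T : Th d (Zt d ℓ (uu J K R)) C B) {ρ₁ ρ₂ c b : ℝ}
    (h1 : 0 < ρ₁) (h2 : ρ₁ < ρ₂) (h3 : ρ₂ < Th.rz d (Zt d ℓ (uu J K R)))
    (h4 : ∀ ρ ∈ Set.Ioo 0 (Th.rz d (Zt d ℓ (uu J K R))), Th.ff d (Zt d ℓ (uu J K R)) ρ ≤ c * ρ + b ∧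
        (Th.ff d (Zt d ℓ (uu J K R)) ρ = c * ρ + b ↔ ρ ∈ Set.Icc ρ₁ ρ₂))
    (h5 : ¬ AnalyticAt ℝ (Th.ff d (Zt d ℓ (uu J K R))) ρ₁)
    (h6 : ¬ AnalyticAt ℝ (Th.ff d (Zt d ℓ (uu J K R))) ρ₂) :
    Trans d fun t N => Z d (1 / 2) (uu J K R) (t * ℓ) N := by
  have hℓ0 : 0 < ℓ := by linarith
  refine ⟨_, _, ρ₁, ρ₂, c, b, h1, h2, h3, ?_, h4, h5, h6⟩
  intro u N ρ hu hN
  obtain ⟨t, ht⟩ : ∃ t : ℕ → ℝ, t = fun j => u j - 1 + 1 / ℓ := ⟨_, rfl⟩
  have htu : Tendsto t atTop atTop := by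
    rw [ht]
    exact tendsto_atTop_add_const_right _ _ (tendsto_atTop_add_const_right _ _ hu)
  have hratio : Tendsto (fun j => t j / u j) atTop (𝓝 1) := by
    have g1 : Tendsto (fun j => 1 + (-1 + 1 / ℓ) / u j) atTop (𝓝 (1 + 0)) :=
      (hu.const_div_atTop _).const_add 1
    rw [add_zero] at g1
    refine g1.congr' ?_
    filter_upwards [hu.eventually_gt_atTop 0] with j hj
    rw [ht]
    field_simp
    ring
  have hratio' : Tendsto (fun j => (t j / u j) ^ d) atTop (𝓝 1) := by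
    have := hratio.pow d
    rwa [one_pow] at this
  have hNt : Tendsto (fun j => (N j : ℝ) / t j ^ d) atTop (𝓝 ρ) := by
    have g1 := hN.div hratio' one_ne_zero
    rw [div_one] at g1
    refine g1.congr' ?_
    filter_upwards [hu.eventually_gt_atTop 0, htu.eventually_gt_atTop 0] with j hj hj'
    simp only [Pi.div_apply]
    rw [div_pow]
    field_simp
  have hZr : ∀ j, Z d (1 / 2) (uu J K R) (u j * ℓ) (N j) =
      (fun (t : ℝ) (N : ℕ) => Z d (1 / 2) (uu J K R) ((t + 1) * ℓ - 1) N) (t j) (N j) := by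
    intro j
    simp only
    congr 1
    rw [ht]
    field_simp
    ring
  have hr1 : ∀ t : ℝ, 0 ≤ t → ∀ N, Zt d ℓ (uu J K R) (⌊t⌋₊ + 1) N ≤
      (fun (t : ℝ) (N : ℕ) => Z d (1 / 2) (uu J K R) ((t + 1) * ℓ - 1) N) t N := by
    intro t ht N
    refine Z_mono hJ hK ?_ N
    have := Nat.floor_le ht
    push_cast
    have : ((⌊t⌋₊ : ℝ) + 1) * ℓ ≤ (t + 1) * ℓ := mul_le_mul_of_nonneg_right (by linarith) hℓ0.le
    linarith
  have hr2 : ∀ t : ℝ, 0 ≤ t → ∀ N,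
      (fun (t : ℝ) (N : ℕ) => Z d (1 / 2) (uu J K R) ((t + 1) * ℓ - 1) N) t N ≤
        Zt d ℓ (uu J K R) (⌊t⌋₊ + 2) N := by
    intro t _ N
    refine Z_mono hJ hK ?_ N
    have := (Nat.lt_floor_add_one t).le
    push_cast
    have : (t + 1) * ℓ ≤ ((⌊t⌋₊ : ℝ) + 2) * ℓ := mul_le_mul_of_nonneg_right (by linarith) hℓ0.le
    linarith
  constructor
  · rintro ⟨g0, g1⟩
    obtain ⟨g2, g3⟩ := T.seq hr1 hr2 htu hNt g0 g1
    refine ⟨?_, ?_⟩
    · filter_upwards [g2] with j hj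
      rw [hZr]
      exact hj
    · have g4 := g3.mul hratio'
      rw [mul_one] at g4
      refine g4.congr' ?_
      filter_upwards [hu.eventually_gt_atTop 0, htu.eventually_gt_atTop 0] with j hj hj'
      rw [hZr, div_pow]
      field_simp
  · intro g
    have g1 := T.seq_zero (fun t N => Z_nonneg d (1 / 2) _ _ N) hr2 htu hNt g
    filter_upwards [g1] with j hj
    rw [hZr]
    exact hj

end Kink

open Kink

variable {d : ℕ} {J : (Fin d → ℝ) → ℝ}

/-- If the pressure is not differentiable there is a transition (hard cores of diameter one). -/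
theorem transition_of_kink (hd : 1 ≤ d) (hJ : Ad J) {ℓ R K : ℝ} (hℓ : 2 < ℓ) (hR : 0 < R)
    (hK : 0 ≤ K) {p : ℝ → ℝ} (hp : ConvexOn ℝ Set.univ p)
    (hlim : ∀ μ : ℝ, Tendsto (fun L : ℕ => Real.log (∑' n : ℕ, ex (μ * n) *
      ENNReal.ofReal (Z d (1 / 2) (uu J K R) (L * ℓ) n)).toReal / (L : ℝ) ^ d) atTop (𝓝 (p μ)))
    (hnd : ¬ Differentiable ℝ p) : Transition d (1 / 2) (uu J K R) := by
  classical
  have hℓ0 : 0 < ℓ := by linarith
  have hℓ1 : 1 < ℓ := by linarith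
  obtain ⟨C, B, T⟩ := exists_th hd hJ hℓ1 hR hK
  obtain ⟨v, hv, hins⟩ := insert_le hd hJ hℓ1 hR hK
  obtain ⟨w, n1, n2, hn, hw1, hw2⟩ := exists_kink hp hnd
  -- elementary facts
  have hup : ∀ L n : ℕ, Z d (1 / 2) (uu J K R) (L * ℓ) n ≤ Zt d ℓ (uu J K R) (L + 1) n := by
    intro L n
    refine Z_mono hJ hK ?_ n
    push_cast
    linarith
  have hlo : ∀ L n : ℕ, Zt d ℓ (uu J K R) L n ≤ Z d (1 / 2) (uu J K R) (L * ℓ) n := by
    intro L n
    exact Z_mono hJ hK (by linarith) n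
  have hB0 : 0 ≤ B := by
    have h1 := T.fin 1 0 le_rfl (by rw [T.zero]; exact one_pos)
    simpa using h1
  have hZ0 : ∀ L n : ℕ, 0 ≤ Z d (1 / 2) (uu J K R) (L * ℓ) n := fun L n => Z_nonneg d _ _ _ n
  obtain ⟨Q, hQ⟩ : ∃ Q : ℕ → ℕ, Q = fun L : ℕ => ⌊B * ((L : ℝ) + 1) ^ d⌋₊ := ⟨_, rfl⟩
  have hzero : ∀ L n : ℕ, n ∉ Finset.range (Q L + 1) → Z d (1 / 2) (uu J K R) (L * ℓ) n = 0 := by
    intro L n hn
    rw [Finset.mem_range, not_lt] at hn
    by_contra hcon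
    have h1 : 0 < Zt d ℓ (uu J K R) (L + 1) n :=
      lt_of_lt_of_le (lt_of_le_of_ne (hZ0 L n) (Ne.symm hcon)) (hup L n)
    have h2 := T.fin (L + 1) n (by omega) h1
    push_cast at h2
    have h3 : n ≤ ⌊B * ((L : ℝ) + 1) ^ d⌋₊ := Nat.le_floor h2
    have h4 : Q L = ⌊B * ((L : ℝ) + 1) ^ d⌋₊ := by rw [hQ]
    omega
  -- the partition functions
  obtain ⟨S, hS⟩ : ∃ S : ℝ → ℕ → ℝ, S = fun (μ : ℝ) (L : ℕ) => ∑ n ∈ Finset.range (Q L + 1),
    Real.exp (μ * n) * Z d (1 / 2) (uu J K R) (L * ℓ) n := ⟨_, rfl⟩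
  have hSeq : ∀ (μ : ℝ) (L : ℕ), (∑' n : ℕ, ex (μ * n) *
      ENNReal.ofReal (Z d (1 / 2) (uu J K R) (L * ℓ) n)).toReal = S μ L := by
    intro μ L
    rw [tsum_eq_sum (s := Finset.range (Q L + 1)) (fun n hn => by
      rw [hzero L n hn, ENNReal.ofReal_zero, mul_zero]), ENNReal.toReal_sum (fun n _ =>
      ENNReal.mul_ne_top (ex_ne_top _) ENNReal.ofReal_ne_top), hS]
    refine Finset.sum_congr rfl fun n _ => ?_
    rw [ENNReal.toReal_mul, ex_toReal, ENNReal.toReal_ofReal (hZ0 L n)]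
  have hlim' : ∀ μ : ℝ, Tendsto (fun L : ℕ => Real.log (S μ L) / (L : ℝ) ^ d) atTop
      (𝓝 (p μ)) := by
    intro μ
    refine (hlim μ).congr fun L => ?_
    rw [hSeq]
  have hterm0 : ∀ (μ : ℝ) (L n : ℕ), 0 ≤ Real.exp (μ * n) * Z d (1 / 2) (uu J K R) (L * ℓ) n :=
    fun μ L n => mul_nonneg (Real.exp_pos _).le (hZ0 L n)
  have hSterm : ∀ (μ : ℝ) (L n : ℕ), Real.exp (μ * n) * Z d (1 / 2) (uu J K R) (L * ℓ) n ≤ S μ L := by
    intro μ L n
    rw [hS]
    by_cases hn : n ∈ Finset.range (Q L + 1)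
    · exact Finset.single_le_sum
        (f := fun n : ℕ => Real.exp (μ * n) * Z d (1 / 2) (uu J K R) (L * ℓ) n)
        (fun n _ => hterm0 μ L n) hn
    · rw [hzero L n hn, mul_zero]
      exact Finset.sum_nonneg fun n _ => hterm0 μ L n
  have hSpos : ∀ μ L, 0 < S μ L := by
    intro μ L
    have h1 := hSterm μ L 0
    have h2 : 1 ≤ Z d (1 / 2) (uu J K R) (L * ℓ) 0 := by
      have := hlo L 0
      rwa [T.zero] at this
    have h3 : Real.exp (μ * (0 : ℕ)) = 1 := by simp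
    rw [h3, one_mul] at h1
    linarith
  have hSmax : ∀ (μ : ℝ) (L : ℕ), ∃ N' : ℕ, S μ L ≤ (B * ((L : ℝ) + 1) ^ d + 1) *
      (Real.exp (μ * N') * Z d (1 / 2) (uu J K R) (L * ℓ) N') := by
    intro μ L
    obtain ⟨N', _, hN'⟩ := Finset.exists_max_image (Finset.range (Q L + 1))
      (fun n : ℕ => Real.exp (μ * n) * Z d (1 / 2) (uu J K R) (L * ℓ) n)
      ⟨0, Finset.mem_range.2 (Nat.succ_pos _)⟩
    refine ⟨N', ?_⟩
    have h1 := Finset.sum_le_card_nsmul (Finset.range (Q L + 1))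
      (fun n : ℕ => Real.exp (μ * n) * Z d (1 / 2) (uu J K R) (L * ℓ) n) _ hN'
    rw [Finset.card_range, nsmul_eq_mul] at h1
    rw [hS]
    refine h1.trans (mul_le_mul_of_nonneg_right ?_ (hterm0 μ L N'))
    push_cast
    have h2 : (Q L : ℝ) ≤ B * ((L : ℝ) + 1) ^ d := by
      rw [hQ]
      exact Nat.floor_le (by positivity)
    linarith
  -- the upper bound
  have hpoint : ∀ L N : ℕ, 1 ≤ L → Zt d ℓ (uu J K R) L N * Real.exp (w * N) ≤
      Real.exp (p w * (L : ℝ) ^ d) := by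
    intro L N hL
    rcases (T.nonneg L N).eq_or_lt with h0 | h0
    · rw [← h0, zero_mul]; exact (Real.exp_pos _).le
    have hL' : (0 : ℝ) < L := by exact_mod_cast hL
    have hLd : (0 : ℝ) < (L : ℝ) ^ d := by positivity
    have key : (Real.log (Zt d ℓ (uu J K R) L N) + w * N) / (L : ℝ) ^ d ≤ p w := by
      have hk : Tendsto (fun k : ℕ => k * L) atTop atTop :=
        tendsto_id.atTop_mul_const' (by omega)
      refine ge_of_tendsto ((hlim' w).comp hk) ?_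
      filter_upwards [eventually_ge_atTop 1] with k hk1
      have hk' : (0 : ℝ) < k := by exact_mod_cast hk1
      simp only [Function.comp]
      have h4 := T.sup L k (k * L) (List.replicate (k ^ d) N) hL le_rfl
        (by rw [List.length_replicate])
      rw [List.map_replicate, List.prod_replicate, List.sum_replicate, smul_eq_mul] at h4
      have h5 := h4.trans (hlo (k * L) (k ^ d * N))
      have h6 := hSterm w (k * L) (k ^ d * N)
      have h7 : Real.exp (w * ((k ^ d * N : ℕ) : ℝ)) * Zt d ℓ (uu J K R) L N ^ k ^ d ≤ S w (k * L) :=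
        (mul_le_mul_of_nonneg_left h5 (Real.exp_pos _).le).trans h6
      have h8 := Real.log_le_log (by positivity) h7
      rw [Real.log_mul (Real.exp_pos _).ne' (pow_pos h0 _).ne', Real.log_exp,
        Real.log_pow] at h8
      rw [div_le_div_iff₀ hLd (by positivity)]
      push_cast at h8 ⊢
      have h9 : (Real.log (Zt d ℓ (uu J K R) L N) + w * N) * ((k : ℝ) * L) ^ d =
          (w * ((k : ℝ) ^ d * N) + (k : ℝ) ^ d * Real.log (Zt d ℓ (uu J K R) L N)) * (L : ℝ) ^ d := by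
        rw [mul_pow]; ring
      rw [h9]
      exact mul_le_mul_of_nonneg_right h8 hLd.le
    rw [div_le_iff₀ hLd] at key
    have h10 : Zt d ℓ (uu J K R) L N * Real.exp (w * N) =
        Real.exp (Real.log (Zt d ℓ (uu J K R) L N) + w * N) := by
      rw [Real.exp_add, Real.exp_log h0]
    rw [h10]
    exact Real.exp_le_exp.2 key
  -- the one-sided estimates
  have hgen : ∀ (g b : ℝ), p w + b ≤ p g → ∃ A : ℕ → ℝ, (∀ L, 0 < A L) ∧
      Tendsto (fun L : ℕ => Real.log (A L) / (L : ℝ) ^ d) atTop (𝓝 0) ∧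
      ∀ L : ℕ, 1 ≤ L → ∃ N' : ℕ, ∀ N : ℕ,
      Zt d ℓ (uu J K R) L N * Real.exp (w * N) * Real.exp (b * ((L : ℝ) + 4) ^ d) ≤
        A L * (Zt d ℓ (uu J K R) (L + 5) N' * Real.exp (g * N')) := by
    intro g b hgb
    obtain ⟨A, hA1, hA2, hA3⟩ := amp hd (S := S g) (hSpos g) (q := p g) (p := p w) (b := b)
      (B := B * 6 ^ d) (by positivity) (hlim' g) hgb
    refine ⟨A, hA1, hA2, fun L hL => ?_⟩
    obtain ⟨N', hN'⟩ := hSmax g (L + 4)
    refine ⟨N', fun N => ?_⟩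
    have hL' : (1 : ℝ) ≤ L := by exact_mod_cast hL
    have e1 : B * (((L + 4 : ℕ) : ℝ) + 1) ^ d + 1 ≤ B * 6 ^ d * (L : ℝ) ^ d + 1 := by
      have e2 : (((L + 4 : ℕ) : ℝ) + 1) ^ d ≤ (6 * (L : ℝ)) ^ d := by
        push_cast
        refine pow_le_pow_left₀ (by positivity) (by linarith) d
      rw [mul_pow] at e2
      have e3 := mul_le_mul_of_nonneg_left e2 hB0
      linarith
    have e4 := mul_le_mul_of_nonneg_right e1 (hterm0 g (L + 4) N')
    have e5 : Real.exp (g * N') * Z d (1 / 2) (uu J K R) ((L + 4 : ℕ) * ℓ) N' ≤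
        Zt d ℓ (uu J K R) (L + 5) N' * Real.exp (g * N') := by
      rw [mul_comm]
      exact mul_le_mul_of_nonneg_right (hup (L + 4) N') (Real.exp_pos _).le
    have e6 : 0 < B * 6 ^ d * (L : ℝ) ^ d + 1 := by positivity
    have e7 : S g (L + 4) ≤ (B * 6 ^ d * (L : ℝ) ^ d + 1) *
        (Zt d ℓ (uu J K R) (L + 5) N' * Real.exp (g * N')) :=
      (hN'.trans e4).trans (mul_le_mul_of_nonneg_left e5 e6.le)
    have e8 := (hA3 L).trans (mul_le_mul_of_nonneg_left e7 (hA1 L).le)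
    have e9 := mul_le_mul_of_nonneg_right (hpoint L N hL)
      (Real.exp_pos (b * ((L : ℝ) + 4) ^ d)).le
    refine e9.trans ?_
    refine le_of_mul_le_mul_right ?_ e6
    refine e8.trans (le_of_eq ?_)
    ring
  have hbase : ∃ L N : ℕ, 1 ≤ L ∧ 0 < Zt d ℓ (uu J K R) L N ∧
      0 < Real.log (Zt d ℓ (uu J K R) L N) + w * N := by
    obtain ⟨L, hL⟩ := exists_nat_gt (Real.exp (-w) + 1)
    have h1 : (1 : ℝ) < L := by
      have := Real.exp_pos (-w)
      linarith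
    have hL1 : 1 ≤ L := by exact_mod_cast h1.le
    refine ⟨L, 1, hL1, ?_⟩
    have h2 : Real.exp (-w) < L * ℓ - 1 := by
      have : (L : ℝ) * 2 ≤ L * ℓ := mul_le_mul_of_nonneg_left hℓ.le (by linarith)
      linarith
    have h3 : (1 : ℝ) < L * ℓ - 1 := by
      have : (L : ℝ) * 2 ≤ L * ℓ := mul_le_mul_of_nonneg_left hℓ.le (by linarith)
      linarith
    have h4 : Zt d ℓ (uu J K R) L 1 = (L * ℓ - 1) ^ d := by
      unfold Zt
      exact Z_one (by linarith)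
    have h5 : L * ℓ - 1 ≤ Zt d ℓ (uu J K R) L 1 := by
      rw [h4]
      exact le_self_pow₀ h3.le (by omega)
    refine ⟨by linarith, ?_⟩
    have h6 := Real.log_lt_log (Real.exp_pos _) (lt_of_lt_of_le h2 h5)
    rw [Real.log_exp] at h6
    push_cast
    linarith
  obtain ⟨ρ₁, ρ₂, c, b, c1, c2, c3, c4, c5, c6⟩ := coexist' T hv hins w n1 n2 hn hbase
    (fun h hh0 _ => hgen (w + h) (h * n2) (hw1 h hh0))
    (fun h hh0 _ => by
      have h7 : p w + -(h * n1) ≤ p (w - h) := by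
        have := hw2 h hh0
        linarith
      obtain ⟨A, hA1, hA2, hA3⟩ := hgen (w - h) (-(h * n1)) h7
      exact ⟨A, hA1, hA2, hA3⟩)
  have hT := trans_of hJ hK hℓ1 T c1 c2 c3 c4 c5 c6
  have hT2 : Trans d fun t N => Z d (1 / 2) (uu J K R) t N := by
    refine Trans.scale (c := 1) (s := ℓ) one_pos hℓ0 (fun t N => ?_) hT
    rw [one_pow, one_mul, div_mul_cancel₀ _ hℓ0.ne']
  exact hT2

/-- Scaling. -/
theorem transition_scale {a : ℝ} (ha : 0 < a) {u : (Fin d → ℝ) → ℝ}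
    (h : Transition d (1 / 2) fun x => u ((2 * a) • x)) : Transition d a u := by
  have h1 : Trans d fun t N => Z d (1 / 2) (fun x => u ((2 * a) • x)) t N := h
  have h2 : Trans d fun t N => Z d a u t N := by
    refine Trans.scale (c := 2 * a) (s := 2 * a) (by positivity) (by positivity)
      (fun t N => ?_) h1
    rw [Z_scale (c := 2 * a) (by positivity) N]
    have e1 : a / (2 * a) = 1 / 2 := by field_simp
    rw [e1]
  exact h2

end Pool.Agent.Kac
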