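import Pool.Agent.Lib.MP_09cbbd_kc.ModL

/-!
# The gas of hard spheres with a pair attraction as a gas on cells
-/

set_option autoImplicit false

namespace Pool.Agent.Kac

open MeasureTheory Finset Filter Topology Pool.Agent.StableGas Pool.Agent.SquareWellGas
  Pool.Agent.SquareWell Pool.Agent.KacGas

variable {d : ℕ} {J : (Fin d → ℝ) → ℝ}

open ModD in
/-- The gas on cells. -/
noncomputable def cellMd (hJ : Ad J) {B : ℕ} (hB : 1 ≤ B) (hB1 : 1 ≤ ∑ v ∈ SB d B, JU J B v)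
    {ℓ K : ℝ} (hℓ : 2 < ℓ) (hK : 0 < K) : Md d (EE d ℓ) where
  π := pi0 ℓ
  e0 := e00 d ℓ
  n := n0 ℓ
  c := c0 ℓ
  h := h0 ℓ (uu J K (B * ℓ))
  g := g0 ℓ (uu J K (B * ℓ))
  S := SB d B
  J := JU J B
  Jm := JL J B
  r := B
  N := mx (Box d ℓ)
  Ns := mx (Box d ℓ \ Cor d ℓ)
  K := K
  b := 2 * ℓ ^ d
  measurable_n := measurable_n0
  measurable_c := measurable_c0
  measurable_h := measurable_h0 (measurable_uu hJ)
  measurable_g := measurable_g0 (measurable_uu hJ)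
  measurableSet_e0 := measurableSet_e00
  measurableSet_core := measurableSet_core0
  π_e0 := pi0_e00
  π_univ := pi0_univ hℓ
  hK := hK
  hN := one_le_mx hℓ
  hr := hB
  zero_S := zero_SB B
  Nb_S := Nb_SB hB
  S_neg := SB_neg B
  S_r := SB_r B
  Jm_nonneg := JL_nonneg hJ
  Jm_le := JL_le hJ hB
  J_le_one := JU_le_one hJ hB
  J_neg := JU_neg hJ
  Jm_neg := JL_neg hJ
  Jm_zero := JL_zero
  one_le_tot := hB1
  n_e0 := n0_e00
  n_le := n0_le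
  n_c := n0_c
  n_le_c := n0_le_c
  c_e0 := c0_e00
  c_c := c0_c
  c_push := c_push hℓ
  h_e0 := h0_e00
  one_le_h := one_le_h0 (uu_nonneg hJ hK)
  h_up := h0_up hJ hB hℓ hK
  h_c := h0_c hJ hB hℓ hK
  g_symm := g0_symm (uu_neg hJ)
  g_e0 := g0_e00
  g_up := g0_up hJ hB hℓ hK
  g_lo := g0_lo hJ hB hℓ hK
  g_c := g0_c hJ hB hℓ hK

/-- Cells of side `ℓ > 2`, hard cores of diameter one, attraction `K J (x / (B ℓ))`. -/
theorem exists_model (hJ : Ad J) {B : ℕ} (hB : 1 ≤ B) (hB1 : 1 ≤ ∑ v ∈ SB d B, JU J B v)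
    {ℓ K : ℝ} (hℓ : 2 < ℓ) (hK : 0 < K) :
    ∃ (E : Type) (_ : MeasurableSpace E) (M : Md d E), M.S = SB d B ∧ M.J = JU J B ∧
      M.Jm = JL J B ∧ M.r = B ∧ M.N = mx (Box d ℓ) ∧ M.Ns = mx (Box d ℓ \ Cor d ℓ) ∧ M.K = K ∧
      M.b = 2 * ℓ ^ d ∧
      (∀ n : ℕ, ((n.factorial : ENNReal))⁻¹ * volume (Cn (Fin n) (Cor d ℓ)) ≤
        M.π {x | M.c x = x ∧ M.n x = n}) ∧
      ∀ (μ : ℝ) (L : ℕ), M.xi μ (bx d L) =
        ∑' n : ℕ, ex (μ * n) * ENNReal.ofReal (Z d (1 / 2) (uu J K (B * ℓ)) (L * ℓ) n) :=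
  ⟨ModD.EE d ℓ, inferInstance, cellMd hJ hB hB1 hℓ hK, rfl, rfl, rfl, rfl, rfl, rfl, rfl, rfl,
    ModD.core_measure hℓ, ModD.link0 hJ hB hℓ hK⟩

end Pool.Agent.Kac
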