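import Pool.Agent.Lib.MP_09cbbd_kc.Asm
import Pool.Agent.Lib.MP_09cbbd_kc.Mod
import Pool.Agent.Lib.MP_09cbbd_kc.Kink
import Pool.Agent.Lib.MP_09cbbd_kc.Geo

/-!
# The transition of hard spheres with a pair attraction
-/

set_option autoImplicit false

namespace Pool.Agent.Kac

open MeasureTheory Finset Filter Topology Pool.Agent.StableGas Pool.Agent.SquareWellGas
  Pool.Agent.SquareWell Pool.Agent.KacGas

namespace End

/-- The smallness assumptions for large cells and strong attraction. -/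
theorem small {d B : ℕ} {J : (Fin d → ℝ) → ℝ} {ℓ K c C' : ℝ} (hℓ : 1 ≤ ℓ) (hK : 0 < K)
    (hc : 0 < c)
    (hB2 : ∀ Y : Finset (Zd d), 511 * cut (SB d B) (JU J B) Y ≤ 512 * cut (SB d B) (JL J B) Y)
    (hB4 : ∀ Y : Finset (Zd d), ∑ e ∈ Nb 0, ((Y.filter fun i => i + e ∉ Y).card : ℝ) ≤
      cut (SB d B) (JU J B) Y)
    (hB3 : (1 - 1 / 2 ^ 32 : ℝ) * ∑ v ∈ SB d B, JU J B v ≤ ∑ v ∈ SB d B, JL J B v)
    (hmx : c * ℓ ^ d ≤ mx (Box d ℓ))
    (hst : (mx (Box d ℓ \ Cor d ℓ) : ℝ) ≤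
      1 / (2 ^ 40 * 3 ^ d * ((SB d B).card + 1 : ℝ)) * mx (Box d ℓ))
    (hpk : ∃ n : ℕ, (1 - 1 / 2 ^ 32 : ℝ) * mx (Box d ℓ) ≤ n ∧
      ex (-(C' * ℓ ^ d)) ≤ ((n.factorial : ENNReal))⁻¹ * volume (Cn (Fin n) (Cor d ℓ)))
    (h1 : 2 ^ 41 * 3 ^ d ≤ c ^ 2 * (K * ℓ ^ d)) (h2 : 2 ^ 32 * C' ≤ c ^ 2 * (K * ℓ ^ d))
    {E : Type} [MeasurableSpace E] (M : Md d E) (hS : M.S = SB d B) (hJ : M.J = JU J B)
    (hJm : M.Jm = JL J B)
    (hN : M.N = mx (Box d ℓ)) (hNs : M.Ns = mx (Box d ℓ \ Cor d ℓ)) (hMK : M.K = K)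
    (hb : M.b = 2 * ℓ ^ d)
    (hπ : ∀ n : ℕ, ((n.factorial : ENNReal))⁻¹ * volume (Cn (Fin n) (Cor d ℓ)) ≤
        M.π {x | M.c x = x ∧ M.n x = n}) : Small M := by
  have hℓd : 0 < ℓ ^ d := by positivity
  have hN2 : c ^ 2 * (ℓ ^ d) ^ 2 ≤ (M.N : ℝ) ^ 2 := by
    rw [hN, ← mul_pow]
    exact pow_le_pow_left₀ (by positivity) hmx 2
  refine ⟨?_, ?_, ?_, ?_, ?_, ?_⟩
  · rw [hS, hJ, hJm]; exact hB2
  · rw [hS, hJ]; exact hB4
  · unfold Md.tot Md.totm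
    rw [hS, hJ, hJm]; exact hB3
  · rw [hb, hMK]
    calc (2 : ℝ) ^ 40 * 3 ^ d * (2 * ℓ ^ d) = (2 ^ 41 * 3 ^ d) * ℓ ^ d := by ring
      _ ≤ (c ^ 2 * (K * ℓ ^ d)) * ℓ ^ d := mul_le_mul_of_nonneg_right h1 hℓd.le
      _ = K * (c ^ 2 * (ℓ ^ d) ^ 2) := by ring
      _ ≤ K * (M.N : ℝ) ^ 2 := mul_le_mul_of_nonneg_left hN2 hK.le
  · have h3 : (2 ^ 40 * 3 ^ d * M.S.card * M.Ns : ℝ) ≤ M.N := by
      rw [hN, hNs, hS]
      have h4 : (0 : ℝ) < 2 ^ 40 * 3 ^ d * ((SB d B).card + 1 : ℝ) := by positivity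
      rw [one_div, inv_mul_eq_div, le_div_iff₀ h4] at hst
      refine le_trans ?_ hst
      rw [mul_comm]
      refine mul_le_mul_of_nonneg_left ?_ (Nat.cast_nonneg _)
      refine mul_le_mul_of_nonneg_left ?_ (by positivity)
      linarith
    exact_mod_cast h3
  · obtain ⟨n, hn1, hn2⟩ := hpk
    refine ⟨{x | M.c x = x ∧ M.n x = n}, n, C' * ℓ ^ d, ?_, fun x hx => hx, hn2.trans (hπ n), ?_, ?_⟩
    · exact M.measurableSet_core.inter (M.measurable_n (measurableSet_singleton n))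
    · rw [hN]; exact hn1
    · rw [hMK]
      calc (2 : ℝ) ^ 32 * (C' * ℓ ^ d) = (2 ^ 32 * C') * ℓ ^ d := by ring
        _ ≤ (c ^ 2 * (K * ℓ ^ d)) * ℓ ^ d := mul_le_mul_of_nonneg_right h2 hℓd.le
        _ = K * (c ^ 2 * (ℓ ^ d) ^ 2) := by ring
        _ ≤ K * (M.N : ℝ) ^ 2 := mul_le_mul_of_nonneg_left hN2 hK.le
        _ ≤ K * (M.N : ℝ) ^ 2 * M.tot := le_mul_of_one_le_right (by positivity) M.tot_ge_one

/-- The theorem for normalised interactions. -/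
theorem main1 (d : ℕ) (hd : 2 ≤ d) {J : (Fin d → ℝ) → ℝ} (hJ : Ad J)
    (hJc : ∀ᵐ x, ContinuousAt J x) (hJp : 0 < ∫ x, J x) :
    ∃ lam κ : ℝ, 0 < lam ∧ 0 < κ ∧ ∀ a R K : ℝ, 0 < a → lam * a ≤ R → κ * (a / R) ^ d ≤ K →
      Transition d a (uu J K R) := by
  have hd1 : 1 ≤ d := by omega
  obtain ⟨B, hB1, hB2, hB4, hB3, hB5⟩ := exists_B hd1 hJ hJc hJp
  obtain ⟨C, hC⟩ := not_differentiable d B hd
  obtain ⟨c, hc, hmx⟩ := mx_lower hd1
  obtain ⟨t1, ht1, hstrip⟩ := mx_strip hd1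
    (ε := 1 / (2 ^ 40 * 3 ^ d * ((SB d B).card + 1 : ℝ))) (by positivity)
  obtain ⟨C', t2, ht2, hpack⟩ := exists_packing hd1 (ε := 1 / 2 ^ 32) (by positivity)
  have hB0 : (0 : ℝ) < B := by exact_mod_cast hB1
  set κ0 : ℝ := 1 + 2 ^ 41 * 3 ^ d / c ^ 2 + 2 ^ 32 * |C'| / c ^ 2 + |C| / c ^ 2 with hκ0
  have hκ0pos : 0 < κ0 := by positivity
  have hκ1 : 2 ^ 41 * 3 ^ d ≤ c ^ 2 * κ0 := by
    have h1 : c ^ 2 * κ0 = c ^ 2 + 2 ^ 41 * 3 ^ d + 2 ^ 32 * |C'| + |C| := by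
      rw [hκ0]; field_simp
    have h2 : 0 ≤ 2 ^ 32 * |C'| := by positivity
    have h3 := abs_nonneg C
    have h4 := sq_nonneg c
    rw [h1]
    linarith
  have hκ2 : 2 ^ 32 * C' ≤ c ^ 2 * κ0 := by
    have h1 : c ^ 2 * κ0 = c ^ 2 + 2 ^ 41 * 3 ^ d + 2 ^ 32 * |C'| + |C| := by
      rw [hκ0]; field_simp
    have h2 := le_abs_self C'
    have h3 := abs_nonneg C
    have h4 := sq_nonneg c
    have h5 : (0 : ℝ) ≤ 2 ^ 41 * 3 ^ d := by positivity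
    rw [h1]
    linarith
  have hκ3 : C ≤ c ^ 2 * κ0 := by
    have h1 : c ^ 2 * κ0 = c ^ 2 + 2 ^ 41 * 3 ^ d + 2 ^ 32 * |C'| + |C| := by
      rw [hκ0]; field_simp
    have h2 : 0 ≤ 2 ^ 32 * |C'| := by positivity
    have h3 := le_abs_self C
    have h4 := sq_nonneg c
    have h5 : (0 : ℝ) ≤ 2 ^ 41 * 3 ^ d := by positivity
    rw [h1]
    linarith
  have ht0 : 2 < max t1 t2 := lt_max_of_lt_left ht1
  refine ⟨2 * B * max t1 t2, (2 * B) ^ d * κ0, by positivity, by positivity,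
    fun a R K ha hR hK => ?_⟩
  have hR0 : 0 < R := lt_of_lt_of_le (by positivity) hR
  have hK0 : 0 < K := lt_of_lt_of_le (by positivity) hK
  set ℓ : ℝ := R / (2 * a * B) with hℓdef
  have hℓ : max t1 t2 ≤ ℓ := by
    rw [hℓdef, le_div_iff₀ (by positivity)]
    calc max t1 t2 * (2 * a * B) = 2 * B * max t1 t2 * a := by ring
      _ ≤ R := hR
  have hℓ2 : 2 < ℓ := ht0.trans_le hℓ
  have hℓ1 : 1 ≤ ℓ := by linarith
  have hKℓ : κ0 ≤ K * ℓ ^ d := by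
    have h1 : κ0 = (2 * B) ^ d * κ0 * (a / R) ^ d * ℓ ^ d := by
      have h2 : (2 * (B : ℝ)) ^ d * (a / R) ^ d * ℓ ^ d = 1 := by
        rw [← mul_pow, ← mul_pow]
        have : 2 * (B : ℝ) * (a / R) * ℓ = 1 := by
          rw [hℓdef]
          field_simp
        rw [this, one_pow]
      calc κ0 = κ0 * ((2 * (B : ℝ)) ^ d * (a / R) ^ d * ℓ ^ d) := by rw [h2, mul_one]
        _ = _ := by ring
    rw [h1]
    exact mul_le_mul_of_nonneg_right hK (by positivity)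
  have hκℓ : c ^ 2 * κ0 ≤ c ^ 2 * (K * ℓ ^ d) := mul_le_mul_of_nonneg_left hKℓ (by positivity)
  obtain ⟨E, mE, M, hS, hMJ, hMJm, hr, hN, hNs, hMK, hb, hπ, hxi⟩ :=
    exists_model hJ hB1 hB5 hℓ2 hK0
  have hsm : Small M := End.small hℓ1 hK0 hc hB2 hB4 hB3 (hmx ℓ hℓ1)
    (hstrip ℓ ((le_max_left _ _).trans hℓ)) (hpack ℓ ((le_max_right _ _).trans hℓ))
    (hκ1.trans hκℓ) (hκ2.trans hκℓ) M hS hMJ hMJm hN hNs hMK hb hπ
  obtain ⟨p, hp⟩ := exists_p M hd1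
  have hCM : C ≤ M.K * M.N ^ 2 := by
    have hN2 : c ^ 2 * (ℓ ^ d) ^ 2 ≤ (M.N : ℝ) ^ 2 := by
      rw [hN, ← mul_pow]
      exact pow_le_pow_left₀ (by positivity) (hmx ℓ hℓ1) 2
    have h1 : 1 ≤ ℓ ^ d := one_le_pow₀ hℓ1
    calc C ≤ c ^ 2 * (K * ℓ ^ d) := hκ3.trans hκℓ
      _ ≤ (c ^ 2 * (K * ℓ ^ d)) * ℓ ^ d := le_mul_of_one_le_right (by positivity) h1
      _ = K * (c ^ 2 * (ℓ ^ d) ^ 2) := by ring
      _ ≤ K * (M.N : ℝ) ^ 2 := mul_le_mul_of_nonneg_left hN2 hK0.le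
      _ = M.K * M.N ^ 2 := by rw [hMK]
  have hnd := hC E mE M hr hsm hCM p hp
  have hBℓ : (2 * a) * (B * ℓ) = R := by
    rw [hℓdef]
    field_simp
  refine transition_scale ha ?_
  have hu : (fun x : Fin d → ℝ => uu J K R ((2 * a) • x)) = uu J K (B * ℓ) := by
    funext x
    unfold uu
    rw [smul_smul]
    congr 3
    rw [← hBℓ]
    have h2 : (0 : ℝ) < B * ℓ := by positivity
    field_simp
  rw [hu]
  refine transition_of_kink hd1 hJ hℓ2 (by positivity) hK0.le (hp.convex hd1) (fun μ => ?_) hnd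
  have h1 := hp μ
  simp only [hxi] at h1
  exact h1

end End

theorem main (d : ℕ) (hd : 2 ≤ d) (J : (Fin d → ℝ) → ℝ) (hJm : Measurable J)
    (hJc : ∀ᵐ x, ContinuousAt J x) (hJ0 : ∀ x, 0 ≤ J x) (hJb : ∃ C, ∀ x, J x ≤ C)
    (hJe : ∀ x, J (-x) = J x) (hJs : ∃ r, ∀ x, J x ≠ 0 → ∀ k, |x k| ≤ r) (hJp : 0 < ∫ x, J x) :
    ∃ lam κ : ℝ, 0 < lam ∧ 0 < κ ∧ ∀ a R K : ℝ, 0 < a → lam * a ≤ R → κ * (a / R) ^ d ≤ K →
      Transition d a fun x => K * J (R⁻¹ • x) := by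
  obtain ⟨C0, hC0⟩ := hJb
  obtain ⟨r0, hr0⟩ := hJs
  set C : ℝ := max C0 1 with hCdef
  set r : ℝ := max r0 1 with hrdef
  have hC : 0 < C := lt_max_of_lt_right one_pos
  have hr : 0 < r := lt_max_of_lt_right one_pos
  set J' : (Fin d → ℝ) → ℝ := fun x => C⁻¹ * J (r • x) with hJ'
  have hAd : Ad J' := by
    refine ⟨?_, fun x => ?_, fun x => ?_, fun x => ?_, fun x hx k => ?_⟩
    · exact (hJm.comp (measurable_const_smul r)).const_mul _
    · exact mul_nonneg (inv_nonneg.2 hC.le) (hJ0 _)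
    · rw [hJ']
      simp only
      rw [inv_mul_le_iff₀ hC, mul_one]
      exact (hC0 _).trans (le_max_left _ _)
    · simp only [hJ', smul_neg, hJe]
    · have h1 : J (r • x) ≠ 0 := fun h => hx (by simp only [hJ', h, mul_zero])
      have h2 := hr0 _ h1 k
      rw [Pi.smul_apply, smul_eq_mul, abs_mul, abs_of_pos hr] at h2
      have h3 : r * |x k| ≤ r * 1 := by
        rw [mul_one]
        exact h2.trans (le_max_left _ _)
      exact le_of_mul_le_mul_left h3 hr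
  have hc' : ∀ᵐ x, ContinuousAt J' x := by
    have h1 : Measure.QuasiMeasurePreserving (fun x : Fin d → ℝ => r • x) volume volume := by
      refine ⟨measurable_const_smul r, ?_⟩
      rw [Measure.map_addHaar_smul volume hr.ne']
      exact Measure.smul_absolutelyContinuous
    have h2 := h1.ae hJc
    filter_upwards [h2] with x hx
    have h3 : ContinuousAt (fun y : Fin d → ℝ => r • y) x := by fun_prop
    have h4 : ContinuousAt (J ∘ fun y : Fin d → ℝ => r • y) x := ContinuousAt.comp hx h3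
    exact continuousAt_const.mul h4
  have hp' : 0 < ∫ x, J' x := by
    rw [hJ']
    rw [integral_const_mul, Measure.integral_comp_smul volume J r]
    have h1 : 0 < |(r ^ Module.finrank ℝ (Fin d → ℝ))⁻¹| := by positivity
    rw [smul_eq_mul]
    positivity
  obtain ⟨lam, κ, hlam, hκ, hmain⟩ := End.main1 d hd hAd hc' hp'
  refine ⟨lam / r, κ / (C * r ^ d), by positivity, by positivity, fun a R K ha hR hK => ?_⟩
  have hR0 : 0 < R := lt_of_lt_of_le (by positivity) hR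
  have h1 : lam * a ≤ r * R := by
    rw [div_mul_eq_mul_div, div_le_iff₀ hr] at hR
    linarith
  have h2 : κ * (a / (r * R)) ^ d ≤ C * K := by
    calc κ * (a / (r * R)) ^ d = C * (κ / (C * r ^ d) * (a / R) ^ d) := by
          rw [div_pow, div_pow, mul_pow]
          field_simp
      _ ≤ C * K := mul_le_mul_of_nonneg_left hK hC.le
  have h3 := hmain a (r * R) (C * K) ha h1 h2
  have h4 : (fun x : Fin d → ℝ => K * J (R⁻¹ • x)) = uu J' (C * K) (r * R) := by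
    funext x
    unfold uu
    simp only [hJ']
    rw [smul_smul, show r * (r * R)⁻¹ = R⁻¹ by field_simp]
    field_simp
  rw [h4]
  exact h3

end Pool.Agent.Kac
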