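import Pool.Agent.Lib.MP_09cbbd_kc.GeoD

/-!
# The weights of a pair interaction: small oscillation and a region of attraction
-/

set_option autoImplicit false

namespace Pool.Agent.Kac

open MeasureTheory Finset Filter Topology Pool.Agent.StableGas Pool.Agent.SquareWell

variable {d : ℕ}

namespace GeoB

/-- The cell of a point. -/
noncomputable def fl (B : ℕ) (x : Fin d → ℝ) : Zd d := fun k => ⌊(B : ℝ) * x k⌋

theorem Dif_nonempty {B : ℕ} (hB : 1 ≤ B) (v : Zd d) : (Dif B v).Nonempty := by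
  have hB0 : (B : ℝ) ≠ 0 := by positivity
  refine ⟨fun k => (v k : ℝ) / B, fun k => ?_⟩
  have h : (B : ℝ) * ((v k : ℝ) / B) - v k = 0 := by field_simp; ring
  rw [h, abs_zero]
  exact one_pos

theorem JU_le {J : (Fin d → ℝ) → ℝ} {B : ℕ} (hB : 1 ≤ B) (v : Zd d) {c : ℝ}
    (h : ∀ x ∈ Dif B v, J x ≤ c) : JU J B v ≤ c := by
  unfold JU
  refine csSup_le ((Dif_nonempty hB v).image J) ?_
  rintro _ ⟨x, hx, rfl⟩
  exact h x hx

theorem le_JL {J : (Fin d → ℝ) → ℝ} {B : ℕ} (hB : 1 ≤ B) {v : Zd d} (hv : v ≠ 0) {c : ℝ}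
    (h : ∀ x ∈ Dif B v, c ≤ J x) : c ≤ JL J B v := by
  unfold JL
  rw [if_neg hv]
  refine le_csInf ((Dif_nonempty hB v).image J) ?_
  rintro _ ⟨x, hx, rfl⟩
  exact h x hx

theorem JL_nonneg {J : (Fin d → ℝ) → ℝ} (hJ : Ad J) {B : ℕ} (hB : 1 ≤ B) (v : Zd d) :
    0 ≤ JL J B v := by
  by_cases hv : v = 0
  · unfold JL
    rw [if_pos hv]
  · exact le_JL hB hv fun x _ => hJ.nonneg x

theorem osc_le_one {J : (Fin d → ℝ) → ℝ} (hJ : Ad J) {B : ℕ} (hB : 1 ≤ B) (v : Zd d) :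
    JU J B v - JL J B v ≤ 1 := by
  have h1 := JU_le (J := J) hB v fun x _ => hJ.le_one x
  have h2 := JL_nonneg hJ hB v
  linarith

/-- The points of the neighbouring cells are near. -/
theorem near_of_Dif {B : ℕ} (hB : 1 ≤ B) {x y : Fin d → ℝ} (hy : y ∈ Dif B (fl B x)) :
    dist y x ≤ 2 / B := by
  have hB0 : (0 : ℝ) < B := by exact_mod_cast hB
  refine (dist_pi_le_iff (by positivity)).2 fun k => ?_
  have h1 := hy k
  have h2 : ((fl B x k : ℤ) : ℝ) ≤ B * x k := Int.floor_le _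
  have h3 : (B : ℝ) * x k < (fl B x k : ℤ) + 1 := Int.lt_floor_add_one _
  rw [abs_lt] at h1
  rw [Real.dist_eq, abs_le, neg_le, neg_sub, le_div_iff₀ hB0, le_div_iff₀ hB0]
  constructor <;> nlinarith [h1.1, h1.2]

/-- The weights as a function. -/
noncomputable def Fn (J : (Fin d → ℝ) → ℝ) (B : ℕ) (x : Fin d → ℝ) : ENNReal :=
  ∑ v ∈ SB d B, ({x | fl B x = v} : Set (Fin d → ℝ)).indicator
    (fun _ => ENNReal.ofReal (JU J B v - JL J B v)) x

theorem Fn_eq (J : (Fin d → ℝ) → ℝ) (B : ℕ) (x : Fin d → ℝ) :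
    Fn J B x = if fl B x ∈ SB d B then
      ENNReal.ofReal (JU J B (fl B x) - JL J B (fl B x)) else 0 := by
  unfold Fn
  rw [← Finset.sum_ite_eq (SB d B) (fl B x) fun v => ENNReal.ofReal (JU J B v - JL J B v)]
  refine sum_congr rfl fun v _ => ?_
  by_cases h : fl B x = v
  · have h' : x ∈ ({x | fl B x = v} : Set (Fin d → ℝ)) := h
    rw [Set.indicator_of_mem h', if_pos h]
  · have h' : x ∉ ({x | fl B x = v} : Set (Fin d → ℝ)) := h
    rw [Set.indicator_of_notMem h', if_neg h]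

theorem cell_eq {B : ℕ} (hB : 1 ≤ B) (v : Zd d) : ({x | fl B x = v} : Set (Fin d → ℝ)) =
    Set.pi Set.univ fun k => Set.Ico ((v k : ℝ) / B) (((v k : ℝ) + 1) / B) := by
  have hB0 : (0 : ℝ) < B := by exact_mod_cast hB
  ext x
  rw [Set.mem_univ_pi]
  have h1 : x ∈ ({x | fl B x = v} : Set (Fin d → ℝ)) ↔ ∀ k, ⌊(B : ℝ) * x k⌋ = v k :=
    ⟨fun h k => congrFun (h : fl B x = v) k, fun h => funext h⟩
  rw [h1]
  refine forall_congr' fun k => ?_
  rw [Int.floor_eq_iff, Set.mem_Ico, div_le_iff₀ hB0, lt_div_iff₀ hB0, mul_comm (x k)]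

theorem measurableSet_cell {B : ℕ} (hB : 1 ≤ B) (v : Zd d) :
    MeasurableSet ({x | fl B x = v} : Set (Fin d → ℝ)) := by
  rw [cell_eq hB]
  exact MeasurableSet.univ_pi fun _ => measurableSet_Ico

theorem volume_cell {B : ℕ} (hB : 1 ≤ B) (v : Zd d) :
    volume ({x | fl B x = v} : Set (Fin d → ℝ)) = ENNReal.ofReal (1 / (B : ℝ) ^ d) := by
  have hB0 : (0 : ℝ) < B := by exact_mod_cast hB
  rw [cell_eq hB, volume_pi_pi]
  have h1 : ∀ k ∈ (univ : Finset (Fin d)),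
      volume (Set.Ico ((v k : ℝ) / B) (((v k : ℝ) + 1) / B)) = ENNReal.ofReal (1 / B) := by
    intro k _
    rw [Real.volume_Ico]
    congr 1
    field_simp
    ring
  rw [prod_congr rfl h1, prod_const, card_univ, Fintype.card_fin,
    ← ENNReal.ofReal_pow (by positivity), one_div_pow]

theorem measurable_Fn (J : (Fin d → ℝ) → ℝ) {B : ℕ} (hB : 1 ≤ B) : Measurable (Fn J B) := by
  unfold Fn
  exact Finset.measurable_sum _ fun v _ => measurable_const.indicator (measurableSet_cell hB v)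

theorem lintegral_Fn (J : (Fin d → ℝ) → ℝ) {B : ℕ} (hB : 1 ≤ B) :
    ∫⁻ x, Fn J B x = ∑ v ∈ SB d B,
      ENNReal.ofReal (JU J B v - JL J B v) * ENNReal.ofReal (1 / (B : ℝ) ^ d) := by
  unfold Fn
  rw [lintegral_finsetSum _ fun v _ => measurable_const.indicator (measurableSet_cell hB v)]
  refine sum_congr rfl fun v _ => ?_
  rw [lintegral_indicator_const (measurableSet_cell hB v), volume_cell hB]

/-- The fixed cube. -/
def Q (d : ℕ) : Set (Fin d → ℝ) := Set.pi Set.univ fun _ => Set.Icc (-1) 2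

theorem mem_Q {B : ℕ} (hB : 1 ≤ B) {x : Fin d → ℝ} (h : fl B x ∈ SB d B) : x ∈ Q d := by
  have hB0 : (1 : ℝ) ≤ B := by exact_mod_cast hB
  unfold SB at h
  rw [Fintype.mem_piFinset] at h
  rw [Q, Set.mem_univ_pi]
  intro k
  have h1 := Finset.mem_Icc.1 (h k)
  have h2 : ((fl B x k : ℤ) : ℝ) ≤ B * x k := Int.floor_le _
  have h3 : (B : ℝ) * x k < (fl B x k : ℤ) + 1 := Int.lt_floor_add_one _
  have h4 : (-(B : ℝ)) ≤ (fl B x k : ℤ) := by exact_mod_cast h1.1
  have h5 : ((fl B x k : ℤ) : ℝ) ≤ B := by exact_mod_cast h1.2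
  constructor
  · by_contra hx
    push Not at hx
    nlinarith
  · by_contra hx
    push Not at hx
    nlinarith

theorem Fn_le {J : (Fin d → ℝ) → ℝ} (hJ : Ad J) {B : ℕ} (hB : 1 ≤ B) (x : Fin d → ℝ) :
    Fn J B x ≤ (Q d).indicator 1 x := by
  rw [Fn_eq]
  split_ifs with h
  · rw [Set.indicator_of_mem (mem_Q hB h), Pi.one_apply, ← ENNReal.ofReal_one]
    exact ENNReal.ofReal_le_ofReal (osc_le_one hJ hB _)
  · exact zero_le

theorem lintegral_Q : ∫⁻ x, (Q d).indicator 1 x ≠ ⊤ := by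
  have h : MeasurableSet (Q d) := MeasurableSet.univ_pi fun _ => measurableSet_Icc
  rw [lintegral_indicator_one h, Q, volume_pi_pi]
  refine ENNReal.prod_ne_top fun k _ => ?_
  rw [Real.volume_Icc]
  exact ENNReal.ofReal_ne_top

theorem fl_ne_zero {x : Fin d → ℝ} (hx : x ≠ 0) : ∀ᶠ B : ℕ in atTop, fl B x ≠ 0 := by
  obtain ⟨k, hk⟩ := Function.ne_iff.1 hx
  have hk' : x k ≠ 0 := hk
  rcases lt_or_gt_of_ne hk' with h | h
  · filter_upwards [eventually_ge_atTop 1] with B hB h0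
    have hB0 : (0 : ℝ) < B := by exact_mod_cast hB
    have h1 : ⌊(B : ℝ) * x k⌋ = 0 := congrFun h0 k
    have h2 := Int.floor_le ((B : ℝ) * x k)
    rw [h1] at h2
    push_cast at h2
    nlinarith
  · obtain ⟨n, hn⟩ := exists_nat_gt (1 / x k)
    filter_upwards [eventually_ge_atTop n] with B hB h0
    have hB0 : (n : ℝ) ≤ B := by exact_mod_cast hB
    have h1 : ⌊(B : ℝ) * x k⌋ = 0 := congrFun h0 k
    have h2 := Int.lt_floor_add_one ((B : ℝ) * x k)
    rw [h1] at h2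
    push_cast at h2
    rw [div_lt_iff₀ h] at hn
    nlinarith

theorem tendsto_Fn {J : (Fin d → ℝ) → ℝ} {x : Fin d → ℝ} (hx : x ≠ 0) (hc : ContinuousAt J x) :
    Tendsto (fun B : ℕ => Fn J B x) atTop (𝓝 0) := by
  rw [ENNReal.tendsto_nhds_zero]
  intro δ hδ
  -- a real number below
  obtain ⟨η, hη, hηδ⟩ : ∃ η : ℝ, 0 < η ∧ ENNReal.ofReal (2 * η) ≤ δ := by
    by_cases h : δ = ⊤
    · exact ⟨1, one_pos, by rw [h]; exact le_top⟩
    · refine ⟨δ.toReal / 2, half_pos (ENNReal.toReal_pos hδ.ne' h), ?_⟩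
      rw [mul_div_cancel₀ _ two_ne_zero, ENNReal.ofReal_toReal h]
  obtain ⟨r, hr, hrJ⟩ := Metric.continuousAt_iff.1 hc η hη
  obtain ⟨n, hn⟩ := exists_nat_gt (2 / r)
  filter_upwards [fl_ne_zero hx, eventually_ge_atTop n, eventually_ge_atTop 1] with B h1 h2 h3
  have hB0 : (0 : ℝ) < B := by exact_mod_cast h3
  have h4 : (2 : ℝ) / B < r := by
    have : (n : ℝ) ≤ B := by exact_mod_cast h2
    rw [div_lt_iff₀ hr] at hn
    rw [div_lt_iff₀ hB0]
    nlinarith
  rw [Fn_eq]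
  split_ifs with h
  · refine le_trans (ENNReal.ofReal_le_ofReal ?_) hηδ
    have h5 : ∀ y ∈ Dif B (fl B x), |J y - J x| < η := by
      intro y hy
      have := hrJ ((near_of_Dif h3 hy).trans_lt h4)
      rwa [Real.dist_eq] at this
    have h6 := JU_le (J := J) h3 (fl B x) (c := J x + η) fun y hy => by
      have := (abs_lt.1 (h5 y hy)).2
      linarith
    have h7 := le_JL (J := J) h3 h1 (c := J x - η) fun y hy => by
      have := (abs_lt.1 (h5 y hy)).1
      linarith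
    linarith
  · exact zero_le

theorem ae_ne_zero (hd : 1 ≤ d) : ∀ᵐ x : Fin d → ℝ, x ≠ 0 := by
  have : Nonempty (Fin d) := ⟨⟨0, hd⟩⟩
  have h : volume ({0} : Set (Fin d → ℝ)) = 0 := by
    exact measure_singleton _
  rw [ae_iff]
  convert h using 2
  ext x
  simp

end GeoB

open GeoB

/-- Few pairs of cells with a large oscillation of the interaction. -/
theorem osc_small (hd : 1 ≤ d) {J : (Fin d → ℝ) → ℝ} (hJ : Ad J) (hc : ∀ᵐ x, ContinuousAt J x)
    {ε : ℝ} (hε : 0 < ε) : ∃ B0 : ℕ, ∀ B : ℕ, B0 ≤ B →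
      ∑ v ∈ SB d B, (JU J B v - JL J B v) ≤ ε * B ^ d := by
  have h1 : Tendsto (fun n : ℕ => ∫⁻ x, Fn J (n + 1) x) atTop
      (𝓝 (∫⁻ _x : Fin d → ℝ, (0 : ENNReal))) := by
    refine tendsto_lintegral_of_dominated_convergence ((Q d).indicator 1)
      (fun n => measurable_Fn J (Nat.le_add_left 1 n))
      (fun n => Eventually.of_forall fun x => Fn_le hJ (Nat.le_add_left 1 n) x) lintegral_Q ?_
    filter_upwards [hc, ae_ne_zero hd] with x hx hx0
    exact (tendsto_add_atTop_iff_nat 1).2 (tendsto_Fn hx0 hx)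
  rw [lintegral_zero] at h1
  have h2 : ∀ᶠ n : ℕ in atTop, ∫⁻ x, Fn J (n + 1) x < ENNReal.ofReal ε :=
    h1.eventually (gt_mem_nhds (ENNReal.ofReal_pos.2 hε))
  obtain ⟨n0, hn0⟩ := eventually_atTop.1 h2
  refine ⟨n0 + 1, fun B hB => ?_⟩
  obtain ⟨n, rfl⟩ : ∃ n, B = n + 1 := ⟨B - 1, by omega⟩
  have h3 := hn0 n (by omega)
  rw [lintegral_Fn J (Nat.le_add_left 1 n), ← Finset.sum_mul] at h3
  set B := n + 1 with hBdef
  have hB0 : (0 : ℝ) < B := by exact_mod_cast Nat.succ_pos n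
  have h4 : ENNReal.ofReal (∑ v ∈ SB d B, (JU J B v - JL J B v))
      ≤ ∑ v ∈ SB d B, ENNReal.ofReal (JU J B v - JL J B v) := by
    classical
    refine Finset.induction_on (SB d B) (by simp) fun a s ha ih => ?_
    rw [sum_insert ha, sum_insert ha]
    exact ENNReal.ofReal_add_le.trans (add_le_add le_rfl ih)
  have h5 : ENNReal.ofReal ((∑ v ∈ SB d B, (JU J B v - JL J B v)) * (1 / (B : ℝ) ^ d))
      < ENNReal.ofReal ε := by
    refine lt_of_le_of_lt ?_ h3
    rw [ENNReal.ofReal_mul' (by positivity)]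
    exact mul_le_mul' h4 le_rfl
  have h6 := (ENNReal.ofReal_lt_ofReal_iff hε).1 h5
  rw [mul_one_div, div_lt_iff₀ (by positivity)] at h6
  exact h6.le

/-- Many pairs of cells which attract. -/
theorem low_large (hd : 1 ≤ d) {J : (Fin d → ℝ) → ℝ} (hJ : Ad J) (hc : ∀ᵐ x, ContinuousAt J x)
    (hp : 0 < ∫ x, J x) : ∃ (θ s : ℝ) (x0 : Fin d → ℝ) (B0 : ℕ), 0 < θ ∧ 0 < s ∧ ∀ B : ℕ, B0 ≤ B →
      ∀ v : Zd d, (∀ k, |(v k : ℝ) - B * x0 k| ≤ s * B) → v ∈ SB d B ∧ θ ≤ JL J B v := by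
  -- a continuity point different from 0 with a positive value
  obtain ⟨x0, hx0, hx1, hx2⟩ : ∃ x : Fin d → ℝ, x ≠ 0 ∧ ContinuousAt J x ∧ 0 < J x := by
    by_contra hno
    push Not at hno
    have h1 : J =ᵐ[volume] 0 := by
      filter_upwards [hc, ae_ne_zero hd] with x h2 h3
      exact le_antisymm (hno x h3 h2) (hJ.nonneg x)
    rw [integral_eq_zero_of_ae h1] at hp
    exact lt_irrefl _ hp
  obtain ⟨r, hr, hrJ⟩ := Metric.continuousAt_iff.1 hx1 (J x0 / 2) (half_pos hx2)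
  have hnorm : 0 < ‖x0‖ := norm_pos_iff.2 hx0
  obtain ⟨n, hn⟩ := exists_nat_gt (2 / r)
  refine ⟨J x0 / 2, min (r / 4) (‖x0‖ / 2), x0, n + 1, half_pos hx2, by positivity,
    fun B hB v hv => ?_⟩
  have hB1 : 1 ≤ B := by omega
  have hB0 : (0 : ℝ) < B := by exact_mod_cast hB1
  have hs1 : min (r / 4) (‖x0‖ / 2) ≤ r / 4 := min_le_left _ _
  have hs2 : min (r / 4) (‖x0‖ / 2) ≤ ‖x0‖ / 2 := min_le_right _ _
  have hBr : 2 < r * B := by
    have : (n : ℝ) + 1 ≤ B := by exact_mod_cast hB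
    rw [div_lt_iff₀ hr] at hn
    nlinarith
  -- points near `v / B` are near `x0`
  have key : ∀ y : Fin d → ℝ, (∀ k, |(B : ℝ) * y k - v k| < 1) → J x0 / 2 < J y := by
    intro y hy
    have h1 : dist y x0 < r := by
      rw [dist_pi_lt_iff hr]
      intro k
      have h2 := abs_lt.1 (hy k)
      have h3 := abs_le.1 (hv k)
      rw [Real.dist_eq, abs_lt]
      constructor
      · by_contra hcon
        push Not at hcon
        nlinarith [h2.1, h3.1]
      · by_contra hcon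
        push Not at hcon
        nlinarith [h2.2, h3.2]
    have h4 := hrJ h1
    rw [Real.dist_eq, abs_lt] at h4
    linarith [h4.1]
  have hv0 : v ≠ 0 := by
    rintro rfl
    have h1 : ‖x0‖ ≤ ‖x0‖ / 2 := by
      refine (pi_norm_le_iff_of_nonneg (by positivity)).2 fun k => ?_
      have h2 := hv k
      rw [Pi.zero_apply, Int.cast_zero, zero_sub, abs_neg, abs_mul, abs_of_pos hB0] at h2
      rw [Real.norm_eq_abs]
      by_contra hcon
      push Not at hcon
      nlinarith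
    linarith
  refine ⟨?_, le_JL hB1 hv0 fun y hy => (key y hy).le⟩
  unfold SB
  rw [Fintype.mem_piFinset]
  intro k
  have h1 := key (fun k => (v k : ℝ) / B) fun k => by
    have h : (B : ℝ) * ((v k : ℝ) / B) - v k = 0 := by field_simp; ring
    rw [h, abs_zero]
    exact one_pos
  have h2 := hJ.supp (fun k => (v k : ℝ) / B) (by linarith : (0 : ℝ) < _).ne' k
  rw [abs_div, abs_of_pos hB0, div_le_one hB0, abs_le] at h2
  rw [Finset.mem_Icc]
  exact ⟨by exact_mod_cast h2.1, by exact_mod_cast h2.2⟩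

end Pool.Agent.Kac
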