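import Pool.Agent.Lib.MP_09cbbd_kc.ModD

/-!
# The gas on cells: pointwise properties and measurability
-/

set_option autoImplicit false

namespace Pool.Agent.Kac.ModD

open MeasureTheory Finset Filter Topology Pool.Agent.StableGas Pool.Agent.SquareWellGas
  Pool.Agent.SquareWell Pool.Agent.KacGas

variable {d : ℕ} {ℓ K R : ℝ} {J : (Fin d → ℝ) → ℝ} {B : ℕ}

theorem measurable_uu (hJ : Ad J) : Measurable (uu J K R) := by
  unfold uu
  exact (hJ.meas.comp (measurable_const_smul R⁻¹)).const_mul K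

theorem uu_neg (hJ : Ad J) (x : Fin d → ℝ) : uu J K R (-x) = uu J K R x := by
  unfold uu
  rw [smul_neg, hJ.even]

theorem uu_nonneg (hJ : Ad J) (hK : 0 < K) (x : Fin d → ℝ) : 0 ≤ uu J K R x :=
  mul_nonneg hK.le (hJ.nonneg _)

theorem uu_le (hJ : Ad J) (hK : 0 < K) (x : Fin d → ℝ) : uu J K R x ≤ K := by
  unfold uu
  have h := mul_le_mul_of_nonneg_left (hJ.le_one (R⁻¹ • x)) hK.le
  rwa [mul_one] at h

/-- The rescaled difference of two points. -/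
theorem dif_mem (hB : 1 ≤ B) (hℓ : 0 < ℓ) (v : Zd d) {a b : Fin d → ℝ}
    (ha : a ∈ Box d ℓ) (hb : b ∈ Box d ℓ) :
    -(((B : ℝ) * ℓ)⁻¹ • (a - fun k => b k + ℓ * v k)) ∈ Dif B v := by
  intro k
  have hB0 : (0 : ℝ) < B := by exact_mod_cast hB
  have a1 := ha k
  have b1 := hb k
  rw [Set.mem_Ico] at a1 b1
  have e1 : (B : ℝ) * (-(((B : ℝ) * ℓ)⁻¹ • (a - fun k => b k + ℓ * v k))) k - v k =
      (b k - a k) / ℓ := by
    simp only [Pi.neg_apply, Pi.smul_apply, Pi.sub_apply, smul_eq_mul]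
    field_simp
    ring
  rw [e1, abs_div, abs_of_pos hℓ, div_lt_one hℓ, abs_lt]
  constructor <;> linarith

theorem bddAbove_J (hJ : Ad J) (s : Set (Fin d → ℝ)) : BddAbove (J '' s) :=
  ⟨1, by rintro _ ⟨x, _, rfl⟩; exact hJ.le_one x⟩

theorem bddBelow_J (hJ : Ad J) (s : Set (Fin d → ℝ)) : BddBelow (J '' s) :=
  ⟨0, by rintro _ ⟨x, _, rfl⟩; exact hJ.nonneg x⟩

/-- Bounds of the interaction between two cells. -/
theorem uu_up (hJ : Ad J) (hB : 1 ≤ B) (hℓ : 0 < ℓ) (hK : 0 < K) (v : Zd d) {a b : Fin d → ℝ}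
    (ha : a ∈ Box d ℓ) (hb : b ∈ Box d ℓ) :
    uu J K (B * ℓ) (a - fun k => b k + ℓ * v k) ≤ K * JU J B v := by
  unfold uu JU
  refine mul_le_mul_of_nonneg_left ?_ hK.le
  rw [← hJ.even]
  exact le_csSup (bddAbove_J hJ _) ⟨_, dif_mem hB hℓ v ha hb, rfl⟩

theorem uu_lo (hJ : Ad J) (hB : 1 ≤ B) (hℓ : 0 < ℓ) (hK : 0 < K) (v : Zd d) {a b : Fin d → ℝ}
    (ha : a ∈ Box d ℓ) (hb : b ∈ Box d ℓ) :
    K * JL J B v ≤ uu J K (B * ℓ) (a - fun k => b k + ℓ * v k) := by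
  unfold uu JL
  refine mul_le_mul_of_nonneg_left ?_ hK.le
  split_ifs
  · exact hJ.nonneg _
  · rw [← hJ.even]
    exact csInf_le (bddBelow_J hJ _) ⟨_, dif_mem hB hℓ v ha hb, rfl⟩

theorem JU_nonneg (hJ : Ad J) (v : Zd d) : 0 ≤ JU J B v :=
  Real.sSup_nonneg (by rintro _ ⟨x, _, rfl⟩; exact hJ.nonneg x)

namespace Aux

/-! ## Products over the particles -/

theorem cp_eq {N : ℕ} (e : Con d N) (φ : (Fin d → ℝ) → ENNReal) :
    cp e φ = ∏ k ∈ univ.filter (fun k : Fin N => k.val < e.1), φ (e.2 k) := by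
  unfold cp
  rw [prod_filter]

theorem card_le {N : ℕ} (n : ℕ) : (univ.filter fun k : Fin N => k.val < n).card ≤ n := by
  rw [Fin.card_filter_val_lt]
  exact min_le_right _ _

theorem card_eq {N n : ℕ} (h : n ≤ N) : (univ.filter fun k : Fin N => k.val < n).card = n := by
  rw [Fin.card_filter_val_lt]
  exact min_eq_right h

theorem cp_congr {N : ℕ} {e : Con d N} {φ χ : (Fin d → ℝ) → ENNReal}
    (h : ∀ k : Fin N, k.val < e.1 → φ (e.2 k) = χ (e.2 k)) : cp e φ = cp e χ := by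
  rw [cp_eq, cp_eq]
  exact prod_congr rfl fun k hk => h k (mem_filter.1 hk).2

theorem cp_le {N : ℕ} {e : Con d N} {φ : (Fin d → ℝ) → ENNReal} {t : ℝ} (ht : 0 ≤ t)
    (h : ∀ k : Fin N, k.val < e.1 → φ (e.2 k) ≤ ex t) : cp e φ ≤ ex (t * e.1) := by
  rw [cp_eq]
  calc ∏ k ∈ univ.filter (fun k : Fin N => k.val < e.1), φ (e.2 k)
      ≤ ∏ _k ∈ univ.filter (fun k : Fin N => k.val < e.1), ex t :=
        prod_le_prod' fun k hk => h k (mem_filter.1 hk).2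
    _ = ex ((univ.filter fun k : Fin N => k.val < e.1).card * t) := by
        rw [prod_const, ex_pow]
    _ ≤ ex (t * e.1) := by
        rw [ex_le_ex, mul_comm]
        exact mul_le_mul_of_nonneg_left (by exact_mod_cast card_le e.1) ht

theorem le_cp {N : ℕ} {e : Con d N} {φ : (Fin d → ℝ) → ENNReal} {t : ℝ} (hN : e.1 ≤ N)
    (h : ∀ k : Fin N, k.val < e.1 → ex t ≤ φ (e.2 k)) : ex (t * e.1) ≤ cp e φ := by
  rw [cp_eq]
  calc ex (t * e.1) = ex ((univ.filter fun k : Fin N => k.val < e.1).card * t) := by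
        rw [card_eq hN, mul_comm]
    _ = ∏ k ∈ univ.filter (fun k : Fin N => k.val < e.1), ex t := by
        rw [prod_const, ex_pow]
    _ ≤ _ := prod_le_prod' fun k hk => h k (mem_filter.1 hk).2

theorem one_le_cp {N : ℕ} {e : Con d N} {φ : (Fin d → ℝ) → ENNReal}
    (h : ∀ k : Fin N, k.val < e.1 → 1 ≤ φ (e.2 k)) : 1 ≤ cp e φ := by
  rw [cp_eq]
  exact one_le_prod' fun k hk => h k (mem_filter.1 hk).2

theorem cp_one {N : ℕ} {e : Con d N} {φ : (Fin d → ℝ) → ENNReal}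
    (h : ∀ k : Fin N, k.val < e.1 → φ (e.2 k) = 1) : cp e φ = 1 := by
  rw [cp_eq]
  exact prod_eq_one fun k hk => h k (mem_filter.1 hk).2

theorem cp_z0 (φ : (Fin d → ℝ) → ENNReal) : cp (z0 d ℓ) φ = 1 :=
  cp_one fun _ hk => absurd hk (Nat.not_lt_zero _)

theorem sp_z0 {u : (Fin d → ℝ) → ℝ} : sp u (z0 d ℓ) = 1 := by
  unfold sp
  refine prod_eq_one fun k _ => prod_eq_one fun l _ => if_neg fun h => ?_
  exact Nat.not_lt_zero _ h.1

theorem cp_mul {N : ℕ} (e : Con d N) (φ χ : (Fin d → ℝ) → ENNReal) :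
    cp e (fun a => φ a * χ a) = cp e φ * cp e χ := by
  rw [cp_eq, cp_eq, cp_eq, prod_mul_distrib]

theorem cp_comm {N : ℕ} (e f : Con d N) (F : (Fin d → ℝ) → (Fin d → ℝ) → ENNReal) :
    cp e (fun a => cp f fun b => F a b) = cp f fun b => cp e fun a => F a b := by
  simp only [cp_eq]
  exact prod_comm

theorem pp_comm (x y : EE d ℓ) (F : (Fin d → ℝ) → (Fin d → ℝ) → ENNReal) :
    pp ℓ x (fun a => pp ℓ y fun b => F a b) = pp ℓ y fun b => pp ℓ x fun a => F a b := by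
  unfold pp
  simp only [cp_mul]
  rw [cp_comm x.1 y.1, cp_comm x.1 y.2, cp_comm x.2 y.1, cp_comm x.2 y.2]
  ring

/-- Particles. -/
def Pt (x : EE d ℓ) (a : Fin d → ℝ) : Prop :=
  (∃ k : Fin (Nm d ℓ), k.val < x.1.1 ∧ x.1.2 k = a) ∨ ∃ k : Fin (Nm d ℓ), k.val < x.2.1 ∧ x.2.2 k = a

theorem pp_congr {x : EE d ℓ} {φ χ : (Fin d → ℝ) → ENNReal} (h : ∀ a, Pt x a → φ a = χ a) :
    pp ℓ x φ = pp ℓ x χ := by
  unfold pp
  rw [cp_congr fun k hk => h _ (Or.inl ⟨k, hk, rfl⟩), cp_congr fun k hk => h _ (Or.inr ⟨k, hk, rfl⟩)]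

theorem pp_one {x : EE d ℓ} {φ : (Fin d → ℝ) → ENNReal} (h : ∀ a, Pt x a → φ a = 1) :
    pp ℓ x φ = 1 := by
  unfold pp
  rw [cp_one fun k hk => h _ (Or.inl ⟨k, hk, rfl⟩), cp_one fun k hk => h _ (Or.inr ⟨k, hk, rfl⟩),
    one_mul]

theorem one_le_pp {x : EE d ℓ} {φ : (Fin d → ℝ) → ENNReal} (h : ∀ a, Pt x a → 1 ≤ φ a) :
    1 ≤ pp ℓ x φ := by
  unfold pp
  exact one_le_mul (one_le_cp fun k hk => h _ (Or.inl ⟨k, hk, rfl⟩))
    (one_le_cp fun k hk => h _ (Or.inr ⟨k, hk, rfl⟩))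

theorem pp_le {x : EE d ℓ} {φ : (Fin d → ℝ) → ENNReal} {t : ℝ} (ht : 0 ≤ t)
    (h : ∀ a, Pt x a → φ a ≤ ex t) : pp ℓ x φ ≤ ex (t * (x.1.1 + x.2.1 : ℕ)) := by
  unfold pp
  have e1 : t * ((x.1.1 + x.2.1 : ℕ) : ℝ) = t * x.1.1 + t * x.2.1 := by push_cast; ring
  rw [e1, ex_add]
  exact mul_le_mul' (cp_le ht fun k hk => h _ (Or.inl ⟨k, hk, rfl⟩))
    (cp_le ht fun k hk => h _ (Or.inr ⟨k, hk, rfl⟩))

theorem le_pp {x : EE d ℓ} (hx : Vd ℓ x) {φ : (Fin d → ℝ) → ENNReal} {t : ℝ}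
    (h : ∀ a, Pt x a → ex t ≤ φ a) : ex (t * (x.1.1 + x.2.1 : ℕ)) ≤ pp ℓ x φ := by
  unfold pp
  have e1 : t * ((x.1.1 + x.2.1 : ℕ) : ℝ) = t * x.1.1 + t * x.2.1 := by push_cast; ring
  rw [e1, ex_add]
  exact mul_le_mul' (le_cp hx.1.1 fun k hk => h _ (Or.inl ⟨k, hk, rfl⟩))
    (le_cp hx.2.1.1 fun k hk => h _ (Or.inr ⟨k, hk, rfl⟩))

/-! ## Pair factors -/

theorem sq_comm (x y : Fin d → ℝ) : ∑ k, (x k - y k) ^ 2 = ∑ k, (y k - x k) ^ 2 :=
  sum_congr rfl fun k _ => by ring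

theorem one_le_att {u : (Fin d → ℝ) → ℝ} (hu : ∀ x, 0 ≤ u x) (x y : Fin d → ℝ) :
    1 ≤ att u x y := by
  unfold att
  exact one_le_ex.2 (div_nonneg (hu _) (by norm_num))

theorem att_up (hJ : Ad J) (hB : 1 ≤ B) (hℓ : 2 < ℓ) (hK : 0 < K) {a b : Fin d → ℝ}
    (ha : a ∈ Box d ℓ) (hb : b ∈ Box d ℓ) :
    att (uu J K (B * ℓ)) a b ≤ ex (K / 2 * JU J B 0) := by
  have h := uu_up hJ hB (by linarith) hK (0 : Zd d) ha hb
  have e1 : (fun k => b k + ℓ * ((0 : Zd d) k : ℝ)) = b := by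
    funext k
    simp
  rw [e1] at h
  unfold att
  rw [ex_le_ex]
  linarith

theorem psi_up (hJ : Ad J) (hB : 1 ≤ B) (hℓ : 2 < ℓ) (hK : 0 < K) (v : Zd d)
    {a b : Fin d → ℝ} (ha : a ∈ Box d ℓ) (hb : b ∈ Box d ℓ) :
    psi (uu J K (B * ℓ)) a (fun k => b k + ℓ * v k) ≤ ex (K / 2 * JU J B v) := by
  unfold psi
  split_ifs
  · exact zero_le
  · have h := uu_up hJ hB (by linarith) hK v ha hb
    unfold att
    rw [ex_le_ex]
    linarith

theorem psi_lo (hJ : Ad J) (hB : 1 ≤ B) (hℓ : 2 < ℓ) (hK : 0 < K) (v : Zd d)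
    {a b : Fin d → ℝ} (ha : a ∈ Box d ℓ) (hb : b ∈ Box d ℓ)
    (h1 : 1 ≤ ∑ k, (a k - (b k + ℓ * v k)) ^ 2) :
    ex (K / 2 * JL J B v) ≤ psi (uu J K (B * ℓ)) a fun k => b k + ℓ * v k := by
  unfold psi
  rw [if_neg (not_lt.2 h1)]
  have h := uu_lo hJ hB (by linarith) hK v ha hb
  unfold att
  rw [ex_le_ex]
  linarith

theorem measurable_d2 :
    Measurable fun p : (Fin d → ℝ) × (Fin d → ℝ) => ∑ k, (p.1 k - p.2 k) ^ 2 := by
  fun_prop

theorem measurable_att {u : (Fin d → ℝ) → ℝ} (hu : Measurable u) :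
    Measurable fun p : (Fin d → ℝ) × (Fin d → ℝ) => att u p.1 p.2 := by
  have h1 : Measurable fun p : (Fin d → ℝ) × (Fin d → ℝ) => p.1 - p.2 :=
    measurable_fst.sub measurable_snd
  have h2 := (Real.measurable_exp.comp ((hu.comp h1).div_const 2)).ennreal_ofReal
  exact h2

/-! ## Measurability -/

theorem measurable_slot {N : ℕ} (k : Fin N) : Measurable fun e : Con d N => e.2 k :=
  (measurable_pi_apply k).comp measurable_snd

theorem measurableSet_act {N : ℕ} (k : Fin N) : MeasurableSet {e : Con d N | k.val < e.1} :=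
  measurable_fst (measurableSet_Ioi (a := k.val))

theorem measurable_cp {Y : Type} [MeasurableSpace Y] {N : ℕ} {f : Y → Con d N} (hf : Measurable f)
    {φ : Y → (Fin d → ℝ) → ENNReal} (hφ : Measurable fun p : Y × (Fin d → ℝ) => φ p.1 p.2) :
    Measurable fun y => cp (f y) (φ y) := by
  unfold cp
  refine Finset.measurable_prod _ fun k _ => ?_
  have h1 : Measurable fun y => φ y ((f y).2 k) :=
    hφ.comp (measurable_id.prodMk ((measurable_slot k).comp hf))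
  exact Measurable.ite (hf (measurableSet_act k)) h1 measurable_const

theorem measurable_sp {u : (Fin d → ℝ) → ℝ} (hu : Measurable u) {Y : Type} [MeasurableSpace Y]
    {N : ℕ} {f : Y → Con d N} (hf : Measurable f) : Measurable fun y => sp u (f y) := by
  have h0 : Measurable fun e : Con d N => sp u e := by
    unfold sp
    refine Finset.measurable_prod _ fun k _ => Finset.measurable_prod _ fun l _ => ?_
    have h1 : Measurable fun e : Con d N => att u (e.2 k) (e.2 l) := by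
      have h3 := (measurable_att (d := d) hu).comp
        ((measurable_slot (d := d) k).prodMk (measurable_slot (d := d) l))
      exact h3
    have h2 : MeasurableSet {e : Con d N | k.val < e.1 ∧ l.val < e.1 ∧ k ≠ l} :=
      (measurableSet_act k).inter ((measurableSet_act l).inter (MeasurableSet.const (k ≠ l)))
    exact Measurable.ite h2 h1 measurable_const
  exact h0.comp hf

theorem measurableSet_Box : MeasurableSet (Box d ℓ) := by
  have e : Box d ℓ = ⋂ k, {x | x k ∈ Set.Ico (0 : ℝ) ℓ} := by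
    ext x; simp [Box]
  rw [e]
  exact MeasurableSet.iInter fun k => measurable_pi_apply k measurableSet_Ico

theorem measurableSet_Cor : MeasurableSet (Cor d ℓ) := by
  have e : Cor d ℓ = ⋂ k, {x | x k ∈ Set.Ico (1 : ℝ) (ℓ - 1)} := by
    ext x; simp [Cor]
  rw [e]
  exact MeasurableSet.iInter fun k => measurable_pi_apply k measurableSet_Ico

theorem measurableSet_Vd1 {N : ℕ} {T : Set (Fin d → ℝ)} (hT : MeasurableSet T) :
    MeasurableSet {e : Con d N | Vd1 T e} := by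
  have e1 : {e : Con d N | Vd1 T e} = {e | e.1 ≤ N} ∩
      ((⋂ k : Fin N, ({e : Con d N | k.val < e.1}ᶜ ∪ {e | e.2 k ∈ T})) ∩
      ⋂ k : Fin N, ⋂ l : Fin N, ({e : Con d N | k.val < e.1}ᶜ ∪ ({e : Con d N | l.val < e.1}ᶜ ∪
        {e | k ≠ l → (1 : ℝ) ≤ ∑ j, (e.2 k j - e.2 l j) ^ 2}))) := by
    ext e
    simp only [Vd1, Set.mem_inter_iff, Set.mem_ofPred_eq, Set.mem_iInter, Set.mem_union,
      Set.mem_compl_iff]
    constructor
    · rintro ⟨h1, h2, h3⟩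
      refine ⟨h1, fun k => ?_, fun k l => ?_⟩
      · by_cases hk : k.val < e.1
        · exact Or.inr (h2 k hk)
        · exact Or.inl hk
      · by_cases hk : k.val < e.1
        · by_cases hl : l.val < e.1
          · exact Or.inr (Or.inr (h3 k l hk hl))
          · exact Or.inr (Or.inl hl)
        · exact Or.inl hk
    · rintro ⟨h1, h2, h3⟩
      refine ⟨h1, fun k hk => ?_, fun k l hk hl hkl => ?_⟩
      · exact (h2 k).resolve_left (not_not.2 hk)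
      · exact ((h3 k l).resolve_left (not_not.2 hk)).resolve_left (not_not.2 hl) hkl
  rw [e1]
  refine (measurableSet_le measurable_fst measurable_const).inter
    ((MeasurableSet.iInter fun k => (measurableSet_act k).compl.union
      (measurable_slot k hT)).inter
    (MeasurableSet.iInter fun k => MeasurableSet.iInter fun l =>
      (measurableSet_act k).compl.union ((measurableSet_act l).compl.union ?_)))
  by_cases h : k = l
  · simp [h]
  · simp only [ne_eq, h, not_false_eq_true, forall_const]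
    exact measurableSet_le measurable_const
      (measurable_d2.comp ((measurable_slot k).prodMk (measurable_slot l)))

/-! ## Geometry -/

theorem Cor_Box : Cor d ℓ ⊆ Box d ℓ := fun x hx k => by
  have h := hx k
  rw [Set.mem_Ico] at h ⊢
  constructor <;> linarith [h.1, h.2]

theorem bounded_Box : Bornology.IsBounded (Box d ℓ) := by
  have h : Box d ℓ ⊆ Set.pi Set.univ fun _ => Set.Icc (0 : ℝ) ℓ := fun x hx k _ =>
    ⟨(hx k).1, (hx k).2.le⟩
  exact (Bornology.IsBounded.pi fun _ => Metric.isBounded_Icc 0 ℓ).subset h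

theorem Pt_Box {x : EE d ℓ} (hx : Vd ℓ x) {a : Fin d → ℝ} (h : Pt x a) : a ∈ Box d ℓ := by
  rcases h with ⟨k, hk, rfl⟩ | ⟨k, hk, rfl⟩
  · exact Cor_Box (hx.1.2.1 k hk)
  · exact (hx.2.1.2.1 k hk).1

theorem Vd_e00 : Vd ℓ (e00 d ℓ) :=
  ⟨⟨Nat.zero_le _, fun _ hk => absurd hk (Nat.not_lt_zero _),
    fun _ _ hk => absurd hk (Nat.not_lt_zero _)⟩, ⟨Nat.zero_le _,
    fun _ hk => absurd hk (Nat.not_lt_zero _), fun _ _ hk => absurd hk (Nat.not_lt_zero _)⟩,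
    fun _ _ hk => absurd hk (Nat.not_lt_zero _)⟩

theorem Vd_cl (x : EE d ℓ) : Vd ℓ (cl ℓ x) := by
  unfold cl
  split_ifs with h
  · exact h
  · exact Vd_e00

theorem cl_of_Vd {x : EE d ℓ} (h : Vd ℓ x) : cl ℓ x = x := by
  unfold cl
  rw [if_pos h]

theorem Vd_c0 (x : EE d ℓ) : Vd ℓ (c0 ℓ x) :=
  ⟨(Vd_cl x).1, ⟨Nat.zero_le _, fun _ hk => absurd hk (Nat.not_lt_zero _),
    fun _ _ hk => absurd hk (Nat.not_lt_zero _)⟩, fun _ _ _ hl => absurd hl (Nat.not_lt_zero _)⟩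

theorem cl_c0 (x : EE d ℓ) : cl ℓ (c0 ℓ x) = c0 ℓ x := cl_of_Vd (Vd_c0 x)

theorem cl_core {x : EE d ℓ} (h : c0 ℓ x = x) : (cl ℓ x).2 = z0 d ℓ := by
  rw [← h, cl_c0]
  rfl

theorem Pt_core {x : EE d ℓ} (h : c0 ℓ x = x) {a : Fin d → ℝ} (ha : Pt (cl ℓ x) a) :
    a ∈ Cor d ℓ := by
  rcases ha with ⟨k, hk, rfl⟩ | ⟨k, hk, rfl⟩
  · exact (Vd_cl x).1.2.1 k hk
  · rw [cl_core h] at hk
    exact absurd hk (Nat.not_lt_zero _)

theorem card_le_mx {κ : Type} {T0 : Set (Fin d → ℝ)} (hR : Bornology.IsBounded T0) (T : Finset κ)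
    (x : κ → Fin d → ℝ) (h1 : ∀ a ∈ T, x a ∈ T0)
    (h2 : ∀ a ∈ T, ∀ b ∈ T, a ≠ b → 1 ≤ ∑ k, (x a k - x b k) ^ 2) : T.card ≤ mx T0 := by
  refine le_mx hR ⟨fun i => x (T.equivFin.symm i), fun i => h1 _ (T.equivFin.symm i).2,
    fun i j hij => h2 _ (T.equivFin.symm i).2 _ (T.equivFin.symm j).2 fun h => hij ?_⟩
  exact T.equivFin.symm.injective (Subtype.ext h)

theorem sq_far (hℓ : 2 < ℓ) {a b : Fin d → ℝ} {v : Zd d} (hv : v ≠ 0)
    (ha : a ∈ Box d ℓ) (hb : b ∈ Box d ℓ)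
    (h : v ∉ Nb 0 ∨ a ∈ Cor d ℓ ∨ b ∈ Cor d ℓ) : 1 ≤ ∑ k, (a k - (b k + ℓ * v k)) ^ 2 := by
  obtain ⟨k, hk⟩ : ∃ k, 1 ≤ (a k - (b k + ℓ * v k)) ^ 2 := by
    have hf : ∀ k, 1 ≤ |a k - (b k + ℓ * v k)| → 1 ≤ (a k - (b k + ℓ * v k)) ^ 2 := by
      intro k hk
      rw [← sq_abs]
      nlinarith
    by_cases hn : v ∈ Nb 0
    · obtain ⟨k, hk⟩ : ∃ k, v k ≠ 0 := by
        by_contra hc
        push Not at hc
        exact hv (funext hc)
      refine ⟨k, hf k ?_⟩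
      have a1 := ha k
      have b1 := hb k
      rw [Set.mem_Ico] at a1 b1
      have hcase : v k ≤ -1 ∨ 1 ≤ v k := by omega
      rcases h.resolve_left (not_not.2 hn) with h | h
      · have a2 := h k
        rw [Set.mem_Ico] at a2
        rcases hcase with h5 | h5
        · have h6 : (v k : ℝ) ≤ -1 := by exact_mod_cast h5
          rw [le_abs]
          left
          nlinarith
        · have h6 : (1 : ℝ) ≤ v k := by exact_mod_cast h5
          rw [le_abs]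
          right
          nlinarith
      · have b2 := h k
        rw [Set.mem_Ico] at b2
        rcases hcase with h5 | h5
        · have h6 : (v k : ℝ) ≤ -1 := by exact_mod_cast h5
          rw [le_abs]
          left
          nlinarith
        · have h6 : (1 : ℝ) ≤ v k := by exact_mod_cast h5
          rw [le_abs]
          right
          nlinarith
    · obtain ⟨k, hk⟩ : ∃ k, v k ≤ -2 ∨ 2 ≤ v k := by
        by_contra hc
        push Not at hc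
        refine hn (mem_Nb.2 fun k => ?_)
        have h1 := hc k
        simp only [Pi.zero_apply]
        omega
      refine ⟨k, hf k ?_⟩
      have a1 := ha k
      have b1 := hb k
      rw [Set.mem_Ico] at a1 b1
      rcases hk with h5 | h5
      · have h6 : (v k : ℝ) ≤ -2 := by exact_mod_cast h5
        rw [le_abs]
        left
        nlinarith
      · have h6 : (2 : ℝ) ≤ v k := by exact_mod_cast h5
        rw [le_abs]
        right
        nlinarith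
  exact hk.trans (single_le_sum (f := fun k => (a k - (b k + ℓ * v k)) ^ 2)
    (fun _ _ => sq_nonneg _) (mem_univ k))

end Aux

open Aux

theorem measurableSet_Vd : MeasurableSet {x : EE d ℓ | Vd ℓ x} := by
  have e1 : {x : EE d ℓ | Vd ℓ x} = {x | Vd1 (Cor d ℓ) x.1} ∩
      ({x | Vd1 (Box d ℓ \ Cor d ℓ) x.2} ∩ ⋂ k : Fin (Nm d ℓ), ⋂ l : Fin (Nm d ℓ),
        ({x : EE d ℓ | k.val < x.1.1}ᶜ ∪ ({x : EE d ℓ | l.val < x.2.1}ᶜ ∪
          {x | (1 : ℝ) ≤ ∑ j, (x.1.2 k j - x.2.2 l j) ^ 2}))) := by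
    ext x
    simp only [Vd, Set.mem_inter_iff, Set.mem_ofPred_eq, Set.mem_iInter, Set.mem_union,
      Set.mem_compl_iff]
    refine and_congr_right fun _ => and_congr_right fun _ => ⟨fun h k l => ?_, fun h k l hk hl => ?_⟩
    · by_cases hk : k.val < x.1.1
      · by_cases hl : l.val < x.2.1
        · exact Or.inr (Or.inr (h k l hk hl))
        · exact Or.inr (Or.inl hl)
      · exact Or.inl hk
    · exact ((h k l).resolve_left (not_not.2 hk)).resolve_left (not_not.2 hl)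
  rw [e1]
  refine (measurable_fst (measurableSet_Vd1 measurableSet_Cor)).inter
    ((measurable_snd (measurableSet_Vd1 (measurableSet_Box.diff measurableSet_Cor))).inter
    (MeasurableSet.iInter fun k => MeasurableSet.iInter fun l =>
      (measurable_fst (measurableSet_act k)).compl.union
      ((measurable_snd (measurableSet_act l)).compl.union ?_)))
  exact measurableSet_le measurable_const (measurable_d2.comp
    (((measurable_slot k).comp measurable_fst).prodMk ((measurable_slot l).comp measurable_snd)))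

theorem measurable_cl : Measurable (cl (d := d) ℓ) := by
  unfold cl
  exact Measurable.ite measurableSet_Vd measurable_id measurable_const

theorem measurable_n0 : Measurable (n0 (d := d) ℓ) := by
  unfold n0
  exact (measurable_fst.comp (measurable_fst.comp measurable_cl)).add
    (measurable_fst.comp (measurable_snd.comp measurable_cl))

theorem measurable_c0 : Measurable (c0 (d := d) ℓ) := by
  unfold c0
  exact (measurable_fst.comp measurable_cl).prodMk measurable_const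

theorem measurable_psi {u : (Fin d → ℝ) → ℝ} (hu : Measurable u) :
    Measurable fun p : (Fin d → ℝ) × (Fin d → ℝ) => psi u p.1 p.2 := by
  unfold psi
  exact Measurable.ite (measurableSet_lt measurable_d2 measurable_const) measurable_const
    (measurable_att hu)

/-- For the link: products over the particles, with a parameter. -/
theorem measurable_pp {Y : Type} [MeasurableSpace Y] {φ : Y → (Fin d → ℝ) → ENNReal}
    (hφ : Measurable fun p : Y × (Fin d → ℝ) => φ p.1 p.2) :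
    Measurable fun p : Y × EE d ℓ => pp ℓ p.2 (φ p.1) := by
  unfold pp
  have h1 : Measurable fun q : (Y × EE d ℓ) × (Fin d → ℝ) => φ q.1.1 q.2 :=
    hφ.comp ((measurable_fst.comp measurable_fst).prodMk measurable_snd)
  exact (measurable_cp (φ := fun p : Y × EE d ℓ => φ p.1)
      (measurable_fst.comp measurable_snd) h1).mul
    (measurable_cp (φ := fun p : Y × EE d ℓ => φ p.1) (measurable_snd.comp measurable_snd) h1)

theorem measurable_h0 {u : (Fin d → ℝ) → ℝ} (hu : Measurable u) :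
    Measurable (h0 (d := d) ℓ u) := by
  have h3 : Measurable fun q : Con d (Nm d ℓ) × (Fin d → ℝ) => cp q.1 (att u q.2) := by
    have h4 : Measurable fun q : (Con d (Nm d ℓ) × (Fin d → ℝ)) × (Fin d → ℝ) =>
        att u q.1.2 q.2 := by
      have h7 : Measurable fun q : (Con d (Nm d ℓ) × (Fin d → ℝ)) × (Fin d → ℝ) => (q.1.2, q.2) :=
        (measurable_snd.comp measurable_fst).prodMk measurable_snd
      have h8 := (measurable_att (d := d) hu).comp h7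
      exact h8
    exact measurable_cp (φ := fun q : Con d (Nm d ℓ) × (Fin d → ℝ) => att u q.2)
      measurable_fst h4
  have h5 : Measurable fun x : EE d ℓ => cp x.1 fun a => cp x.2 (att u a) := by
    have h4 : Measurable fun q : EE d ℓ × (Fin d → ℝ) => cp q.1.2 (att u q.2) := by
      have h7 : Measurable fun q : EE d ℓ × (Fin d → ℝ) => (q.1.2, q.2) :=
        (measurable_snd.comp measurable_fst).prodMk measurable_snd
      have h8 := h3.comp h7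
      exact h8
    exact measurable_cp (φ := fun (x : EE d ℓ) a => cp x.2 (att u a)) measurable_fst h4
  have h6 : Measurable fun x : EE d ℓ => sp u x.1 * sp u x.2 *
      (cp x.1 fun a => cp x.2 (att u a)) ^ 2 :=
    ((measurable_sp hu measurable_fst).mul (measurable_sp hu measurable_snd)).mul (h5.pow_const 2)
  exact h6.comp measurable_cl

theorem measurable_g0 {u : (Fin d → ℝ) → ℝ} (hu : Measurable u) (v : Zd d) :
    Measurable fun p : EE d ℓ × EE d ℓ => g0 ℓ u v p.1 p.2 := by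
  have h1 : Measurable fun p : (Fin d → ℝ) × (Fin d → ℝ) =>
      psi u p.1 fun k => p.2 k + ℓ * v k := by
    have h3 : Measurable fun p : (Fin d → ℝ) × (Fin d → ℝ) => fun k => p.2 k + ℓ * v k :=
      measurable_pi_iff.2 fun k =>
        ((measurable_pi_apply k).comp measurable_snd).add_const _
    have h7 : Measurable fun p : (Fin d → ℝ) × (Fin d → ℝ) =>
        (p.1, (fun k => p.2 k + ℓ * v k : Fin d → ℝ)) := measurable_fst.prodMk h3
    have h8 := (measurable_psi (d := d) hu).comp h7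
    exact h8
  obtain ⟨F, hF⟩ : ∃ F : (Fin d → ℝ) → (Fin d → ℝ) → ENNReal,
      F = fun a b => psi u a fun k => b k + ℓ * v k := ⟨_, rfl⟩
  have hFm : Measurable fun p : (Fin d → ℝ) × (Fin d → ℝ) => F p.1 p.2 := by
    rw [hF]
    exact h1
  have h2 : Measurable fun q : (Fin d → ℝ) × EE d ℓ => pp ℓ q.2 (F q.1) := measurable_pp hFm
  obtain ⟨G, hG⟩ : ∃ G : EE d ℓ → (Fin d → ℝ) → ENNReal, G = fun y a => pp ℓ y (F a) := ⟨_, rfl⟩
  have hGm : Measurable fun q : EE d ℓ × (Fin d → ℝ) => G q.1 q.2 := by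
    have h7 : Measurable fun q : EE d ℓ × (Fin d → ℝ) => (q.2, q.1) :=
      measurable_snd.prodMk measurable_fst
    have h8 := h2.comp h7
    rw [hG]
    exact h8
  have h4 : Measurable fun q : EE d ℓ × EE d ℓ => pp ℓ q.2 (G q.1) := measurable_pp hGm
  have h5 : Measurable fun q : EE d ℓ × EE d ℓ => (cl ℓ q.2, cl ℓ q.1) :=
    (measurable_cl.comp measurable_snd).prodMk (measurable_cl.comp measurable_fst)
  have h6 := h4.comp h5
  have e1 : (fun p : EE d ℓ × EE d ℓ => g0 ℓ u v p.1 p.2) =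
      (fun q : EE d ℓ × EE d ℓ => pp ℓ q.2 (G q.1)) ∘ fun q => (cl ℓ q.2, cl ℓ q.1) := by
    funext q
    rw [hG, hF]
    rfl
  rw [e1]
  exact h6

theorem measurableSet_e00 : MeasurableSet ({e00 d ℓ} : Set (EE d ℓ)) := measurableSet_singleton _

theorem core_iff {x : EE d ℓ} : c0 ℓ x = x ↔ Vd ℓ x ∧ x.2 = z0 d ℓ := by
  constructor
  · intro h
    have h1 := Vd_c0 x
    rw [h] at h1
    refine ⟨h1, ?_⟩
    rw [← h]
    rfl
  · rintro ⟨h1, h2⟩
    unfold c0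
    rw [Aux.cl_of_Vd h1, ← h2]

theorem measurableSet_core0 : MeasurableSet {x : EE d ℓ | c0 ℓ x = x} := by
  have e1 : {x : EE d ℓ | c0 ℓ x = x} = {x | Vd ℓ x} ∩ Prod.snd ⁻¹' {z0 d ℓ} := by
    ext x
    exact core_iff
  rw [e1]
  exact measurableSet_Vd.inter (measurable_snd (measurableSet_singleton _))

theorem Vd_cl (x : EE d ℓ) : Vd ℓ (cl ℓ x) := Aux.Vd_cl x

theorem cl_of_Vd {x : EE d ℓ} (h : Vd ℓ x) : cl ℓ x = x := Aux.cl_of_Vd h

theorem cl_e00 : cl ℓ (e00 d ℓ) = e00 d ℓ := Aux.cl_of_Vd Vd_e00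

theorem n0_e00 : n0 ℓ (e00 d ℓ) = 0 := by
  unfold n0
  rw [cl_e00]
  rfl

theorem n0_le (x : EE d ℓ) : n0 ℓ x ≤ mx (Box d ℓ) := by
  have hx := Aux.Vd_cl x
  unfold n0
  obtain ⟨y, hy⟩ : ∃ y, y = cl ℓ x := ⟨_, rfl⟩
  rw [← hy] at hx ⊢
  have h := card_le_mx (bounded_Box (d := d) (ℓ := ℓ))
    ((univ.filter fun k : Fin (Nm d ℓ) => k.val < y.1.1).disjSum
      (univ.filter fun k : Fin (Nm d ℓ) => k.val < y.2.1)) (Sum.elim y.1.2 y.2.2) ?_ ?_
  · rwa [card_disjSum, card_eq hx.1.1, card_eq hx.2.1.1] at h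
  · intro a ha
    rcases a with k | k
    · rw [inl_mem_disjSum, mem_filter] at ha
      exact Cor_Box (hx.1.2.1 k ha.2)
    · rw [inr_mem_disjSum, mem_filter] at ha
      exact (hx.2.1.2.1 k ha.2).1
  · intro a ha b hb hab
    rcases a with k | k
    · rw [inl_mem_disjSum, mem_filter] at ha
      rcases b with l | l
      · rw [inl_mem_disjSum, mem_filter] at hb
        exact hx.1.2.2 k l ha.2 hb.2 fun h => hab (by rw [h])
      · rw [inr_mem_disjSum, mem_filter] at hb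
        exact hx.2.2 k l ha.2 hb.2
    · rw [inr_mem_disjSum, mem_filter] at ha
      rcases b with l | l
      · rw [inl_mem_disjSum, mem_filter] at hb
        rw [Aux.sq_comm]
        exact hx.2.2 l k hb.2 ha.2
      · rw [inr_mem_disjSum, mem_filter] at hb
        exact hx.2.1.2.2 k l ha.2 hb.2 fun h => hab (by rw [h])

theorem n0_c0 (x : EE d ℓ) : n0 ℓ (c0 ℓ x) = (cl ℓ x).1.1 := by
  unfold n0
  rw [cl_c0]
  rfl

theorem n0_c (x : EE d ℓ) : n0 ℓ (c0 ℓ x) ≤ n0 ℓ x := by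
  rw [n0_c0]
  exact Nat.le_add_right _ _

theorem strip_le (x : EE d ℓ) : (cl ℓ x).2.1 ≤ mx (Box d ℓ \ Cor d ℓ) := by
  have hx := Aux.Vd_cl x
  obtain ⟨y, hy⟩ : ∃ y, y = cl ℓ x := ⟨_, rfl⟩
  rw [← hy] at hx ⊢
  have h := card_le_mx ((bounded_Box (d := d) (ℓ := ℓ)).subset
    (Set.sdiff_subset (s := Box d ℓ) (t := Cor d ℓ)))
    (univ.filter fun k : Fin (Nm d ℓ) => k.val < y.2.1) y.2.2
    (fun k hk => hx.2.1.2.1 k (mem_filter.1 hk).2)
    fun k hk l hl hkl => hx.2.1.2.2 k l (mem_filter.1 hk).2 (mem_filter.1 hl).2 hkl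
  rwa [card_eq hx.2.1.1] at h

theorem n0_le_c (x : EE d ℓ) : n0 ℓ x ≤ n0 ℓ (c0 ℓ x) + mx (Box d ℓ \ Cor d ℓ) := by
  rw [n0_c0]
  exact Nat.add_le_add_left (strip_le x) _

theorem c0_e00 : c0 ℓ (e00 d ℓ) = e00 d ℓ := by
  unfold c0
  rw [cl_e00]
  rfl

theorem c0_c (x : EE d ℓ) : c0 ℓ (c0 ℓ x) = c0 ℓ x := by
  show ((cl ℓ (c0 ℓ x)).1, z0 d ℓ) = c0 ℓ x
  rw [cl_c0]
  rfl

theorem h0_e00 {u : (Fin d → ℝ) → ℝ} : h0 ℓ u (e00 d ℓ) = 1 := by
  unfold h0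
  rw [cl_e00]
  show sp u (z0 d ℓ) * sp u (z0 d ℓ) * (cp (z0 d ℓ) _) ^ 2 = 1
  rw [sp_z0, cp_z0]
  simp

theorem one_le_sp {u : (Fin d → ℝ) → ℝ} (hu : ∀ x, 0 ≤ u x) {N : ℕ} (e : Con d N) :
    1 ≤ sp u e := by
  unfold sp
  refine one_le_prod' fun k _ => one_le_prod' fun l _ => ?_
  split_ifs
  · exact one_le_att hu _ _
  · exact le_rfl

theorem sp_le {u : (Fin d → ℝ) → ℝ} {N : ℕ} (e : Con d N) {t : ℝ} (ht : 0 ≤ t)
    (h : ∀ k l : Fin N, k.val < e.1 → l.val < e.1 → att u (e.2 k) (e.2 l) ≤ ex t) :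
    sp u e ≤ ex (t * e.1 * e.1) := by
  have h1 : sp u e ≤ cp e fun a => cp e fun b => ex t := by
    unfold sp cp
    refine prod_le_prod' fun k _ => ?_
    by_cases hk : k.val < e.1
    · rw [if_pos hk]
      refine prod_le_prod' fun l _ => ?_
      by_cases hl : l.val < e.1
      · rw [if_pos hl]
        split_ifs
        · exact h k l hk hl
        · exact one_le_ex.2 ht
      · rw [if_neg hl, if_neg fun h => hl h.2.1]
    · rw [if_neg hk]
      exact le_of_eq (prod_eq_one fun l _ => if_neg fun h => hk h.1)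
  exact h1.trans (cp_le (by positivity) fun k _ => cp_le ht fun l _ => le_rfl)

theorem one_le_h0 {u : (Fin d → ℝ) → ℝ} (hu : ∀ x, 0 ≤ u x) (x : EE d ℓ) : 1 ≤ h0 ℓ u x := by
  unfold h0
  refine one_le_mul (one_le_mul (one_le_sp hu _) (one_le_sp hu _)) (one_le_pow₀ ?_)
  exact one_le_cp fun k _ => one_le_cp fun l _ => one_le_att hu _ _

theorem cross_le {u : (Fin d → ℝ) → ℝ} {N : ℕ} (e f : Con d N) {t : ℝ} (ht : 0 ≤ t)
    (h : ∀ k l : Fin N, k.val < e.1 → l.val < f.1 → att u (e.2 k) (f.2 l) ≤ ex t) :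
    (cp e (fun a => cp f (att u a))) ^ 2 ≤ ex (2 * t * f.1 * e.1) := by
  have h1 : cp e (fun a => cp f (att u a)) ≤ ex (t * f.1 * e.1) :=
    cp_le (by positivity) fun k hk => cp_le ht fun l hl => h k l hk hl
  calc (cp e (fun a => cp f (att u a))) ^ 2 ≤ (ex (t * f.1 * e.1)) ^ 2 :=
        pow_le_pow_left' h1 2
    _ = ex (2 * t * f.1 * e.1) := by
        rw [ex_pow]
        congr 1
        push_cast
        ring

theorem h0_up (hJ : Ad J) (hB : 1 ≤ B) (hℓ : 2 < ℓ) (hK : 0 < K) (x : EE d ℓ) :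
    h0 ℓ (uu J K (B * ℓ)) x ≤ ex (K / 2 * JU J B 0 * n0 ℓ x * n0 ℓ x) := by
  have hx := Aux.Vd_cl x
  have ht : 0 ≤ K / 2 * JU J B 0 := mul_nonneg (by positivity) (JU_nonneg hJ _)
  unfold h0 n0
  have m1 : ∀ k : Fin (Nm d ℓ), k.val < (cl ℓ x).1.1 → (cl ℓ x).1.2 k ∈ Box d ℓ :=
    fun k hk => Cor_Box (hx.1.2.1 k hk)
  have m2 : ∀ k : Fin (Nm d ℓ), k.val < (cl ℓ x).2.1 → (cl ℓ x).2.2 k ∈ Box d ℓ :=
    fun k hk => (hx.2.1.2.1 k hk).1
  refine (mul_le_mul' (mul_le_mul'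
    (sp_le (cl ℓ x).1 ht fun k l hk hl => att_up hJ hB hℓ hK (m1 k hk) (m1 l hl))
    (sp_le (cl ℓ x).2 ht fun k l hk hl => att_up hJ hB hℓ hK (m2 k hk) (m2 l hl)))
    (cross_le (cl ℓ x).1 (cl ℓ x).2 ht
      fun k l hk hl => att_up hJ hB hℓ hK (m1 k hk) (m2 l hl))).trans ?_
  rw [← ex_add, ← ex_add, ex_le_ex]
  push_cast
  apply le_of_eq
  ring

theorem h0_c0 {u : (Fin d → ℝ) → ℝ} (x : EE d ℓ) : h0 ℓ u (c0 ℓ x) = sp u (cl ℓ x).1 := by
  unfold h0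
  rw [cl_c0]
  show sp u (cl ℓ x).1 * sp u (z0 d ℓ) *
    (cp (cl ℓ x).1 (fun a => cp (z0 d ℓ) (att u a))) ^ 2 = _
  rw [sp_z0, cp_one fun k _ => cp_z0 _]
  simp

theorem h0_c (hJ : Ad J) (hB : 1 ≤ B) (hℓ : 2 < ℓ) (hK : 0 < K) (x : EE d ℓ) :
    h0 ℓ (uu J K (B * ℓ)) x ≤ h0 ℓ (uu J K (B * ℓ)) (c0 ℓ x) *
      ex (K * JU J B 0 * mx (Box d ℓ \ Cor d ℓ) * mx (Box d ℓ)) := by
  have hx := Aux.Vd_cl x
  have hJ0 := JU_nonneg (B := B) hJ (0 : Zd d)
  have ht : 0 ≤ K / 2 * JU J B 0 := mul_nonneg (by positivity) hJ0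
  have hKJ : 0 ≤ K * JU J B 0 := mul_nonneg hK.le hJ0
  rw [h0_c0]
  unfold h0
  rw [mul_assoc]
  refine mul_le_mul' le_rfl ?_
  have m1 : ∀ k : Fin (Nm d ℓ), k.val < (cl ℓ x).1.1 → (cl ℓ x).1.2 k ∈ Box d ℓ :=
    fun k hk => Cor_Box (hx.1.2.1 k hk)
  have m2 : ∀ k : Fin (Nm d ℓ), k.val < (cl ℓ x).2.1 → (cl ℓ x).2.2 k ∈ Box d ℓ :=
    fun k hk => (hx.2.1.2.1 k hk).1
  refine (mul_le_mul'
    (sp_le (cl ℓ x).2 ht fun k l hk hl => att_up hJ hB hℓ hK (m2 k hk) (m2 l hl))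
    (cross_le (cl ℓ x).1 (cl ℓ x).2 ht
      fun k l hk hl => att_up hJ hB hℓ hK (m1 k hk) (m2 l hl))).trans ?_
  rw [← ex_add, ex_le_ex]
  have h1 : ((cl ℓ x).2.1 : ℝ) ≤ mx (Box d ℓ \ Cor d ℓ) := by exact_mod_cast strip_le x
  have h2 : (((cl ℓ x).1.1 : ℝ) + (cl ℓ x).2.1) ≤ mx (Box d ℓ) := by
    have := n0_le x
    unfold n0 at this
    exact_mod_cast this
  have p1 : (0 : ℝ) ≤ (cl ℓ x).1.1 := Nat.cast_nonneg _
  have p2 : (0 : ℝ) ≤ (cl ℓ x).2.1 := Nat.cast_nonneg _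
  have p3 : (0 : ℝ) ≤ mx (Box d ℓ \ Cor d ℓ) := Nat.cast_nonneg _
  have h3 : ((cl ℓ x).2.1 : ℝ) * (((cl ℓ x).1.1 : ℝ) + (cl ℓ x).2.1) ≤
      mx (Box d ℓ \ Cor d ℓ) * mx (Box d ℓ) :=
    mul_le_mul h1 h2 (add_nonneg p1 p2) p3
  have h4 : (0 : ℝ) ≤ ((cl ℓ x).2.1 : ℝ) * (cl ℓ x).2.1 := mul_nonneg p2 p2
  have h5 := mul_le_mul_of_nonneg_left h3 hKJ
  have h6 := mul_nonneg hKJ h4
  linarith [h5, h6]

theorem g0_symm {u : (Fin d → ℝ) → ℝ} (hu : ∀ x, u (-x) = u x) (v : Zd d) (x y : EE d ℓ) :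
    g0 ℓ u (-v) y x = g0 ℓ u v x y := by
  unfold g0
  rw [pp_comm]
  congr 1
  funext a
  congr 1
  funext b
  have e1 : (∑ k, (b k - (fun k => a k + ℓ * ((-v) k : ℤ)) k) ^ 2) =
      ∑ k, (a k - (fun k => b k + ℓ * v k) k) ^ 2 := by
    refine sum_congr rfl fun k _ => ?_
    simp only [Pi.neg_apply]
    push_cast
    ring
  have e2 : (b - fun k => a k + ℓ * ((-v) k : ℤ)) = -(a - fun k => b k + ℓ * v k) := by
    funext k
    simp only [Pi.neg_apply, Pi.sub_apply]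
    push_cast
    ring
  unfold psi att
  rw [e1, e2, hu]

theorem g0_e00 {u : (Fin d → ℝ) → ℝ} (v : Zd d) (y : EE d ℓ) : g0 ℓ u v (e00 d ℓ) y = 1 := by
  unfold g0
  rw [cl_e00]
  show cp (z0 d ℓ) _ * cp (z0 d ℓ) _ = 1
  rw [cp_z0, one_mul]

theorem g0_up (hJ : Ad J) (hB : 1 ≤ B) (hℓ : 2 < ℓ) (hK : 0 < K) (v : Zd d) (x y : EE d ℓ) :
    g0 ℓ (uu J K (B * ℓ)) v x y ≤ ex (K / 2 * JU J B v * n0 ℓ x * n0 ℓ y) := by
  have ht : 0 ≤ K / 2 * JU J B v := mul_nonneg (by positivity) (JU_nonneg hJ _)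
  unfold g0 n0
  have h1 := pp_le (x := cl ℓ x) (φ := fun a => pp ℓ (cl ℓ y) fun b =>
    psi (uu J K (B * ℓ)) a fun k => b k + ℓ * v k)
    (t := K / 2 * JU J B v * ((cl ℓ y).1.1 + (cl ℓ y).2.1 : ℕ))
    (by positivity) fun a ha => pp_le ht fun b hb =>
      psi_up hJ hB hℓ hK v (Pt_Box (Aux.Vd_cl x) ha) (Pt_Box (Aux.Vd_cl y) hb)
  refine h1.trans ?_
  rw [ex_le_ex]
  apply le_of_eq
  ring

theorem far_pt (hℓ : 2 < ℓ) {v : Zd d} {x y : EE d ℓ} (hv : v ≠ 0)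
    (h : v ∉ Nb 0 ∨ c0 ℓ x = x ∨ c0 ℓ y = y) {a b : Fin d → ℝ} (ha : Pt (cl ℓ x) a)
    (hb : Pt (cl ℓ y) b) : 1 ≤ ∑ k, (a k - (b k + ℓ * v k)) ^ 2 := by
  refine sq_far hℓ hv (Pt_Box (Aux.Vd_cl x) ha) (Pt_Box (Aux.Vd_cl y) hb) ?_
  rcases h with h | h | h
  · exact Or.inl h
  · exact Or.inr (Or.inl (Pt_core h ha))
  · exact Or.inr (Or.inr (Pt_core h hb))

theorem g0_lo (hJ : Ad J) (hB : 1 ≤ B) (hℓ : 2 < ℓ) (hK : 0 < K) (v : Zd d) (x y : EE d ℓ)
    (hv : v ≠ 0) (h : v ∉ Nb 0 ∨ c0 ℓ x = x ∨ c0 ℓ y = y) :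
    ex (K / 2 * JL J B v * n0 ℓ x * n0 ℓ y) ≤ g0 ℓ (uu J K (B * ℓ)) v x y := by
  unfold g0 n0
  have h1 := le_pp (Aux.Vd_cl x) (φ := fun a => pp ℓ (cl ℓ y) fun b =>
    psi (uu J K (B * ℓ)) a fun k => b k + ℓ * v k)
    (t := K / 2 * JL J B v * ((cl ℓ y).1.1 + (cl ℓ y).2.1 : ℕ))
    fun a ha => le_pp (Aux.Vd_cl y) fun b hb =>
      psi_lo hJ hB hℓ hK v (Pt_Box (Aux.Vd_cl x) ha) (Pt_Box (Aux.Vd_cl y) hb)
        (far_pt hℓ hv h ha hb)
  refine le_trans ?_ h1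
  rw [ex_le_ex]
  apply le_of_eq
  ring

theorem g0_c (hJ : Ad J) (hB : 1 ≤ B) (hℓ : 2 < ℓ) (hK : 0 < K) (v : Zd d) (x y : EE d ℓ) :
    g0 ℓ (uu J K (B * ℓ)) v x y ≤ g0 ℓ (uu J K (B * ℓ)) v (c0 ℓ x) y *
      ex (K / 2 * JU J B v * mx (Box d ℓ \ Cor d ℓ) * mx (Box d ℓ)) := by
  have hx := Aux.Vd_cl x
  have ht : 0 ≤ K / 2 * JU J B v := mul_nonneg (by positivity) (JU_nonneg hJ _)
  have e1 : g0 ℓ (uu J K (B * ℓ)) v (c0 ℓ x) y = cp (cl ℓ x).1 fun a => pp ℓ (cl ℓ y) fun b =>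
      psi (uu J K (B * ℓ)) a fun k => b k + ℓ * v k := by
    unfold g0
    rw [cl_c0]
    show cp (cl ℓ x).1 _ * cp (z0 d ℓ) _ = _
    rw [cp_z0, mul_one]
  rw [e1]
  unfold g0
  show cp (cl ℓ x).1 _ * cp (cl ℓ x).2 _ ≤ _
  refine mul_le_mul' le_rfl ?_
  have h1 := cp_le (e := (cl ℓ x).2) (φ := fun a => pp ℓ (cl ℓ y) fun b =>
    psi (uu J K (B * ℓ)) a fun k => b k + ℓ * v k)
    (t := K / 2 * JU J B v * ((cl ℓ y).1.1 + (cl ℓ y).2.1 : ℕ))
    (by positivity) fun a ha => pp_le ht fun b hb =>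
      psi_up hJ hB hℓ hK v (hx.2.1.2.1 a ha).1 (Pt_Box (Aux.Vd_cl y) hb)
  refine h1.trans ?_
  rw [ex_le_ex]
  have h2 : ((cl ℓ x).2.1 : ℝ) ≤ mx (Box d ℓ \ Cor d ℓ) := by exact_mod_cast strip_le x
  have h3 : ((((cl ℓ y).1.1 + (cl ℓ y).2.1 : ℕ)) : ℝ) ≤ mx (Box d ℓ) := by
    exact_mod_cast n0_le y
  have p1 : (0 : ℝ) ≤ (((cl ℓ y).1.1 + (cl ℓ y).2.1 : ℕ)) := Nat.cast_nonneg _
  have p3 : (0 : ℝ) ≤ mx (Box d ℓ \ Cor d ℓ) := Nat.cast_nonneg _
  have h4 := mul_le_mul h2 h3 p1 p3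
  have h5 := mul_le_mul_of_nonneg_left h4 ht
  calc K / 2 * JU J B v * ((((cl ℓ y).1.1 + (cl ℓ y).2.1 : ℕ)) : ℝ) * (cl ℓ x).2.1
      = K / 2 * JU J B v * (((cl ℓ x).2.1 : ℝ) * (((cl ℓ y).1.1 + (cl ℓ y).2.1 : ℕ))) := by ring
    _ ≤ K / 2 * JU J B v * ((mx (Box d ℓ \ Cor d ℓ) : ℝ) * mx (Box d ℓ)) := h5
    _ = _ := by ring

theorem zero_SB (B : ℕ) : (0 : Zd d) ∈ SB d B := by
  unfold SB
  refine Fintype.mem_piFinset.2 fun k => ?_
  rw [mem_Icc]
  simp only [Pi.zero_apply]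
  constructor <;> omega

theorem Nb_SB (hB : 1 ≤ B) : Nb (0 : Zd d) ⊆ SB d B := by
  intro v hv
  have hv' := fun k => mem_Nb.1 hv k
  simp only [Pi.zero_apply] at hv'
  unfold SB
  refine Fintype.mem_piFinset.2 fun k => ?_
  rw [mem_Icc]
  have := hv' k
  constructor <;> omega

theorem SB_neg (B : ℕ) : ∀ v ∈ SB d B, -v ∈ SB d B := by
  intro v hv
  unfold SB at hv ⊢
  refine Fintype.mem_piFinset.2 fun k => ?_
  have h := Fintype.mem_piFinset.1 hv k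
  rw [mem_Icc] at h ⊢
  simp only [Pi.neg_apply]
  constructor <;> omega

theorem SB_r (B : ℕ) : ∀ v ∈ SB d B, ∀ k, |v k| ≤ (B : ℤ) := by
  intro v hv k
  unfold SB at hv
  have h := Fintype.mem_piFinset.1 hv k
  rw [mem_Icc] at h
  rw [abs_le]
  exact h

/-- For the link: cells far away do not interact. -/
theorem g0_one (hJ : Ad J) (hB : 1 ≤ B) (hℓ : 2 < ℓ) (hK : 0 < K) (v : Zd d) (hv : v ∉ SB d B)
    (x y : EE d ℓ) : g0 ℓ (uu J K (B * ℓ)) v x y = 1 := by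
  have _ := hK
  have h0 : v ≠ 0 := fun h => hv (h ▸ zero_SB B)
  have hn : v ∉ Nb 0 := fun h => hv (Nb_SB hB h)
  have hB0 : (0 : ℝ) < B := by exact_mod_cast hB
  obtain ⟨k, hk⟩ : ∃ k, (B : ℤ) < |v k| := by
    by_contra hc
    push Not at hc
    refine hv ?_
    unfold SB
    refine Fintype.mem_piFinset.2 fun k => ?_
    rw [mem_Icc]
    exact abs_le.1 (hc k)
  unfold g0
  refine pp_one fun a ha => pp_one fun b hb => ?_
  unfold psi
  rw [if_neg (not_lt.2 (far_pt hℓ h0 (Or.inl hn) ha hb))]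
  have ha' := Pt_Box (Aux.Vd_cl x) ha
  have hb' := Pt_Box (Aux.Vd_cl y) hb
  have h1 := dif_mem hB (by linarith : 0 < ℓ) v ha' hb' k
  have h2 : J (-(((B : ℝ) * ℓ)⁻¹ • (a - fun k => b k + ℓ * v k))) = 0 := by
    by_contra h3
    have h4 := hJ.supp _ h3 k
    rw [abs_lt] at h1
    rw [abs_le] at h4
    have h5 : ((B : ℝ) + 1) ≤ |(v k : ℝ)| := by exact_mod_cast hk
    have h6 := mul_le_mul_of_nonneg_left h4.1 hB0.le
    have h7 := mul_le_mul_of_nonneg_left h4.2 hB0.le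
    rcases abs_cases (v k : ℝ) with ⟨h8, _⟩ | ⟨h8, _⟩
    · rw [h8] at h5
      linarith [h1.1]
    · rw [h8] at h5
      linarith [h1.2]
  rw [hJ.even] at h2
  unfold att uu
  rw [h2, mul_zero, zero_div, ex_zero]

theorem dif_nonempty (hB : 1 ≤ B) (v : Zd d) : (Dif B v).Nonempty := by
  have hB0 : (0 : ℝ) < B := by exact_mod_cast hB
  refine ⟨fun k => (v k : ℝ) / B, fun k => ?_⟩
  rw [mul_div_cancel₀ _ hB0.ne', sub_self, abs_zero]
  norm_num

theorem dif_neg (v : Zd d) (x : Fin d → ℝ) : -x ∈ Dif B (-v) ↔ x ∈ Dif B v := by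
  refine forall_congr' fun k => ?_
  have e1 : (B : ℝ) * (-x) k - ((-v) k : ℤ) = -((B : ℝ) * x k - v k) := by
    simp only [Pi.neg_apply]
    push_cast
    ring
  rw [e1, abs_neg]

theorem image_neg_dif (hJ : Ad J) (v : Zd d) : J '' Dif B (-v) = J '' Dif B v := by
  ext z
  constructor
  · rintro ⟨x, hx, rfl⟩
    refine ⟨-x, ?_, hJ.even x⟩
    rw [← dif_neg, neg_neg]
    exact hx
  · rintro ⟨x, hx, rfl⟩
    exact ⟨-x, (dif_neg v x).2 hx, hJ.even x⟩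

theorem JL_nonneg (hJ : Ad J) (v : Zd d) : 0 ≤ JL J B v := by
  unfold JL
  split_ifs
  · exact le_rfl
  · exact Real.sInf_nonneg (by rintro _ ⟨x, _, rfl⟩; exact hJ.nonneg x)

theorem JL_le (hJ : Ad J) (hB : 1 ≤ B) (v : Zd d) : JL J B v ≤ JU J B v := by
  have h1 := JU_nonneg (B := B) hJ v
  unfold JL
  split_ifs
  · exact h1
  · unfold JU
    exact csInf_le_csSup ((dif_nonempty hB v).image J) (bddBelow_J hJ _) (bddAbove_J hJ _)

theorem JU_le_one (hJ : Ad J) (hB : 1 ≤ B) (v : Zd d) : JU J B v ≤ 1 := by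
  unfold JU
  refine csSup_le ((dif_nonempty hB v).image J) ?_
  rintro _ ⟨x, _, rfl⟩
  exact hJ.le_one x

theorem JU_neg (hJ : Ad J) (v : Zd d) : JU J B (-v) = JU J B v := by
  unfold JU
  rw [image_neg_dif hJ]

theorem JL_neg (hJ : Ad J) (v : Zd d) : JL J B (-v) = JL J B v := by
  unfold JL
  rw [image_neg_dif hJ]
  simp only [neg_eq_zero]

theorem JL_zero : JL J B (0 : Zd d) = 0 := if_pos rfl

theorem one_le_mx (hℓ : 2 < ℓ) : 1 ≤ mx (Box d ℓ) := by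
  refine le_mx bounded_Box ⟨fun _ _ => 0, fun _ k => ?_, fun i j hij => ?_⟩
  · rw [Set.mem_Ico]
    constructor <;> linarith
  · exact absurd (Subsingleton.elim i j) hij

end Pool.Agent.Kac.ModD
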