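import Pool.Agent.Lib.MP_09cbbd_sw.ModA
import Pool.Agent.Lib.MP_09cbbd_sw.Pack
import Pool.Agent.Lib.MP_09cbbd_kc.Def
import Pool.Agent.Lib.MP_09cbbd_kc.GeoD
import Pool.Agent.Lib.MP_09cbbd_mp_h27.PsLink

/-!
# The gas of hard spheres with a pair attraction as a gas on cells: definitions
-/

set_option autoImplicit false

namespace Pool.Agent.Kac.ModD

open MeasureTheory Finset Filter Topology Pool.Agent.StableGas Pool.Agent.SquareWellGas
  Pool.Agent.SquareWell Pool.Agent.KacGas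

variable (d : ℕ) (ℓ : ℝ) (u : (Fin d → ℝ) → ℝ)

/-- Capacity of a cell. -/
noncomputable abbrev Nm : ℕ := mx (Box d ℓ)

/-- Contents: core particles and strip particles. -/
abbrev EE : Type := Con d (Nm d ℓ) × Con d (Nm d ℓ)

/-- The empty content. -/
def z0 : Con d (Nm d ℓ) := (0, fun _ => 0)

def e00 : EE d ℓ := (z0 d ℓ, z0 d ℓ)

variable {d}

/-- Half of the attraction. -/
noncomputable def att (x y : Fin d → ℝ) : ENNReal := ex (u (x - y) / 2)

/-- Half of the pair weight. -/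
noncomputable def psi (x y : Fin d → ℝ) : ENNReal := by
  classical exact if ∑ k, (x k - y k) ^ 2 < 1 then 0 else att u x y

/-- Product over the particles. -/
noncomputable def cp {N : ℕ} (e : Con d N) (φ : (Fin d → ℝ) → ENNReal) : ENNReal :=
  ∏ k : Fin N, if k.val < e.1 then φ (e.2 k) else 1

/-- Attraction inside a content. -/
noncomputable def sp {N : ℕ} (e : Con d N) : ENNReal :=
  ∏ k : Fin N, ∏ l : Fin N, if k.val < e.1 ∧ l.val < e.1 ∧ k ≠ l then att u (e.2 k) (e.2 l) else 1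

/-- Valid contents of a region. -/
def Vd1 {N : ℕ} (T : Set (Fin d → ℝ)) (e : Con d N) : Prop :=
  e.1 ≤ N ∧ (∀ k : Fin N, k.val < e.1 → e.2 k ∈ T) ∧
    ∀ k l : Fin N, k.val < e.1 → l.val < e.1 → k ≠ l → (1 : ℝ) ≤ ∑ j, (e.2 k j - e.2 l j) ^ 2

/-- Valid contents of a cell. -/
def Vd (x : EE d ℓ) : Prop :=
  Vd1 (Cor d ℓ) x.1 ∧ Vd1 (Box d ℓ \ Cor d ℓ) x.2 ∧
    ∀ k l : Fin (Nm d ℓ), k.val < x.1.1 → l.val < x.2.1 →
      (1 : ℝ) ≤ ∑ j, (x.1.2 k j - x.2.2 l j) ^ 2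

/-- Cleaning. -/
noncomputable def cl (x : EE d ℓ) : EE d ℓ := by
  classical exact if Vd ℓ x then x else e00 d ℓ

/-- Number of particles. -/
noncomputable def n0 (x : EE d ℓ) : ℕ := (cl ℓ x).1.1 + (cl ℓ x).2.1

/-- The content of the core. -/
noncomputable def c0 (x : EE d ℓ) : EE d ℓ := ((cl ℓ x).1, z0 d ℓ)

/-- Product over all the particles of a cell. -/
noncomputable def pp (x : EE d ℓ) (φ : (Fin d → ℝ) → ENNReal) : ENNReal := cp x.1 φ * cp x.2 φ

/-- Weight of the interaction inside a cell. -/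
noncomputable def h0 (x : EE d ℓ) : ENNReal :=
  sp u (cl ℓ x).1 * sp u (cl ℓ x).2 *
    (cp (cl ℓ x).1 (fun a => cp (cl ℓ x).2 (att u a))) ^ 2

/-- Half weight of the interaction between two cells. -/
noncomputable def g0 (v : Zd d) (x y : EE d ℓ) : ENNReal :=
  pp ℓ (cl ℓ x) fun a => pp ℓ (cl ℓ y) fun b => psi u a fun k => b k + ℓ * v k

/-- The a priori measure. -/
noncomputable def pi0 : Measure (EE d ℓ) :=
  ((nu volume 1 (Nm d ℓ) (Cor d ℓ)).prod (nu volume 1 (Nm d ℓ) (Box d ℓ \ Cor d ℓ))).restrict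
    {x | Vd ℓ x}

end Pool.Agent.Kac.ModD
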