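import Pool.Agent.Lib.MP_09cbbd_kc.ModB

/-!
# Integral over the contents of a cell as a sum of configuration integrals
-/

set_option autoImplicit false

namespace Pool.Agent.Kac.ModD

open MeasureTheory Finset Filter Topology Pool.Agent.StableGas Pool.Agent.SquareWellGas
  Pool.Agent.SquareWell Pool.Agent.KacGas Pool.Agent.SquareWell.ModA

variable {d : ℕ} {ℓ : ℝ} {u : (Fin d → ℝ) → ℝ}

theorem measurableSet_Box : MeasurableSet (Box d ℓ) := by
  have e : Box d ℓ = Set.pi Set.univ fun _ : Fin d => Set.Ico (0 : ℝ) ℓ := by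
    ext x; simp [Box]
  rw [e]
  exact MeasurableSet.univ_pi fun _ => measurableSet_Ico

theorem measurableSet_Cor : MeasurableSet (Cor d ℓ) := by
  have e : Cor d ℓ = Set.pi Set.univ fun _ : Fin d => Set.Ico (1 : ℝ) (ℓ - 1) := by
    ext x; simp [Cor]
  rw [e]
  exact MeasurableSet.univ_pi fun _ => measurableSet_Ico

theorem Cor_Box : Cor d ℓ ⊆ Box d ℓ := by
  intro x hx k
  have h := hx k
  exact ⟨by linarith [h.1], by linarith [h.2]⟩

namespace ModI

theorem isBounded_Box : Bornology.IsBounded (Box d ℓ) := by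
  have e : Box d ℓ = Set.pi Set.univ fun _ : Fin d => Set.Ico (0 : ℝ) ℓ := by
    ext x; simp [Box]
  rw [e]
  exact Bornology.IsBounded.pi fun _ => Metric.isBounded_Ico _ _

theorem pad_snd {N k : ℕ} (w : Fin k → Fin d → ℝ) (j : Fin N) (h : j.val < k) :
    (pad N w).2 j = w ⟨j.val, h⟩ := by
  unfold pad
  simp only [h, dif_pos]

theorem prod_fin_lt {N k : ℕ} (hk : k ≤ N) (g : Fin N → ENNReal)
    (hg : ∀ a : Fin N, ¬ a.val < k → g a = 1) : ∏ a, g a = ∏ i : Fin k, g (Fin.castLE hk i) := by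
  have e : ∏ i : Fin k, g (Fin.castLE hk i) = ∏ a ∈ univ.map (Fin.castLEEmb hk), g a := by
    rw [Finset.prod_map]
    rfl
  rw [e]
  symm
  refine Finset.prod_subset (Finset.subset_univ _) fun a _ ha => hg a fun h => ha ?_
  rw [Finset.mem_map]
  exact ⟨⟨a.val, h⟩, mem_univ _, rfl⟩

theorem pad_cast {N k : ℕ} (hk : k ≤ N) (w : Fin k → Fin d → ℝ) (i : Fin k) :
    (pad N w).2 (Fin.castLE hk i) = w i := pad_snd w _ i.2

theorem Vd1_pad {N k : ℕ} (hk : k ≤ N) (T : Set (Fin d → ℝ)) (w : Fin k → Fin d → ℝ) :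
    Vd1 T (pad N w) ↔ (∀ i, w i ∈ T) ∧ ∀ i j, i ≠ j → (1 : ℝ) ≤ ∑ l, (w i l - w j l) ^ 2 := by
  unfold Vd1
  constructor
  · rintro ⟨-, h1, h2⟩
    refine ⟨fun i => ?_, fun i j hij => ?_⟩
    · have h3 := h1 (Fin.castLE hk i) i.2
      rwa [pad_cast] at h3
    · have h3 := h2 (Fin.castLE hk i) (Fin.castLE hk j) i.2 j.2
        (fun hh => hij (Fin.ext (by simpa using congrArg Fin.val hh)))
      rwa [pad_cast, pad_cast] at h3
  · rintro ⟨h1, h2⟩
    refine ⟨hk, fun j hj => ?_, fun j l hj hl hjl => ?_⟩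
    · rw [pad_snd w _ hj]; exact h1 _
    · rw [pad_snd w _ hj, pad_snd w _ hl]
      exact h2 _ _ fun hh => hjl (Fin.ext (by simpa using congrArg Fin.val hh))

theorem Vd_pad {k m : ℕ} (hk : k ≤ Nm d ℓ) (hm : m ≤ Nm d ℓ) (w : Fin k → Fin d → ℝ)
    (w' : Fin m → Fin d → ℝ) : Vd ℓ ((pad (Nm d ℓ) w, pad (Nm d ℓ) w') : EE d ℓ) ↔
      ((∀ i, w i ∈ Cor d ℓ) ∧ ∀ i j, i ≠ j → (1 : ℝ) ≤ ∑ l, (w i l - w j l) ^ 2) ∧
      ((∀ i, w' i ∈ Box d ℓ \ Cor d ℓ) ∧ ∀ i j, i ≠ j → (1 : ℝ) ≤ ∑ l, (w' i l - w' j l) ^ 2) ∧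
      ∀ i j, (1 : ℝ) ≤ ∑ l, (w i l - w' j l) ^ 2 := by
  unfold Vd
  rw [Vd1_pad hk, Vd1_pad hm]
  refine and_congr Iff.rfl (and_congr Iff.rfl ?_)
  constructor
  · intro h i j
    have h3 := h (Fin.castLE hk i) (Fin.castLE hm j) i.2 j.2
    dsimp only at h3
    rwa [pad_cast, pad_cast] at h3
  · intro h a b ha hb
    dsimp only
    rw [pad_snd w _ ha, pad_snd w' _ hb]
    exact h _ _

theorem att_symm (hu' : ∀ x, u (-x) = u x) (x y : Fin d → ℝ) : att u x y = att u y x := by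
  unfold att
  rw [← hu' (x - y), neg_sub]

theorem psi_of_le {x y : Fin d → ℝ} (h : (1 : ℝ) ≤ ∑ k, (x k - y k) ^ 2) :
    psi u x y = att u x y := by
  unfold psi
  rw [if_neg (not_lt.2 h)]

theorem psi_ne {x y : Fin d → ℝ} (h : psi u x y ≠ 0) : (1 : ℝ) ≤ ∑ k, (x k - y k) ^ 2 := by
  by_contra hh
  exact h (by unfold psi; rw [if_pos (not_le.1 hh)])

theorem Pr_ne {k : ℕ} {w : Fin k → Fin d → ℝ} (h : Pr (psi u) w ≠ 0) :
    ∀ i j, i ≠ j → (1 : ℝ) ≤ ∑ l, (w i l - w j l) ^ 2 := by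
  intro i j hij
  unfold Pr at h
  have h1 := Finset.prod_ne_zero_iff.1 h i (mem_univ _)
  have h2 := Finset.prod_ne_zero_iff.1 h1 j (mem_univ _)
  rw [if_neg hij] at h2
  exact psi_ne h2

theorem Pr_att {k : ℕ} {w : Fin k → Fin d → ℝ}
    (h : ∀ i j, i ≠ j → (1 : ℝ) ≤ ∑ l, (w i l - w j l) ^ 2) :
    Pr (psi u) w = ∏ i, ∏ j, if i = j then 1 else att u (w i) (w j) := by
  unfold Pr
  refine prod_congr rfl fun i _ => prod_congr rfl fun j _ => ?_
  by_cases hij : i = j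
  · rw [if_pos hij, if_pos hij]
  · rw [if_neg hij, if_neg hij, psi_of_le (h i j hij)]

theorem ind_ne {T : Set (Fin d → ℝ)} {y : Fin d → ℝ}
    (h : T.indicator (1 : (Fin d → ℝ) → ENNReal) y ≠ 0) : y ∈ T := by
  by_contra hh
  exact h (Set.indicator_of_notMem hh _)

end ModI

open ModI

/-- On the support of the integrand the contents are valid. -/
theorem Vd_of_ne {k m : ℕ} (w : Fin k → Fin d → ℝ) (w' : Fin m → Fin d → ℝ)
    (h : Gw (psi u) ((Cor d ℓ).indicator 1) w *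
      Gw (psi u) (fun y => (Box d ℓ \ Cor d ℓ).indicator 1 y * Pu (psi u) w y) w' ≠ 0) :
    k ≤ Nm d ℓ ∧ m ≤ Nm d ℓ ∧ Vd ℓ ((pad (Nm d ℓ) w, pad (Nm d ℓ) w') : EE d ℓ) := by
  have h1 := left_ne_zero_of_mul h
  have h2 := right_ne_zero_of_mul h
  unfold Gw at h1 h2
  have h3 := left_ne_zero_of_mul h1
  have h4 := Pr_ne (right_ne_zero_of_mul h1)
  have h5 := left_ne_zero_of_mul h2
  have h6 := Pr_ne (right_ne_zero_of_mul h2)
  have a1 : ∀ i, w i ∈ Cor d ℓ := fun i => ind_ne (Finset.prod_ne_zero_iff.1 h3 i (mem_univ _))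
  have a2 : ∀ j, w' j ∈ Box d ℓ \ Cor d ℓ := fun j =>
    ind_ne (left_ne_zero_of_mul (Finset.prod_ne_zero_iff.1 h5 j (mem_univ _)))
  have a3 : ∀ i j, (1 : ℝ) ≤ ∑ l, (w i l - w' j l) ^ 2 := fun i j => by
    have b1 := right_ne_zero_of_mul (Finset.prod_ne_zero_iff.1 h5 j (mem_univ _))
    unfold Pu at b1
    exact psi_ne (left_ne_zero_of_mul (Finset.prod_ne_zero_iff.1 b1 i (mem_univ _)))
  have hk : k ≤ Nm d ℓ := le_mx isBounded_Box ⟨w, fun i => Cor_Box (a1 i), h4⟩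
  have hm : m ≤ Nm d ℓ := le_mx isBounded_Box ⟨w', fun i => (a2 i).1, h6⟩
  exact ⟨hk, hm, (Vd_pad hk hm w w').2 ⟨⟨a1, h4⟩, ⟨a2, h6⟩, a3⟩⟩

theorem cp_pad {k N : ℕ} (hk : k ≤ N) (w : Fin k → Fin d → ℝ) (φ : (Fin d → ℝ) → ENNReal) :
    cp (pad N w) φ = ∏ i, φ (w i) := by
  unfold cp
  have e := prod_fin_lt hk (fun a : Fin N => if a.val < (pad N w).1 then φ ((pad N w).2 a) else 1)
    fun a ha => if_neg ha
  rw [e]
  refine prod_congr rfl fun i _ => ?_
  have hi : (Fin.castLE hk i).val < k := i.2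
  rw [if_pos (show (Fin.castLE hk i).val < (pad N w).1 from hi), pad_cast]

namespace ModI

theorem sp_pad {k N : ℕ} (hk : k ≤ N) (w : Fin k → Fin d → ℝ) :
    sp u (pad N w) = ∏ i, ∏ j, if i = j then 1 else att u (w i) (w j) := by
  unfold sp
  have e := prod_fin_lt hk (fun a : Fin N => ∏ b : Fin N,
    if a.val < (pad N w).1 ∧ b.val < (pad N w).1 ∧ a ≠ b then
      att u ((pad N w).2 a) ((pad N w).2 b) else 1)
    fun a ha => Finset.prod_eq_one fun b _ => if_neg fun hh => ha hh.1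
  rw [e]
  refine prod_congr rfl fun i _ => ?_
  have hi : (Fin.castLE hk i).val < k := i.2
  have e2 := prod_fin_lt hk (fun b : Fin N =>
    if (Fin.castLE hk i).val < (pad N w).1 ∧ b.val < (pad N w).1 ∧ Fin.castLE hk i ≠ b then
      att u ((pad N w).2 (Fin.castLE hk i)) ((pad N w).2 b) else 1)
    fun b hb => if_neg fun hh => hb hh.2.1
  rw [e2]
  refine prod_congr rfl fun j _ => ?_
  have hj : (Fin.castLE hk j).val < k := j.2
  by_cases hij : i = j
  · subst hij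
    rw [if_pos rfl, if_neg fun hh => hh.2.2 rfl]
  · rw [if_neg hij, if_pos ⟨hi, hj, fun hh => hij (Fin.ext (by simpa using congrArg Fin.val hh))⟩,
      pad_cast, pad_cast]

theorem key (hu' : ∀ x, u (-x) = u x) {k m : ℕ} (hk : k ≤ Nm d ℓ) (hm : m ≤ Nm d ℓ) (w : Fin k → Fin d → ℝ)
    (w' : Fin m → Fin d → ℝ) (F : EE d ℓ → ENNReal) :
    Gw (psi u) ((Cor d ℓ).indicator 1) w *
      (Gw (psi u) (fun y => (Box d ℓ \ Cor d ℓ).indicator 1 y * Pu (psi u) w y) w' *
        F (pad (Nm d ℓ) w, pad (Nm d ℓ) w')) =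
      {x : EE d ℓ | Vd ℓ x}.indicator (fun x => h0 ℓ u x * F x)
        (pad (Nm d ℓ) w, pad (Nm d ℓ) w') := by
  by_cases hV : Vd ℓ ((pad (Nm d ℓ) w, pad (Nm d ℓ) w') : EE d ℓ)
  · rw [Set.indicator_of_mem (show _ ∈ {x : EE d ℓ | Vd ℓ x} from hV), ← mul_assoc]
    congr 1
    obtain ⟨⟨a1, a2⟩, ⟨b1, b2⟩, c⟩ := (Vd_pad hk hm w w').1 hV
    unfold h0
    rw [cl_of_Vd hV]
    dsimp only
    rw [sp_pad hk, sp_pad hm, cp_pad hk]
    simp only [cp_pad hm]
    unfold Gw
    rw [Pr_att a2, Pr_att b2]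
    have e1 : ∏ i, (Cor d ℓ).indicator (1 : (Fin d → ℝ) → ENNReal) (w i) = 1 :=
      prod_eq_one fun i _ => by rw [Set.indicator_of_mem (a1 i)]; rfl
    have e2 : ∏ j, ((Box d ℓ \ Cor d ℓ).indicator (1 : (Fin d → ℝ) → ENNReal) (w' j) *
        Pu (psi u) w (w' j)) = (∏ i, ∏ j, att u (w i) (w' j)) ^ 2 := by
      rw [prod_comm (s := (univ : Finset (Fin k))), ← Finset.prod_pow]
      refine prod_congr rfl fun j _ => ?_
      rw [Set.indicator_of_mem (b1 j), Pi.one_apply, one_mul, ← Finset.prod_pow]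
      unfold Pu
      refine prod_congr rfl fun i _ => ?_
      have c' : (1 : ℝ) ≤ ∑ l, (w' j l - w i l) ^ 2 := by
        have e : ∑ l, (w' j l - w i l) ^ 2 = ∑ l, (w i l - w' j l) ^ 2 :=
          sum_congr rfl fun k _ => by ring
        rw [e]
        exact c i j
      rw [psi_of_le (c i j), psi_of_le c', att_symm hu' (w' j) (w i), sq]
    rw [e1, e2]
    ring
  · rw [Set.indicator_of_notMem (show _ ∉ {x : EE d ℓ | Vd ℓ x} from hV), ← mul_assoc]
    have h0 : Gw (psi u) ((Cor d ℓ).indicator 1) w *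
      Gw (psi u) (fun y => (Box d ℓ \ Cor d ℓ).indicator 1 y * Pu (psi u) w y) w' = 0 := by
      by_contra hh
      exact hV (Vd_of_ne w w' hh).2.2
    rw [h0, zero_mul]

theorem volume_ne_top {T : Set (Fin d → ℝ)} (hT : T ⊆ Box d ℓ) : volume T ≠ ⊤ :=
  (isBounded_Box.subset hT).measure_lt_top.ne

theorem sq_eq (x y : Fin d → ℝ) : ConfinedGas.sq x y = ∑ k, (x k - y k) ^ 2 := rfl

theorem measurable_pw (hu : Measurable u) {k m : ℕ} (w : Fin k → Fin d → ℝ) (F : EE d ℓ → ENNReal)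
    (hF : Measurable F) : Measurable fun w' : Fin m → Fin d → ℝ =>
      Gw (psi u) (fun y => (Box d ℓ \ Cor d ℓ).indicator 1 y * Pu (psi u) w y) w' *
        F (pad (Nm d ℓ) w, pad (Nm d ℓ) w') := by
  have h1 : Measurable fun y : Fin d → ℝ =>
      (Box d ℓ \ Cor d ℓ).indicator (1 : (Fin d → ℝ) → ENNReal) y :=
    measurable_one.indicator (measurableSet_Box.diff measurableSet_Cor)
  have h2 : Measurable fun y : Fin d → ℝ => Pu (psi u) w y := by
    have h3 := measurable_Pu2 (ψ := psi (d := d) u) (measurable_psi hu) (ι := Fin k)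
    have h4 : Measurable fun y : Fin d → ℝ => (w, y) := measurable_const.prodMk measurable_id
    have h5 := h3.comp h4
    exact h5
  have h5 := measurable_Gw (ψ := psi (d := d) u) (measurable_psi hu) (h1.mul h2) (ι := Fin m)
  have h6 : Measurable fun w' : Fin m → Fin d → ℝ =>
      ((pad (Nm d ℓ) w, pad (Nm d ℓ) w') : EE d ℓ) :=
    measurable_const.prodMk (measurable_pad _ _)
  have h7 := h5.mul (hF.comp h6)
  exact h7

end ModI

theorem lint_cell (hu : Measurable u) (hu' : ∀ x, u (-x) = u x) (F : EE d ℓ → ENNReal)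
    (hF : Measurable F) :
    ∫⁻ x, h0 ℓ u x * F x ∂(pi0 (d := d) ℓ) = ∑' k : ℕ, ((k.factorial : ENNReal))⁻¹ *
      ∫⁻ w : Fin k → Fin d → ℝ, Gw (psi u) ((Cor d ℓ).indicator 1) w *
        ∑' m : ℕ, ((m.factorial : ENNReal))⁻¹ * ∫⁻ w' : Fin m → Fin d → ℝ,
          Gw (psi u) (fun y => (Box d ℓ \ Cor d ℓ).indicator 1 y * Pu (psi u) w y) w' *
            F (pad (Nm d ℓ) w, pad (Nm d ℓ) w') ∂(Measure.pi fun _ => volume)
              ∂(Measure.pi fun _ => volume) := by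
  have hS : MeasurableSet (Box d ℓ \ Cor d ℓ) := measurableSet_Box.diff measurableSet_Cor
  have f1 : IsFiniteMeasure (nu volume 1 (Nm d ℓ) (Cor d ℓ)) :=
    ⟨lt_top_iff_ne_top.2 (nu_ne_top volume 1 (Nm d ℓ) (volume_ne_top Cor_Box) Set.univ)⟩
  have f2 : IsFiniteMeasure (nu volume 1 (Nm d ℓ) (Box d ℓ \ Cor d ℓ)) :=
    ⟨lt_top_iff_ne_top.2 (nu_ne_top volume 1 (Nm d ℓ) (volume_ne_top Set.sdiff_subset) Set.univ)⟩
  obtain ⟨G, hG⟩ : ∃ G : EE d ℓ → ENNReal,
    G = {x : EE d ℓ | Vd ℓ x}.indicator (fun x => h0 ℓ u x * F x) := ⟨_, rfl⟩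
  have hGm : Measurable G := by
    rw [hG]
    exact ((measurable_h0 hu).mul hF).indicator measurableSet_Vd
  unfold pi0
  rw [← lintegral_indicator measurableSet_Vd, ← hG, lintegral_prod _ hGm.aemeasurable,
    lintegral_nu volume 1 (Nm d ℓ) measurableSet_Cor hGm.lintegral_prod_right']
  rw [tsum_eq_sum (s := range (Nm d ℓ + 1))]
  · refine sum_congr rfl fun k hk => ?_
    have hk' : k ≤ Nm d ℓ := by have := mem_range.1 hk; omega
    congr 1
    refine lintegral_congr fun w => ?_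
    by_cases hwu : w ∈ ConfinedGas.Cf 1 (Fin k) (Cor d ℓ)
    · have hGu : Measurable fun y : Con d (Nm d ℓ) => G (pad (Nm d ℓ) w, y) := by
        have h4 : Measurable fun y : Con d (Nm d ℓ) => ((pad (Nm d ℓ) w, y) : EE d ℓ) :=
          measurable_const.prodMk measurable_id
        exact hGm.comp h4
      rw [Set.indicator_of_mem hwu, lintegral_nu volume 1 (Nm d ℓ) hS hGu,
        tsum_eq_sum (s := range (Nm d ℓ + 1)), mul_sum]
      · refine sum_congr rfl fun m hm => ?_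
        have hm' : m ≤ Nm d ℓ := by have := mem_range.1 hm; omega
        rw [mul_left_comm, ← lintegral_const_mul _ (measurable_pw hu w F hF)]
        congr 1
        refine lintegral_congr fun w' => ?_
        rw [key hu' hk' hm' w w' F, ← hG]
        by_cases hw : w' ∈ ConfinedGas.Cf 1 (Fin m) (Box d ℓ \ Cor d ℓ)
        · rw [Set.indicator_of_mem hw]
        · rw [Set.indicator_of_notMem hw, hG, Set.indicator_of_notMem]
          intro hV
          have h3 := (Vd_pad hk' hm' w w').1 hV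
          refine hw ⟨h3.2.1.1, fun i j hij => ?_⟩
          rw [sq_eq, one_pow]
          exact h3.2.1.2 i j hij
      · intro m hm
        have hm' : ¬ m ≤ Nm d ℓ := fun hh => hm (mem_range.2 (by omega))
        have e : ∀ w' : Fin m → Fin d → ℝ,
            Gw (psi u) (fun y => (Box d ℓ \ Cor d ℓ).indicator 1 y * Pu (psi u) w y) w' *
              F (pad (Nm d ℓ) w, pad (Nm d ℓ) w') = 0 := by
          intro w'
          have e0 : Gw (psi u)
              (fun y => (Box d ℓ \ Cor d ℓ).indicator 1 y * Pu (psi u) w y) w' = 0 := by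
            by_contra h2
            unfold Gw at h2
            have h5 := left_ne_zero_of_mul h2
            have h6 := Pr_ne (right_ne_zero_of_mul h2)
            have a2 : ∀ j, w' j ∈ Box d ℓ \ Cor d ℓ := fun j =>
              ind_ne (left_ne_zero_of_mul (Finset.prod_ne_zero_iff.1 h5 j (mem_univ _)))
            exact hm' (le_mx isBounded_Box ⟨w', fun i => (a2 i).1, h6⟩)
          rw [e0, zero_mul]
        simp only [e, lintegral_zero, mul_zero]
    · rw [Set.indicator_of_notMem hwu]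
      have e0 : Gw (psi u) ((Cor d ℓ).indicator 1) w = 0 := by
        by_contra h1
        unfold Gw at h1
        have h3 := left_ne_zero_of_mul h1
        have h4 := Pr_ne (right_ne_zero_of_mul h1)
        refine hwu ⟨fun i => ind_ne (Finset.prod_ne_zero_iff.1 h3 i (mem_univ _)),
          fun i j hij => ?_⟩
        rw [sq_eq, one_pow]
        exact h4 i j hij
      rw [e0, zero_mul]
  · intro k hk
    have hk' : ¬ k ≤ Nm d ℓ := fun hh => hk (mem_range.2 (by omega))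
    have e0 : ∀ w : Fin k → Fin d → ℝ, Gw (psi u) ((Cor d ℓ).indicator 1) w = 0 := by
      intro w
      by_contra h1
      unfold Gw at h1
      have h3 := left_ne_zero_of_mul h1
      have h4 := Pr_ne (right_ne_zero_of_mul h1)
      exact hk' (le_mx isBounded_Box ⟨w, fun i => Cor_Box
        (ind_ne (Finset.prod_ne_zero_iff.1 h3 i (mem_univ _))), h4⟩)
    simp only [e0, zero_mul, lintegral_zero, mul_zero]

end Pool.Agent.Kac.ModD
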