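import Pool.Agent.Lib.MP_09cbbd_kc.Defs
import Pool.Agent.Lib.MP_09cbbd_sw.Finn

/-!
# The torus: lower bound for the partition function of the complement of a set
-/

set_option autoImplicit false

namespace Pool.Agent.Kac

open MeasureTheory Finset Pool.Agent.StableGas Pool.Agent.SquareWell

variable {d : ℕ}

/-- The torus of side `2 L + 1`. -/
abbrev Tor (d L : ℕ) : Type := Fin d → ZMod (2 * L + 1)

/-- Projection of the lattice to the torus. -/
def cst (L : ℕ) (v : Zd d) : Tor d L := fun k => (v k : ZMod (2 * L + 1))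

/-- Boundary count on the torus. -/
noncomputable def cutT (L : ℕ) (S : Finset (Zd d)) (J : Zd d → ℝ) (A : Finset (Tor d L)) : ℝ :=
  ∑ v ∈ S, J v * (A.filter fun i => i + cst L v ∉ A).card

variable {E : Type} [MeasurableSpace E] (M : Md d E)

/-- Partition function of the torus. -/
noncomputable def Md.ZT (L : ℕ) (μ : ℝ) : ENNReal :=
  ∫⁻ ω : Tor d L → E, M.wG (cst L) μ univ ω ∂(Measure.pi fun _ => M.π)

/-- Partition function of the complement of `A` with an additional field `f`. -/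
noncomputable def Md.ZC (L : ℕ) (μ : ℝ) (A : Finset (Tor d L)) (f : Tor d L → ℝ) : ENNReal :=
  lmarginal (fun _ : Tor d L => M.π) (univ \ A) (fun ω => M.wG (cst L) μ (univ \ A) ω *
    ∏ j ∈ univ \ A, ex (f j * M.n (ω j))) fun _ => M.e0

namespace Tor

variable {Γ : Type} [AddCommGroup Γ] [DecidableEq Γ] (φ : Zd d → Γ)

theorem measurable_ex {α : Type} [MeasurableSpace α] {F : α → ℝ} (hF : Measurable F) :
    Measurable fun x => ex (F x) := by
  unfold ex
  exact (Real.measurable_exp.comp hF).ennreal_ofReal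

omit [AddCommGroup Γ] [DecidableEq Γ] in
theorem measurable_nn (j : Γ) : Measurable fun ω : Γ → E => (M.n (ω j) : ℝ) := by
  have h : Measurable fun x : ℕ => (x : ℝ) := measurable_from_top
  exact h.comp (M.measurable_n.comp (measurable_pi_apply j))

theorem measurable_wG (μ : ℝ) (A : Finset Γ) : Measurable (M.wG φ μ A) := by
  unfold Md.wG
  refine Measurable.mul (Finset.measurable_prod _ fun i _ => Measurable.mul ?_ ?_)
    (Finset.measurable_prod _ fun v _ => Finset.measurable_prod _ fun i _ => ?_)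
  · exact measurable_ex ((measurable_nn M i).const_mul μ)
  · exact M.measurable_h.comp (measurable_pi_apply i)
  · have h : Measurable fun a : Γ → E => (a i, a (i + φ v)) :=
      (measurable_pi_apply i).prodMk (measurable_pi_apply (i + φ v))
    exact (M.measurable_g v).comp h

/-- The weight with a field. -/
noncomputable def W (μ : ℝ) (B : Finset Γ) (f : Γ → ℝ) (ω : Γ → E) : ENNReal :=
  M.wG φ μ B ω * ∏ j ∈ B, ex (f j * M.n (ω j))

theorem measurable_W (μ : ℝ) (B : Finset Γ) (f : Γ → ℝ) : Measurable (W M φ μ B f) :=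
  (measurable_wG M φ μ B).mul (Finset.measurable_prod _ fun j _ =>
    measurable_ex ((measurable_nn M j).const_mul (f j)))

theorem W_congr (μ : ℝ) (B : Finset Γ) (f : Γ → ℝ) {ω ω' : Γ → E} (h : ∀ j ∈ B, ω j = ω' j) :
    W M φ μ B f ω = W M φ μ B f ω' := by
  unfold W Md.wG
  congr 1
  · congr 1
    · exact prod_congr rfl fun i hi => by rw [h i hi]
    · refine prod_congr rfl fun v _ => prod_congr rfl fun i hi => ?_
      rw [mem_filter] at hi
      rw [h i hi.1, h _ hi.2]
  · exact prod_congr rfl fun i hi => by rw [h i hi]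

variable [Fintype Γ]

omit [DecidableEq Γ] in
/-- Reindexing of the product over the translations. -/
theorem prod_shift (B : Finset Γ) (H : Γ → Γ → ENNReal) :
    ∏ t : Γ, ∏ i ∈ B, H i (i + t) = ∏ i ∈ B, ∏ j : Γ, H i j := by
  rw [prod_comm]
  exact prod_congr rfl fun i _ => Fintype.prod_equiv (Equiv.addLeft i) _ _ fun t => rfl

theorem rpow_inv_pow (x : ENNReal) {k : ℕ} (hk : k ≠ 0) : (x ^ (1 / (k : ℝ))) ^ k = x := by
  rw [← ENNReal.rpow_natCast, ← ENNReal.rpow_mul, one_div,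
    inv_mul_cancel₀ (Nat.cast_ne_zero.mpr hk), ENNReal.rpow_one]

theorem card_shift (B : Finset Γ) (v : Γ) :
    (B.filter fun i => i + v ∈ B).card + ((univ \ B).filter fun i => i + v ∉ univ \ B).card =
      B.card := by
  have h1 : (univ.filter fun i => i + v ∈ B).card = B.card := by
    refine card_bij (fun i _ => i + v) (fun i hi => (mem_filter.mp hi).2)
      (fun i _ j _ h => add_right_cancel h) fun j hj => ⟨j - v, ?_, by simp⟩
    rw [mem_filter]
    exact ⟨mem_univ _, by simpa using hj⟩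
  rw [← h1, ← card_union_of_disjoint]
  · congr 1
    ext i
    simp only [mem_union, mem_filter, mem_sdiff, mem_univ, true_and, not_not]
    tauto
  · rw [disjoint_left]
    intro i hi hi'
    rw [mem_filter] at hi hi'
    exact (mem_sdiff.mp hi'.1).2 hi.1

/-- The pair weights. -/
theorem pair_bound (v : Zd d) (x y : E) {k c D : ℕ} (hk : k ≠ 0) (hcD : c + D = k) :
    M.g v x y ≤ (M.g v x y ^ (1 / (k : ℝ))) ^ c * ex (M.K / 2 * M.N * (M.J v * D) / k * M.n x) := by
  have hk0 : (0:ℝ) < k := by exact_mod_cast Nat.pos_of_ne_zero hk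
  calc M.g v x y = (M.g v x y ^ (1 / (k : ℝ))) ^ (c + D) := by rw [hcD, rpow_inv_pow _ hk]
    _ = (M.g v x y ^ (1 / (k : ℝ))) ^ c * (M.g v x y ^ (1 / (k : ℝ))) ^ D := pow_add _ _ _
    _ ≤ _ := by
      refine mul_le_mul' le_rfl ?_
      have h1 : M.g v x y ^ (1 / (k : ℝ)) ≤ ex (M.K / 2 * M.J v * M.n x * M.N / k) := by
        have h2 : M.g v x y ^ (1 / (k : ℝ)) ≤ ex (M.K / 2 * M.J v * M.n x * M.n y) ^ (1 / (k : ℝ)) :=
          ENNReal.rpow_le_rpow (M.g_up v x y) (by positivity)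
        refine h2.trans ?_
        rw [ex_rpow, ex_le_ex, mul_one_div]
        have h3 : (M.n y : ℝ) ≤ M.N := by exact_mod_cast M.n_le y
        have h4 : 0 ≤ M.K / 2 * M.J v * M.n x :=
          mul_nonneg (mul_nonneg (by linarith [M.hK]) (M.J_nonneg v)) (Nat.cast_nonneg _)
        exact div_le_div_of_nonneg_right (mul_le_mul_of_nonneg_left h3 h4) hk0.le
      refine (pow_le_pow_left' h1 D).trans ?_
      rw [ex_pow, ex_le_ex]
      apply le_of_eq
      ring

/-- Total number of broken pairs. -/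
noncomputable def ct (S : Finset (Zd d)) (J : Zd d → ℝ) (A : Finset Γ) : ℝ :=
  ∑ v ∈ S, J v * (A.filter fun i => i + φ v ∉ A).card

theorem pointwise (μ : ℝ) (A : Finset Γ) (hA : (univ \ A).card ≠ 0) (f : Γ → ℝ) (ω : Γ → E) :
    M.wG φ (μ + (∑ j ∈ univ \ A, f j - M.K / 2 * M.N * ct φ M.S M.J A) / ((univ \ A).card : ℝ)) univ ω ≤
      ∏ t : Γ, W M φ μ (univ \ A) f (fun j => ω (j + t)) ^ (1 / (((univ \ A).card : ℕ) : ℝ)) := by
  set B : Finset Γ := univ \ A with hB
  set k : ℕ := B.card with hk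
  have hk0 : (0:ℝ) < k := by exact_mod_cast Nat.pos_of_ne_zero hA
  have hr : (0:ℝ) ≤ 1 / (k : ℝ) := by positivity
  set D : Zd d → ℕ := fun v => (A.filter fun i => i + φ v ∉ A).card with hD
  set c : Zd d → ℕ := fun v => (B.filter fun i => i + φ v ∈ B).card with hc
  have hAB : univ \ B = A := by rw [hB, sdiff_sdiff_right_self]; simp
  have hcD : ∀ v, c v + D v = k := by
    intro v
    have := card_shift B (φ v)
    rw [hAB] at this
    exact this
  -- the right side
  have hR : ∏ t : Γ, W M φ μ B f (fun j => ω (j + t)) ^ (1 / (k : ℝ)) =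
      (∏ j : Γ, ex (μ * M.n (ω j)) * M.h (ω j)) *
        (∏ v ∈ M.S.erase 0, ∏ j : Γ, (M.g v (ω j) (ω (j + φ v)) ^ (1 / (k : ℝ))) ^ c v) *
        ∏ j : Γ, ex ((∑ i ∈ B, f i) / k * M.n (ω j)) := by
    have hterm : ∀ t : Γ, W M φ μ B f (fun j => ω (j + t)) ^ (1 / (k : ℝ)) =
        (∏ i ∈ B, (ex (μ * M.n (ω (i + t))) * M.h (ω (i + t))) ^ (1 / (k : ℝ))) *
          (∏ v ∈ M.S.erase 0, ∏ i ∈ B.filter (fun i => i + φ v ∈ B),
            M.g v (ω (i + t)) (ω (i + φ v + t)) ^ (1 / (k : ℝ))) *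
          ∏ i ∈ B, (ex (f i * M.n (ω (i + t)))) ^ (1 / (k : ℝ)) := by
      intro t
      unfold W Md.wG
      rw [ENNReal.mul_rpow_of_nonneg _ _ hr, ENNReal.mul_rpow_of_nonneg _ _ hr]
      simp only [← ENNReal.prod_rpow_of_nonneg hr]
    simp only [hterm]
    rw [prod_mul_distrib, prod_mul_distrib]
    congr 1
    · congr 1
      · rw [prod_shift B fun _ j => (ex (μ * M.n (ω j)) * M.h (ω j)) ^ (1 / (k : ℝ))]
        rw [prod_const, ← hk, ← prod_pow]
        exact prod_congr rfl fun j _ => rpow_inv_pow _ hA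
      · rw [prod_comm]
        refine prod_congr rfl fun v _ => ?_
        have h1 : ∀ t : Γ, ∏ i ∈ B.filter (fun i => i + φ v ∈ B),
            M.g v (ω (i + t)) (ω (i + φ v + t)) ^ (1 / (k : ℝ)) =
            ∏ i ∈ B.filter (fun i => i + φ v ∈ B),
              M.g v (ω (i + t)) (ω (i + t + φ v)) ^ (1 / (k : ℝ)) := by
          intro t
          refine prod_congr rfl fun i _ => ?_
          rw [add_right_comm]
        have h5 : ∏ t : Γ, ∏ i ∈ B.filter (fun i => i + φ v ∈ B),
              M.g v (ω (i + t)) (ω (i + t + φ v)) ^ (1 / (k : ℝ)) =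
            ∏ i ∈ B.filter (fun i => i + φ v ∈ B), ∏ j : Γ,
              M.g v (ω j) (ω (j + φ v)) ^ (1 / (k : ℝ)) :=
          prod_shift (B.filter fun i => i + φ v ∈ B)
            fun _ j => M.g v (ω j) (ω (j + φ v)) ^ (1 / (k : ℝ))
        rw [prod_congr rfl fun t _ => h1 t, h5, prod_const, ← prod_pow]
    · rw [prod_shift B fun i j => (ex (f i * M.n (ω j))) ^ (1 / (k : ℝ)), prod_comm]
      refine prod_congr rfl fun j _ => ?_
      simp only [ex_rpow]
      rw [prod_ex, ← sum_mul, ← sum_mul]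
      congr 1
      ring
  rw [hR]
  -- the left side
  unfold Md.wG
  have hfil : ∀ v, (univ.filter fun i : Γ => i + φ v ∈ (univ : Finset Γ)) = univ := by
    intro v
    rw [filter_true_of_mem]
    intro i _
    exact mem_univ _
  simp only [hfil]
  have h1 : ∏ v ∈ M.S.erase 0, ∏ j : Γ, M.g v (ω j) (ω (j + φ v)) ≤
      (∏ v ∈ M.S.erase 0, ∏ j : Γ, (M.g v (ω j) (ω (j + φ v)) ^ (1 / (k : ℝ))) ^ c v) *
        ∏ j : Γ, ex (M.K / 2 * M.N * ct φ M.S M.J A / k * M.n (ω j)) := by
    have h2 : ∏ v ∈ M.S.erase 0, ∏ j : Γ, M.g v (ω j) (ω (j + φ v)) ≤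
        ∏ v ∈ M.S.erase 0, ∏ j : Γ, ((M.g v (ω j) (ω (j + φ v)) ^ (1 / (k : ℝ))) ^ c v *
          ex (M.K / 2 * M.N * (M.J v * D v) / k * M.n (ω j))) :=
      Finset.prod_le_prod' fun v _ => Finset.prod_le_prod' fun j _ =>
        pair_bound M v _ _ hA (hcD v)
    refine h2.trans ?_
    simp only [prod_mul_distrib]
    refine mul_le_mul' le_rfl ?_
    rw [prod_comm]
    refine Finset.prod_le_prod' fun j _ => ?_
    rw [prod_ex, ex_le_ex, ← sum_mul]
    refine mul_le_mul_of_nonneg_right ?_ (Nat.cast_nonneg _)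
    rw [← sum_div]
    refine div_le_div_of_nonneg_right ?_ hk0.le
    rw [← mul_sum]
    refine mul_le_mul_of_nonneg_left ?_ (mul_nonneg (by linarith [M.hK]) (Nat.cast_nonneg _))
    exact sum_le_sum_of_subset_of_nonneg (erase_subset _ _)
      fun v _ _ => mul_nonneg (M.J_nonneg v) (Nat.cast_nonneg _)
  refine (mul_le_mul' le_rfl h1).trans (le_of_eq ?_)
  have h4 : (∏ j : Γ, ex ((μ + (∑ j ∈ B, f j - M.K / 2 * M.N * ct φ M.S M.J A) / (k : ℝ)) *
      M.n (ω j)) * M.h (ω j)) * (∏ j : Γ, ex (M.K / 2 * M.N * ct φ M.S M.J A / k * M.n (ω j))) =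
      (∏ j : Γ, ex (μ * M.n (ω j)) * M.h (ω j)) *
        ∏ j : Γ, ex ((∑ i ∈ B, f i) / k * M.n (ω j)) := by
    rw [← prod_mul_distrib, ← prod_mul_distrib]
    refine prod_congr rfl fun j _ => ?_
    rw [mul_right_comm (ex _), mul_right_comm (ex (μ * M.n (ω j))), ← ex_add, ← ex_add]
    congr 2
    field_simp
    ring
  rw [mul_comm (∏ v ∈ M.S.erase 0, ∏ j : Γ, (M.g v (ω j) (ω (j + φ v)) ^ (1 / (k : ℝ))) ^ c v)
    (∏ j : Γ, ex (M.K / 2 * M.N * ct φ M.S M.J A / k * M.n (ω j))), ← mul_assoc, h4, mul_right_comm]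

theorem lower (μ : ℝ) (A : Finset Γ) (hA : (univ \ A).card ≠ 0) (f : Γ → ℝ) :
    ∫⁻ ω : Γ → E, M.wG φ (μ + (∑ j ∈ univ \ A, f j - M.K / 2 * M.N * ct φ M.S M.J A) /
        ((univ \ A).card : ℝ)) univ ω ∂(Measure.pi fun _ => M.π) ≤
      (lmarginal (fun _ : Γ => M.π) (univ \ A) (W M φ μ (univ \ A) f) fun _ => M.e0) ^
        ((Fintype.card Γ : ℝ) / ((univ \ A).card : ℝ)) := by
  have : IsFiniteMeasure M.π := ⟨M.π_univ.trans_lt (ex_ne_top _).lt_top⟩
  set B : Finset Γ := univ \ A with hB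
  set k : ℕ := B.card with hk
  have hk0 : (0:ℝ) < k := by exact_mod_cast Nat.pos_of_ne_zero hA
  refine (lintegral_mono fun ω => pointwise M φ μ A hA f ω).trans ?_
  have hinj : ∀ t : Γ, Function.Injective fun j : Γ => j + t := fun t => add_left_injective t
  have hm : ∀ t : Γ, Measurable fun ω : Γ → E => W M φ μ B f fun j => ω (j + t) := fun t =>
    (measurable_W M φ μ B f).comp (measurable_pi_lambda _ fun j => measurable_pi_apply (j + t))
  have h1 := finner M.π (univ : Finset Γ) (fun t => B.image fun j => j + t)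
    (fun _ => 1 / (k : ℝ)) (fun _ _ => by positivity) (fun j => by
      have h2 : (univ.filter fun t : Γ => j ∈ B.image fun j => j + t).card = k := by
        rw [hk]
        refine card_bij (fun t _ => j - t) (fun t ht => ?_) (fun t _ t' _ h => ?_) fun i hi => ?_
        · obtain ⟨i, hi, rfl⟩ := mem_image.mp (mem_filter.mp ht).2
          simpa using hi
        · exact sub_right_injective h
        · refine ⟨j - i, ?_, by simp⟩
          rw [mem_filter]
          exact ⟨mem_univ _, mem_image.mpr ⟨i, hi, by simp⟩⟩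
      rw [← sum_filter, sum_const, h2, nsmul_eq_mul]
      field_simp)
    (fun t ω => W M φ μ B f fun j => ω (j + t)) (fun t _ => hm t)
    (fun t _ ω ω' h => W_congr M φ μ B f fun j hj => h (j + t) (mem_image_of_mem _ hj))
    (fun _ => M.e0)
  refine h1.trans (le_of_eq ?_)
  have h3 : ∀ t : Γ, lmarginal (fun _ : Γ => M.π) (B.image fun j => j + t)
      (fun ω => W M φ μ B f fun j => ω (j + t)) (fun _ => M.e0) =
      lmarginal (fun _ : Γ => M.π) B (W M φ μ B f) fun _ => M.e0 := fun t =>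
    lmarginal_image (X := fun _ : Γ => E) (μ := fun _ : Γ => M.π) (hinj t) B
      (measurable_W M φ μ B f) fun _ => M.e0
  simp only [h3]
  rw [prod_const, card_univ, ← ENNReal.rpow_natCast, ← ENNReal.rpow_mul]
  congr 1
  ring

end Tor

theorem torus_lower (L : ℕ) (μ : ℝ) (A : Finset (Tor d L)) (hA : A.card < (2 * L + 1) ^ d)
    (f : Tor d L → ℝ) :
    M.ZT L (μ + (∑ j ∈ univ \ A, f j - M.K / 2 * M.N * cutT L M.S M.J A) /
        ((2 * L + 1 : ℝ) ^ d - A.card)) ≤
      M.ZC L μ A f ^ ((2 * L + 1 : ℝ) ^ d / ((2 * L + 1 : ℝ) ^ d - A.card)) := by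
  have hcard : Fintype.card (Tor d L) = (2 * L + 1) ^ d := by
    rw [Fintype.card_fun, ZMod.card, Fintype.card_fin]
  have h1 : (univ \ A).card = (2 * L + 1) ^ d - A.card := by
    rw [card_sdiff_of_subset (subset_univ A), card_univ, hcard]
  have h2 : (univ \ A).card ≠ 0 := by omega
  have h3 := Tor.lower M (cst L) μ A h2 f
  have h4 : (((univ \ A).card : ℕ) : ℝ) = (2 * L + 1 : ℝ) ^ d - A.card := by
    rw [h1, Nat.cast_sub hA.le]
    push_cast
    ring
  have h5 : ((Fintype.card (Tor d L) : ℕ) : ℝ) = (2 * L + 1 : ℝ) ^ d := by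
    rw [hcard]
    push_cast
    ring
  rw [h4, h5] at h3
  exact h3

end Pool.Agent.Kac
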